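import Pool.Agent.Lib.MP_33b3f9_ag.MG.RS.Mu

/-!
The conjugates as algebra maps, the permutation action and the rational points.
-/

set_option autoImplicit false

noncomputable section

namespace MG.RS

open Matrix Filter Pool.Agent.M4.Mx

variable [Dim] {e : ℕ} {a b : MZ} {m n : ℕ} {z : MorD e a b ℂ} {L : Type} [Field L] {l₁ : ℕ}
  {F : Frs e a b L l₁} {E : Fin 2 → Fin 2 → Matrix ν ν ℂ} {d : ℕ} {θ : Fin e → Fin d → ℂ ≃+* ℂ}
  {ψ : Fin e → Fin d → M2 ℂ →ₐ[ℂ] M8 ℂ} {x y : Fin e → Fin d → M2 ℂ}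

theorem dqb_em (hE : MU z E) {s : Fin e} (hs : lin E 1 = z.em (Pi.single s 1)) (x : M2 ℂ) :
    lin E x = z.em (Pi.single s (z.pr (lin E x) s)) := by
  conv_lhs => rw [← Matrix.one_mul x, ← hE.mul, hs, ← z.em_pr (hE.lin_ca x) (hE.lin_cb x),
    ← map_mul]
  refine congrArg z.em (funext fun t => ?_)
  by_cases ht : t = s
  · subst ht
    simp
  · simp [ht]

theorem dqb_psi (hE : MU z E) {s : Fin e} (hs : lin E 1 = z.em (Pi.single s 1)) :
    ∃ f : M2 ℂ →ₐ[ℂ] M8 ℂ, ∀ x, lin E x = z.em (Pi.single s (f x)) := by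
  have h := dqb_em hE hs
  let f : M2 ℂ →ₗ[ℂ] M8 ℂ :=
    (LinearMap.proj s : (Fin e → M8 ℂ) →ₗ[ℂ] M8 ℂ) ∘ₗ z.toMor.pr ∘ₗ lin E
  have hf : ∀ x, f x = z.pr (lin E x) s := fun _ => rfl
  have h1 : f 1 = 1 := by rw [hf, hs, Mor.pr_em, Pi.single_eq_same]
  have h2 : ∀ x y, f (x * y) = f x * f y := fun x y => by
    refine em_single_inj z.toMor s ?_
    rw [← em_single_mul, hf, hf, hf, ← h, ← h, ← h, hE.mul]
  exact ⟨AlgHom.ofLinearMap f h1 h2, fun x => by rw [AlgHom.ofLinearMap_apply, hf, ← h]⟩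

theorem exists_psi (hP : PEL e a b m n) (hE : MU z E) (hT : TT z E θ) :
    ∃ ψ, IsPsi z E θ ψ := by
  choose ψ h using fun s t => dqb_psi (hE.cj hP (θ s t)) (hT.blk s t)
  exact ⟨ψ, h⟩

theorem IsPsi.comm (hψ : IsPsi z E θ ψ) (hT : TT z E θ) (s : Fin e) (t t' : Fin d) (x y : M2 ℂ)
    (h : t ≠ t') : Commute (ψ s t x) (ψ s t' y) := by
  refine em_single_inj z.toMor s ?_
  rw [← em_single_mul, ← em_single_mul, ← hψ, ← hψ]
  exact hT.comm s t t' h x y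

theorem IsPsi.adj (hψ : IsPsi z E θ ψ) (hP : PEL e a b m n) (hE : MU z E) (s : Fin e) (t : Fin d)
    (x : M2 ℂ) : (ψ s t x)ᵀ * J (Fin 4) ℂ = J (Fin 4) ℂ * ψ s t (adjugate x) := by
  have h := (hE.cj hP (θ s t)).adj x
  rw [hψ, hψ, ← Matrix.mul_one (_ * J ι ℂ), ← map_one z.em] at h
  simpa using (z.form_iff _ _ _).1 h s

theorem dqb_comm (hP : PEL e a b m n) (hE : MU z E) (hT : TT z E θ) {T T' : Fin e × Fin d}
    (h : T ≠ T') (x y : M2 ℂ) :
    Commute (lin (cj (θ T.1 T.2) E) x) (lin (cj (θ T'.1 T'.2) E) y) := by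
  obtain ⟨s, t⟩ := T
  obtain ⟨s', t'⟩ := T'
  by_cases hs : s = s'
  · subst hs
    exact hT.comm s t t' (fun c => h (by rw [c])) x y
  · rw [dqb_em (hE.cj hP _) (hT.blk s t) x, dqb_em (hE.cj hP _) (hT.blk s' t') y]
    exact (em_single_ne _ hs _ _).trans (em_single_ne _ (Ne.symm hs) _ _).symm

theorem dqb_to {τ : ℂ ≃+* ℂ} {T T' : Fin e × Fin d} : To E θ τ T T' ↔
    ∀ y, ∃ y', lin (cj ((θ T.1 T.2).trans τ) E) y = lin (cj (θ T'.1 T'.2) E) y' := by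
  refine ⟨fun h y => ?_, fun h y => ?_⟩
  · rw [← cj_cj, lin_cj']
    exact h _
  · rw [lin_cj, cj_cj]
    exact h _

theorem dqb_uniq (hP : PEL e a b m n) (hE : MU z E) (hT : TT z E θ) {τ : ℂ ≃+* ℂ}
    {T T' T'' : Fin e × Fin d} (h : To E θ τ T T') (h' : To E θ τ T T'') : T' = T'' := by
  by_contra hc
  have hA := hE.cj hP ((θ T.1 T.2).trans τ)
  obtain ⟨u, hu⟩ := dqb_to.1 h (single 0 0 1)
  obtain ⟨v, hv⟩ := dqb_to.1 h' (single 0 1 1)
  have h1 := (dqb_comm hP hE hT hc u v).eq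
  rw [← hu, ← hv, hA.mul, hA.mul] at h1
  simpa using congrFun (congrFun (hA.inj h1) 0) 1

theorem dqb_onto (hP : PEL e a b m n) (hE : MU z E) {τ : ℂ ≃+* ℂ} {T T' : Fin e × Fin d}
    (h : To E θ τ T T') (y' : M2 ℂ) :
    ∃ y, (lin (cj (θ T.1 T.2) E) y).map τ = lin (cj (θ T'.1 T'.2) E) y' := by
  have h1 : LinearMap.range (lin (cj ((θ T.1 T.2).trans τ) E)) =
      LinearMap.range (lin (cj (θ T'.1 T'.2) E)) := by
    refine Submodule.eq_of_le_of_finrank_eq ?_ ?_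
    · rintro _ ⟨y, rfl⟩
      obtain ⟨u, hu⟩ := dqb_to.1 h y
      exact ⟨u, hu.symm⟩
    · rw [LinearMap.finrank_range_of_inj (hE.cj hP _).inj,
        LinearMap.finrank_range_of_inj (hE.cj hP _).inj]
  obtain ⟨y, hy⟩ : lin (cj (θ T'.1 T'.2) E) y' ∈
      LinearMap.range (lin (cj ((θ T.1 T.2).trans τ) E)) := h1 ▸ ⟨y', rfl⟩
  exact ⟨y.map τ.symm, by rw [← hy, ← cj_cj, lin_cj' τ]⟩

theorem dqb_symm (hP : PEL e a b m n) (hE : MU z E) {τ : ℂ ≃+* ℂ} {T T' : Fin e × Fin d}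
    (h : To E θ τ T T') : To E θ τ.symm T' T := fun y' => by
  obtain ⟨y, hy⟩ := dqb_onto hP hE h y'
  exact ⟨y, by rw [← hy, map_map_symm]⟩

theorem To.perm (hP : PEL e a b m n) (hE : MU z E) (hT : TT z E θ) (τ : ℂ ≃+* ℂ) :
    ∃ π : Equiv.Perm (Fin e × Fin d), ∀ T T', To E θ τ T T' ↔ T' = π T := by
  have h : ∀ T : Fin e × Fin d, ∃ T', To E θ τ T T' := fun T => by
    obtain ⟨s, t, h⟩ := hT.cov ((θ T.1 T.2).trans τ)
    exact ⟨(s, t), dqb_to.2 h⟩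
  choose f hf using h
  have hi : Function.Injective f := fun T T' h =>
    dqb_uniq hP hE hT (dqb_symm hP hE (hf T)) (h ▸ dqb_symm hP hE (hf T'))
  exact ⟨Equiv.ofBijective f (Finite.injective_iff_bijective.1 hi), fun T T' =>
    ⟨fun h => dqb_uniq hP hE hT h (hf T), fun h => h ▸ hf T⟩⟩

theorem dqb_tr (E : Fin 2 → Fin 2 → Matrix ν ν ℂ) (θ : Fin e → Fin d → ℂ ≃+* ℂ)
    (T T' : Fin e × Fin d) : ∃ τ : ℂ ≃+* ℂ, ∀ y,
      (lin (cj (θ T.1 T.2) E) y).map τ = lin (cj (θ T'.1 T'.2) E) (y.map τ) :=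
  ⟨(θ T.1 T.2).symm.trans (θ T'.1 T'.2), fun y => by
    rw [lin_cj, cj_cj, show (θ T.1 T.2).trans ((θ T.1 T.2).symm.trans (θ T'.1 T'.2)) =
      θ T'.1 T'.2 from RingEquiv.ext fun t => by simp]⟩

theorem To.tr (E : Fin 2 → Fin 2 → Matrix ν ν ℂ) (θ : Fin e → Fin d → ℂ ≃+* ℂ)
    (T T' : Fin e × Fin d) : ∃ τ, To E θ τ T T' := by
  obtain ⟨τ, h⟩ := dqb_tr E θ T T'
  exact ⟨τ, fun y => ⟨_, h y⟩⟩

theorem Inv.mul (hP : PEL e a b m n) (hE : MU z E) (hx : Inv E θ x) (hy : Inv E θ y) :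
    Inv E θ (x * y) := fun τ T T' h => by
  simp only [Pi.mul_apply]
  rw [← (hE.cj hP _).mul, ← (hE.cj hP _).mul, Matrix.map_mul, hx τ T T' h, hy τ T T' h]

theorem Inv.sum {K : Type} [Fintype K] {B : K → Fin e → Fin d → M2 ℂ} (hB : ∀ k, Inv E θ (B k))
    (c : K → ℤ) : Inv E θ (∑ k, c k • B k) := fun τ T T' h => by
  change τ.toRingHom.mapMatrix _ = _
  simp only [Finset.sum_apply, Pi.smul_apply, map_sum, map_zsmul]
  exact Finset.sum_congr rfl fun k _ => congrArg _ (hB k τ T T' h)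

theorem dqb_map (hP : PEL e a b m n) (hE : MU z E) (hx : Inv E θ x) (T T' : Fin e × Fin d) :
    ∃ τ : ℂ ≃+* ℂ, x T'.1 T'.2 = (x T.1 T.2).map τ := by
  obtain ⟨τ, h⟩ := dqb_tr E θ T T'
  exact ⟨τ, (hE.cj hP _).inj ((hx τ T T' fun y => ⟨_, h y⟩).symm.trans (h _))⟩

theorem Inv.zero (hP : PEL e a b m n) (hE : MU z E) (hx : Inv E θ x) {s : Fin e} {t : Fin d}
    (h : x s t = 0) : x = 0 := by
  funext s' t'
  obtain ⟨τ, h1⟩ := dqb_map hP hE hx (s, t) (s', t')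
  rw [h, Matrix.map_zero _ (map_zero τ)] at h1
  exact h1

theorem Inv.sing (hP : PEL e a b m n) (hE : MU z E) (hx : Inv E θ x) {s : Fin e} {t : Fin d}
    (h : (x s t).det = 0) (s' : Fin e) (t' : Fin d) : (x s' t').det = 0 := by
  obtain ⟨τ, h1⟩ := dqb_map hP hE hx (s, t) (s', t')
  have h2 := τ.toRingHom.map_det (x s t)
  rw [h, map_zero] at h2
  exact (congrArg det h1).trans h2.symm

theorem Inv.repr (hP : PEL e a b m n) (hE : MU z E) (hT : TT z E θ) {K : Type} [Fintype K]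
    (B : Module.Basis K ℂ (Fin e → Fin d → M2 ℂ)) (hB : ∀ k, Inv E θ (B k)) (hx : Inv E θ x)
    (τ : ℂ ≃+* ℂ) (k : K) : τ (B.repr x k) = B.repr x k := by
  obtain ⟨π, hπ⟩ := To.perm hP hE hT τ
  have h : x = ∑ k, τ (B.repr x k) • B k := by
    funext s t
    have h1 : To E θ τ (π.symm (s, t)) (s, t) := (hπ _ _).2 (π.apply_symm_apply _).symm
    refine (hE.cj hP (θ s t)).inj ((hx τ _ _ h1).symm.trans ?_)
    conv_lhs => rw [← B.sum_repr x]
    change τ.toRingHom.mapMatrix _ = _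
    simp only [Finset.sum_apply, Pi.smul_apply, map_sum, map_smul]
    refine Finset.sum_congr rfl fun k _ => ?_
    rw [← hB k τ _ _ h1]
    ext i j
    simp
  conv_rhs => rw [h, B.repr_sum_self]

theorem dqb_one (hP : PEL e a b m n) (hE : MU z E) : Inv E θ 1 := fun τ T T' h => by
  obtain ⟨u, hu⟩ := h 1
  obtain ⟨v, hv⟩ := dqb_onto hP hE h 1
  change (lin (cj (θ T.1 T.2) E) 1).map τ = lin (cj (θ T'.1 T'.2) E) 1
  calc _ = (lin (cj (θ T.1 T.2) E) 1).map τ * lin (cj (θ T'.1 T'.2) E) 1 := by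
        rw [hu, (hE.cj hP _).mul, Matrix.mul_one]
    _ = _ := by rw [← hv, ← Matrix.map_mul, (hE.cj hP _).mul, Matrix.one_mul]

/-- The factor of the norm at `T`. -/
def dqb_G (E : Fin 2 → Fin 2 → Matrix ν ν ℂ) (θ : Fin e → Fin d → ℂ ≃+* ℂ)
    (x : Fin e → Fin d → M2 ℂ) (T : Fin e × Fin d) : Matrix ν ν ℂ :=
  lin (cj (θ T.1 T.2) E) (x T.1 T.2) + (1 - lin (cj (θ T.1 T.2) E) 1)

theorem dqb_G_eq (hψ : IsPsi z E θ ψ) (x : Fin e → Fin d → M2 ℂ) (T : Fin e × Fin d) :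
    dqb_G E θ x T = z.em (Pi.mulSingle T.1 (ψ T.1 T.2 (x T.1 T.2))) := by
  rw [dqb_G, hψ, hψ, ← map_one z.em, ← map_sub, ← map_add]
  refine congrArg z.em (funext fun s => ?_)
  by_cases hs : s = T.1
  · subst hs
    simp
  · simp [hs]

theorem dqb_nrm (hψ : IsPsi z E θ ψ) (x : Fin e → Fin d → M2 ℂ) :
    nrm z ψ x = ((List.finRange e ×ˢ List.finRange d).map (dqb_G E θ x)).prod := by
  have h : dqb_G E θ x = z.em ∘ fun T => Pi.mulSingle T.1 (ψ T.1 T.2 (x T.1 T.2)) :=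
    funext (dqb_G_eq hψ x)
  rw [h, ← List.map_map, ← map_list_prod, nrm]
  refine congrArg z.em (funext fun s => ?_)
  have h1 := map_list_prod (Pi.evalMonoidHom (fun _ : Fin e => M8 ℂ) s)
    ((List.finRange e ×ˢ List.finRange d).map fun T : Fin e × Fin d =>
      (Pi.mulSingle T.1 (ψ T.1 T.2 (x T.1 T.2)) : Fin e → M8 ℂ))
  refine Eq.trans ?_ h1.symm
  change _ = (List.map _ (List.map _ (List.flatMap _ _))).prod
  rw [List.map_map, List.map_flatMap, List.flatMap_def, List.prod_flatten, List.map_map,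
    List.prod_map_eq_pow_single s _ fun s' hs _ => ?_, List.count_eq_one_of_mem
      (List.nodup_finRange e) (List.mem_finRange s), pow_one, List.ofFn_eq_map]
  · simp [Function.comp_def]
  · refine List.prod_eq_one fun u hu => ?_
    simp only [List.map_map, List.mem_map] at hu
    obtain ⟨t, -, rfl⟩ := hu
    simp [Ne.symm hs]

theorem Inv.nrm (hP : PEL e a b m n) (hE : MU z E) (hT : TT z E θ) (hψ : IsPsi z E θ ψ)
    (hx : Inv E θ x) (τ : ℂ ≃+* ℂ) : (nrm z ψ x).map τ = nrm z ψ x := by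
  obtain ⟨π, hπ⟩ := To.perm hP hE hT τ
  have h1 : τ.toRingHom.mapMatrix ∘ dqb_G E θ x = dqb_G E θ x ∘ π := funext fun T => by
    have h := (hπ T _).2 rfl
    change τ.toRingHom.mapMatrix (_ + (1 - _)) = _
    rw [map_add, map_sub, map_one]
    exact congrArg₂ (fun u v => u + (1 - v)) (hx τ _ _ h) (dqb_one hP hE τ _ _ h)
  have h2 : (List.finRange e ×ˢ List.finRange d).Nodup :=
    (List.nodup_finRange e).product (List.nodup_finRange d)
  have h3 : ∀ T, T ∈ List.finRange e ×ˢ List.finRange d := fun T =>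
    List.mem_product.2 ⟨List.mem_finRange T.1, List.mem_finRange T.2⟩
  have h4 : (List.finRange e ×ˢ List.finRange d).Perm
      ((List.finRange e ×ˢ List.finRange d).map π) :=
    (List.perm_ext_iff_of_nodup h2 (h2.map π.injective)).2 fun T =>
      ⟨fun _ => List.mem_map.2 ⟨π.symm T, h3 _, π.apply_symm_apply T⟩, fun _ => h3 T⟩
  rw [dqb_nrm hψ]
  change τ.toRingHom.mapMatrix _ = _
  rw [map_list_prod, List.map_map, h1, ← List.map_map]
  refine ((h4.map _).prod_eq' (List.pairwise_map.2 (h2.imp fun {T T'} h => ?_))).symm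
  have h5 := dqb_comm hP hE hT h
  exact ((h5 _ _).add_right ((Commute.one_right _).sub_right (h5 _ _))).add_left
    ((Commute.one_left _).sub_left
      ((h5 _ _).add_right ((Commute.one_right _).sub_right (h5 _ _))))

end MG.RS
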