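import Pool.Agent.Lib.MP_33b3f9_ag.MG.RS.Pb

/-!
Families of matrices with entries of polynomial height.
-/

set_option autoImplicit false

noncomputable section

namespace MG.RS

open Polynomial Finset Filter Matrix

variable {I m n o : Type} {R : Subring (I → ℂ)}

/-- All entries of the family `A` lie in `R`. -/
def Mem (R : Subring (I → ℂ)) (A : I → Matrix m n ℂ) : Prop := ∀ a b, (fun i => A i a b) ∈ R

/-- The evaluation at an index. -/
def ev (R : Subring (I → ℂ)) (i : I) : R →+* ℂ := (Pi.evalRingHom (fun _ => ℂ) i).comp R.subtype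

theorem ev_mem (x : R) : (fun i => ev R i x) ∈ R := x.2

namespace Mem

variable {A B : I → Matrix m n ℂ}

theorem of_map (G : Matrix m n R) : Mem R fun i => G.map (ev R i) := fun a b => (G a b).2

theorem lift (h : Mem R A) : ∃ G : Matrix m n R, A = fun i => G.map (ev R i) :=
  ⟨fun a b => ⟨_, h a b⟩, rfl⟩

theorem mono {R' : Subring (I → ℂ)} (h : Mem R A) (hR : ∀ f ∈ R, f ∈ R') : Mem R' A :=
  fun a b => hR _ (h a b)

theorem add (h : Mem R A) (h' : Mem R B) : Mem R fun i => A i + B i :=
  fun a b => R.add_mem (h a b) (h' a b)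

theorem sub (h : Mem R A) (h' : Mem R B) : Mem R fun i => A i - B i :=
  fun a b => R.sub_mem (h a b) (h' a b)

theorem neg (h : Mem R A) : Mem R fun i => -A i := fun a b => R.neg_mem (h a b)

theorem zero : Mem R fun _ => (0 : Matrix m n ℂ) := fun _ _ => R.zero_mem

theorem smul {c : I → ℂ} (hc : c ∈ R) (h : Mem R A) : Mem R fun i => c i • A i :=
  fun a b => R.mul_mem hc (h a b)

theorem tr (h : Mem R A) : Mem R fun i => (A i)ᵀ := fun a b => h b a

theorem int (g : Matrix m n ℤ) : Mem R fun _ => g.map (Int.cast : ℤ → ℂ) :=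
  fun a b => intCast_mem R (g a b)

theorem sum {J : Type} (s : Finset J) {f : J → I → Matrix m n ℂ} (h : ∀ j ∈ s, Mem R (f j)) :
    Mem R fun i => ∑ j ∈ s, f j i := fun a b => by
  have := R.sum_mem fun j hj => h j hj a b
  simpa only [Matrix.sum_apply, Finset.sum_fn] using this

theorem mul [Fintype n] {B : I → Matrix n o ℂ} (h : Mem R A) (h' : Mem R B) :
    Mem R fun i => A i * B i := fun a b => by
  have := R.sum_mem (t := univ) fun j _ => R.mul_mem (h a j) (h' j b)
  simpa only [Matrix.mul_apply, Finset.sum_fn, Pi.mul_apply] using this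

variable [Fintype n] [DecidableEq n] {A B : I → Matrix n n ℂ}

omit [Fintype n] in
theorem one : Mem R fun _ => (1 : Matrix n n ℂ) := fun a b => by
  dsimp only
  rw [Matrix.one_apply]
  split_ifs
  · exact R.one_mem
  · exact R.zero_mem

omit [DecidableEq n] in
theorem trace (h : Mem R A) : (fun i => (A i).trace) ∈ R := by
  have := R.sum_mem (t := univ) fun j _ => h j j
  simpa only [Matrix.trace, Matrix.diag, Finset.sum_fn] using this

theorem det (h : Mem R A) : (fun i => (A i).det) ∈ R := by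
  obtain ⟨G, rfl⟩ := h.lift
  simpa only [RingHom.map_det, RingHom.mapMatrix_apply] using ev_mem G.det

theorem adjugate (h : Mem R A) : Mem R fun i => (A i).adjugate := by
  obtain ⟨G, rfl⟩ := h.lift
  simpa only [← RingHom.mapMatrix_apply, RingHom.map_adjugate] using of_map G.adjugate

theorem pow (h : Mem R A) (k : ℕ) : Mem R fun i => A i ^ k := by
  induction k with
  | zero => simpa using one
  | succ k ih => simpa only [pow_succ] using ih.mul h

theorem aeval_prod {J : Type} (s : Finset J) {p : J → I → ℂ[X]}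
    (h : ∀ j ∈ s, Mem R fun i => aeval (A i) (p j i)) :
    Mem R fun i => aeval (A i) (∏ j ∈ s, p j i) := by
  classical
  induction s using Finset.induction_on with
  | empty => simpa using one
  | insert j s hj ih =>
    simpa only [prod_insert hj, map_mul] using
      (h j (mem_insert_self j s)).mul (ih fun k hk => h k (mem_insert_of_mem hk))

theorem aeval_lin (h : Mem R A) {c : I → ℂ} (hc : c ∈ R) :
    Mem R fun i => aeval (A i) (X - C (c i)) := by
  simpa only [map_sub, aeval_X, aeval_C, Algebra.algebraMap_eq_smul_one] using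
    h.sub (one.smul hc)

end Mem

variable {L : Type} [Field L] {l₁ : ℕ} {S : Sc L l₁ I}

namespace Mem

variable {A B : I → Matrix m n ℂ}

theorem sz (h : Mem S.PB A) : Mem S.SZ A := h.mono fun _ => Sc.sz_of_pb

theorem const (A : Matrix m n ℂ) : Mem S.SZ fun _ => A := fun _ _ => Sc.sz_const _

theorem congr (h : Mem S.PB A) (e : ∀ᶠ i in S.Bg, A i = B i) : Mem S.PB B :=
  fun a b => Sc.pb_congr (h a b) (e.mono fun _ hi => congrFun (congrFun hi a) b)

theorem aut (h : Mem S.PB A) (θ : I → ℂ ≃+* ℂ) : Mem S.PB fun i => (A i).map (θ i) :=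
  fun a b => Sc.pb_aut (h a b) θ

theorem ctr (h : Mem S.PB A) : Mem S.PB fun i => (A i)ᴴ :=
  fun a b => Sc.pb_aut (h b a) fun _ => starRingAut

theorem comap {I' : Type} (π : I' → I) (h : Mem S.PB A) :
    Mem (S.comap π).PB fun j => A (π j) := fun a b => Sc.pb_comap π (h a b)

theorem choice {J : Type} [Finite J] {g : J → I → Matrix m n ℂ} (h : ∀ j, Mem S.PB (g j))
    (j : I → J) : Mem S.PB fun i => g (j i) i :=
  fun a b => Sc.pb_choice (g := fun j i => g j i a b) (fun j => h j a b) j

theorem ite (h : Mem S.PB A) (h' : Mem S.PB B) (p : I → Prop) [DecidablePred p] :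
    Mem S.PB fun i => if p i then A i else B i := fun a b =>
  Sc.pb_congr (Sc.pb_ite (h a b) (h' a b) p) (.of_forall fun i => by
    dsimp only
    split_ifs <;> rfl)

theorem bd (g : I → Matrix m n ℤ) [Finite m] [Finite n] {C : ℕ}
    (h : ∀ᶠ i in S.Bg, ∀ a b, (g i a b).natAbs ≤ S.M i ^ C) :
    Mem S.PB fun i => (g i).map (Int.cast : ℤ → ℂ) :=
  fun a b => Sc.pb_int (fun i => g i a b) (h.mono fun _ hi => hi a b)

theorem gd [Finite m] [Finite n] (h : Mem S.PB A) :
    ∀ᶠ x in S.AE, ∀ a b, Gd x.2.1 (A x.1 a b) := by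
  simp only [eventually_all]
  exact fun a b => Sc.pb_gd (f := fun i => A i a b) (h a b)

variable [Fintype n] [DecidableEq n]

theorem inv {A : I → Matrix n n ℂ} (h : Mem S.PB A) : Mem S.PB fun i => (A i)⁻¹ := by
  simpa only [Matrix.inv_def, Ring.inverse_eq_inv'] using h.adjugate.smul (Sc.pb_inv h.det)

theorem root {A : I → Matrix n n ℂ} (h : Mem S.PB A) {f : I → ℂ}
    (hf : ∀ᶠ i in S.Bg, (A i).charpoly.eval (f i) = 0) : f ∈ S.PB := by
  obtain ⟨G, rfl⟩ := h.lift
  exact Sc.pb_root G.charpoly G.charpoly_monic (hf.mono fun i hi => by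
    rw [← hi, Matrix.charpoly_map]; rfl)

open ComplexOrder in
/-- The unique solution of a linear system. -/
theorem solve [Fintype m] [Fintype o] {A : I → Matrix m n ℂ} {B : I → Matrix o n ℂ}
    {p : Type} {Z : I → Matrix n p ℂ} (hA : Mem S.PB A) (hB : Mem S.PB B)
    (h1 : Mem S.PB fun i => A i * Z i) (h2 : Mem S.PB fun i => B i * Z i)
    (h : ∀ᶠ i in S.Bg, ∀ v, A i *ᵥ v = 0 → B i *ᵥ v = 0 → v = 0) : Mem S.PB Z := by
  refine (((hA.ctr.mul hA).add (hB.ctr.mul hB)).inv.mul
    ((hA.ctr.mul h1).add (hB.ctr.mul h2))).congr (h.mono fun i hi => ?_)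
  have hu : IsUnit ((A i)ᴴ * A i + (B i)ᴴ * B i) := by
    refine mulVec_injective_iff_isUnit.1 fun v w e => sub_eq_zero.1 ?_
    have e1 : ((fromRows (A i) (B i))ᴴ * fromRows (A i) (B i)) *ᵥ (v - w) = 0 := by
      rw [conjTranspose_fromRows_eq_fromCols_conjTranspose, fromCols_mul_fromRows, mulVec_sub,
        sub_eq_zero]
      exact e
    have e2 := (conjTranspose_mul_self_mulVec_eq_zero _ _).1 e1
    rw [fromRows_mulVec] at e2
    exact hi _ (funext fun a => congrFun e2 (.inl a)) (funext fun a => congrFun e2 (.inr a))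
  rw [← Matrix.mul_assoc, ← Matrix.mul_assoc, ← Matrix.add_mul, ← Matrix.mul_assoc,
    nonsing_inv_mul _ ((isUnit_iff_isUnit_det _).1 hu), Matrix.one_mul]

end Mem

end MG.RS
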