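import Pool.Agent.Lib.MP_33b3f9_ag.MG.RS.DqB
import Pool.Agent.Lib.MP_33b3f9_ag.MG.RS.Pm

/-!
A basis of rational points of polynomial height, by averaging over the conjugates.
-/

set_option autoImplicit false

noncomputable section

namespace MG.RS

open Matrix Filter Pool.Agent.M4.Mx

section pure

variable {Y : Type}

/-- A monomial of degree at most `N` in the coordinates. -/
def dqcMon {N : ℕ} (w : Fin N → Option Y) (x : Y → ℂ) : ℂ := ∏ k, (w k).elim 1 x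

theorem dqcMon_map {N : ℕ} (w : Fin N → Option Y) (x : Y → ℂ) (τ : ℂ ≃+* ℂ) :
    τ (dqcMon w x) = dqcMon w fun y => τ (x y) := by
  rw [dqcMon, dqcMon, map_prod]
  refine Finset.prod_congr rfl fun k _ => ?_
  cases w k <;> simp

/-- Interpolation on a finite set of points. -/
theorem dqc_interp [Fintype Y] [DecidableEq Y] {A : Type} [DecidableEq A] {N : ℕ} (O : Finset A)
    (hN : O.card ≤ N) {v : A → Y → ℂ} (hv : Function.Injective v) (x₀ : A) :
    ∃ c : (Fin N → Option Y) → ℂ, ∀ x ∈ O,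
      ∑ w, c w * dqcMon w (v x) = if x = x₀ then 1 else 0 := by
  classical
  have h1 : ∀ x : A, ∃ g : Option Y → ℂ, ∑ o, g o * o.elim 1 (v x₀) = 1 ∧
      (x ≠ x₀ → ∑ o, g o * o.elim 1 (v x) = 0) := fun x => by
    by_cases hx : x = x₀
    · exact ⟨Pi.single none 1, by simp [Fintype.sum_option], fun h => absurd hx h⟩
    obtain ⟨y, hy⟩ := Function.ne_iff.1 (hv.ne hx)
    have h2 : v x₀ y - v x y ≠ 0 := sub_ne_zero.2 hy.symm
    refine ⟨fun o => o.elim (-(v x y) / (v x₀ y - v x y))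
      (Pi.single y (1 / (v x₀ y - v x y))), ?_, fun _ => ?_⟩
    · simp only [Fintype.sum_option, Option.elim, Pi.single_apply, ite_mul, zero_mul,
        Finset.sum_ite_eq', Finset.mem_univ, if_true]
      field_simp
      ring
    · simp only [Fintype.sum_option, Option.elim, Pi.single_apply, ite_mul, zero_mul,
        Finset.sum_ite_eq', Finset.mem_univ, if_true]
      ring
  choose g g1 g2 using h1
  obtain ⟨f, hf⟩ : ∃ f : Fin N → A, ∀ x ∈ O, ∃ k, f k = x := by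
    obtain ⟨j⟩ := Function.Embedding.nonempty_of_card_le (α := O) (β := Fin N) (by simpa using hN)
    exact ⟨Function.extend j Subtype.val fun _ => x₀, fun x hx =>
      ⟨j ⟨x, hx⟩, j.injective.extend_apply _ _ _⟩⟩
  refine ⟨fun w => ∏ k, g (f k) (w k), fun x hx => ?_⟩
  have h3 : ∑ w : Fin N → Option Y, (∏ k, g (f k) (w k)) * dqcMon w (v x) =
      ∏ k, ∑ o, g (f k) o * o.elim 1 (v x) := by
    rw [Finset.prod_univ_sum, Fintype.piFinset_univ]
    exact Finset.sum_congr rfl fun w _ => by rw [dqcMon, ← Finset.prod_mul_distrib]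
  rw [h3]
  split_ifs with h
  · subst h
    exact Finset.prod_eq_one fun k _ => g1 _
  · obtain ⟨k, rfl⟩ := hf x hx
    exact Finset.prod_eq_zero (Finset.mem_univ k) (g2 _ h)

theorem dqc_select {V J K : Type} [AddCommGroup V] [Module ℂ V] (v : J → V)
    (hv : ⊤ ≤ Submodule.span ℂ (Set.range v)) (b : Module.Basis K ℂ V) :
    ∃ j : K → J, LinearIndependent ℂ (v ∘ j) := by
  obtain ⟨κ, a, -, h1, h2⟩ := exists_linearIndependent' ℂ v
  let b' := Module.Basis.mk h2 (h1 ▸ hv)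
  exact ⟨a ∘ b.indexEquiv b', h2.comp _ (b.indexEquiv b').injective⟩

/-- The number of conjugates of a tuple of algebraic numbers. -/
theorem dqc_orbit [Fintype Y] {D : ℕ} {x : Y → ℂ} (h : ∀ y, Dg D (x y)) {A : Type}
    (f : (ℂ ≃+* ℂ) → A) (hf : ∀ ρ ρ', (∀ y, ρ (x y) = ρ' (x y)) → f ρ = f ρ') :
    ∃ O : Finset A, O.card ≤ D ^ Fintype.card Y ∧ ∀ F, F ∈ O ↔ ∃ ρ, f ρ = F := by
  classical
  obtain ⟨K, h1, h2, h3⟩ := exists_field Finset.univ x fun y _ => h y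
  choose th hth using fun σ : K →ₐ[ℚ] ℂ => Pool.Agent.M4.Det.exists_ext K σ.toRingHom
  refine ⟨Finset.univ.image fun σ => f (th σ), Finset.card_image_le.trans
    ((AlgHom.card ℚ K ℂ).le.trans h2), fun F => ⟨fun hF => ?_, ?_⟩⟩
  · obtain ⟨σ, -, rfl⟩ := Finset.mem_image.1 hF
    exact ⟨_, rfl⟩
  · rintro ⟨ρ, rfl⟩
    refine Finset.mem_image.2 ⟨ρ.toRingHom.toRatAlgHom.comp K.val, Finset.mem_univ _,
      hf _ _ fun y => ?_⟩
    exact hth _ ⟨x y, h3 y (Finset.mem_univ y)⟩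

theorem dqc_choice {A B : Type} [Nonempty B] {l : Filter A} {r : A → B → Prop}
    (h : ∀ᶠ x in l, ∃ y, r x y) : ∃ f : A → B, ∀ᶠ x in l, r x (f x) :=
  ⟨fun x => Classical.epsilon (r x), h.mono fun _ hx => Classical.epsilon_spec hx⟩

end pure

variable [Dim] {e : ℕ} {a b : MZ} {m n : ℕ} {z : MorD e a b ℂ} {L : Type} [Field L] {l₁ : ℕ}
  {E : Fin 2 → Fin 2 → Matrix ν ν ℂ} {d : ℕ} {θ : Fin e → Fin d → ℂ ≃+* ℂ}

/-- A left inverse of `lin E`. -/
def dqcCo (E : Fin 2 → Fin 2 → Matrix ν ν ℂ) : Matrix ν ν ℂ →ₗ[ℂ] M2 ℂ where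
  toFun G := of fun p q => ((16 : ℕ) : ℂ)⁻¹ * (∑ r, E r p * G * E q r).trace
  map_add' G H := by
    ext p q
    simp only [of_apply, Matrix.add_apply, Matrix.add_mul, Finset.sum_add_distrib,
      trace_add, mul_add]
  map_smul' c G := by
    ext p q
    simp only [of_apply, Matrix.smul_apply, Matrix.mul_smul, Matrix.smul_mul, ← Finset.smul_sum,
      trace_smul, smul_eq_mul, RingHom.id_apply]
    ring

theorem dqcCo_lin (h : MU z E) (x : M2 ℂ) : dqcCo E (lin E x) = x := by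
  ext p q
  have h1 : ∀ r, single r p (1 : ℂ) * x * single q r 1 = x p q • single r r 1 := fun r => by
    rw [single_mul_mul_single, smul_single]
    simp
  have h2 : ∑ r, E r p * lin E x * E q r = x p q • lin E 1 := by
    rw [← map_smul, ← sum_single_one, Finset.smul_sum, map_sum]
    exact Finset.sum_congr rfl fun r _ => by
      rw [← h1, ← h.mul, ← h.mul, lin_single, lin_single]
  obtain ⟨s, hs⟩ := h.blk
  change ((16 : ℕ) : ℂ)⁻¹ * (∑ r, E r p * lin E x * E q r).trace = _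
  rw [h2, hs, trace_smul, Mor.trace_em,
    Finset.sum_eq_single s (fun t _ ht => by simp [ht]) (by simp), Pi.single_eq_same, trace_one]
  simp only [Fintype.card_sum, Fintype.card_fin, smul_eq_mul]
  push_cast
  ring

/-- The algebra of `F` lies in the conjugate `T`. -/
def DqcIn (E : Fin 2 → Fin 2 → Matrix ν ν ℂ) (θ : Fin e → Fin d → ℂ ≃+* ℂ)
    (F : Fin 2 → Fin 2 → Matrix ν ν ℂ) (T : Fin e × Fin d) : Prop :=
  ∀ x, ∃ y, lin F x = lin (cj (θ T.1 T.2) E) y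

theorem dqc_to (ρ : ℂ ≃+* ℂ) (T₀ T : Fin e × Fin d) :
    To E θ ((θ T₀.1 T₀.2).symm.trans ρ) T₀ T ↔ DqcIn E θ (cj ρ E) T := by
  have h : ∀ y, (lin (cj (θ T₀.1 T₀.2) E) y).map ((θ T₀.1 T₀.2).symm.trans ρ) =
      lin (cj ρ E) (y.map ((θ T₀.1 T₀.2).symm.trans ρ)) := fun y => by
    rw [lin_cj, cj_cj, show (θ T₀.1 T₀.2).trans ((θ T₀.1 T₀.2).symm.trans ρ) = ρ from
      RingEquiv.ext fun t => by simp]
  refine ⟨fun H x => ?_, fun H y => h y ▸ H _⟩
  have := H (x.map ((θ T₀.1 T₀.2).symm.trans ρ).symm)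
  rwa [h, map_symm_map] at this

theorem dqc_uniq (hP : PEL e a b m n) (hE : MU z E) (hT : TT z E θ) {ρ : ℂ ≃+* ℂ}
    {T T' : Fin e × Fin d} (h : DqcIn E θ (cj ρ E) T) (h' : DqcIn E θ (cj ρ E) T') : T = T' := by
  obtain ⟨π, hπ⟩ := To.perm hP hE hT ((θ T.1 T.2).symm.trans ρ)
  rw [(hπ T T').1 ((dqc_to ρ T T').2 h'), ← (hπ T T).1 ((dqc_to ρ T T).2 h)]

theorem DqcIn.to {F : Fin 2 → Fin 2 → Matrix ν ν ℂ} {τ : ℂ ≃+* ℂ} {T T' : Fin e × Fin d}
    (h : DqcIn E θ F T) (hτ : To E θ τ T T') : DqcIn E θ (cj τ F) T' := fun x => by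
  obtain ⟨y, hy⟩ := h (x.map τ.symm)
  rw [lin_cj', hy]
  exact hτ y

theorem dqc_iff (hP : PEL e a b m n) (hE : MU z E) (hT : TT z E θ) (ρ : ℂ ≃+* ℂ) {τ : ℂ ≃+* ℂ}
    {T T' : Fin e × Fin d} (hτ : To E θ τ T T') :
    DqcIn E θ (cj ρ E) T ↔ DqcIn E θ (cj τ (cj ρ E)) T' := by
  refine ⟨fun h => h.to hτ, fun h => ?_⟩
  obtain ⟨π, hπ⟩ := To.perm hP hE hT τ
  obtain ⟨s, t, h1⟩ := hT.cov ρ
  have h2 : DqcIn E θ (cj ρ E) (s, t) := h1
  have h3 := dqc_uniq hP hE hT (ρ := ρ.trans τ) (h2.to ((hπ _ _).2 rfl)) h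
  rw [(hπ _ _).1 hτ] at h3
  exact π.injective h3 ▸ h2

/-- The entries. -/
def dqcEn (F : Fin 2 → Fin 2 → Matrix ν ν ℂ) (y : Fin 2 × Fin 2 × ν × ν) : ℂ :=
  F y.1 y.2.1 y.2.2.1 y.2.2.2

theorem dqcEn_inj : Function.Injective dqcEn := fun F F' h => by
  funext p q
  ext i j
  exact congrFun h (p, q, i, j)

open Classical in
/-- The average over the conjugates `O` that lie in `T`. -/
def dqcG {N : ℕ} (E : Fin 2 → Fin 2 → Matrix ν ν ℂ) (θ : Fin e → Fin d → ℂ ≃+* ℂ)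
    (O : Finset (Fin 2 → Fin 2 → Matrix ν ν ℂ))
    (w : (Fin N → Option (Fin 2 × Fin 2 × ν × ν)) × Fin 2 × Fin 2) (T : Fin e × Fin d) :
    Matrix ν ν ℂ :=
  ∑ F ∈ O, if DqcIn E θ F T then dqcMon w.1 (dqcEn F) • F w.2.1 w.2.2 else 0

/-- The coordinates of the averages. -/
def dqcAv {N : ℕ} (E : Fin 2 → Fin 2 → Matrix ν ν ℂ) (θ : Fin e → Fin d → ℂ ≃+* ℂ)
    (O : Finset (Fin 2 → Fin 2 → Matrix ν ν ℂ))
    (w : (Fin N → Option (Fin 2 × Fin 2 × ν × ν)) × Fin 2 × Fin 2) (s : Fin e) (t : Fin d) :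
    M2 ℂ :=
  dqcCo (cj (θ s t) E) (dqcG E θ O w (s, t))

variable {N : ℕ} {O : Finset (Fin 2 → Fin 2 → Matrix ν ν ℂ)}

theorem dqc_lin (hP : PEL e a b m n) (hE : MU z E)
    (w : (Fin N → Option (Fin 2 × Fin 2 × ν × ν)) × Fin 2 × Fin 2) (T : Fin e × Fin d) :
    lin (cj (θ T.1 T.2) E) (dqcAv E θ O w T.1 T.2) = dqcG E θ O w T := by
  obtain ⟨y, hy⟩ : dqcG E θ O w T ∈ LinearMap.range (lin (cj (θ T.1 T.2) E)) := by
    refine Submodule.sum_mem _ fun F _ => ?_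
    split_ifs with h
    · obtain ⟨y, hy⟩ := h (single w.2.1 w.2.2 1)
      rw [lin_single] at hy
      exact Submodule.smul_mem _ _ ⟨y, hy.symm⟩
    · exact zero_mem _
  rw [dqcAv, ← hy, dqcCo_lin (hE.cj hP _)]

theorem dqc_inv (hP : PEL e a b m n) (hE : MU z E) (hT : TT z E θ)
    (hO : ∀ F, F ∈ O ↔ ∃ ρ, cj ρ E = F)
    (w : (Fin N → Option (Fin 2 × Fin 2 × ν × ν)) × Fin 2 × Fin 2) :
    Inv E θ (dqcAv E θ O w) := fun τ T T' hτ => by
  classical
  rw [dqc_lin hP hE, dqc_lin hP hE, dqcG, dqcG]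
  refine (map_sum τ.toRingHom.mapMatrix _ _).trans
    (Finset.sum_nbij' (cj τ) (cj τ.symm) (fun F hF => ?_) (fun F hF => ?_) (fun F _ => ?_)
      (fun F _ => ?_) fun F hF => ?_)
  · obtain ⟨ρ, rfl⟩ := (hO F).1 hF
    exact (hO _).2 ⟨ρ.trans τ, rfl⟩
  · obtain ⟨ρ, rfl⟩ := (hO F).1 hF
    exact (hO _).2 ⟨ρ.trans τ.symm, rfl⟩
  · exact funext fun p => funext fun q => map_map_symm τ _
  · exact funext fun p => funext fun q => map_symm_map τ _
  · obtain ⟨ρ, rfl⟩ := (hO F).1 hF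
    by_cases h : DqcIn E θ (cj ρ E) T
    · rw [if_pos h, if_pos (h.to hτ)]
      ext i j
      exact (map_mul τ _ _).trans (congrArg (· * _) (dqcMon_map _ _ τ))
    · rw [if_neg h, if_neg (mt (dqc_iff hP hE hT ρ hτ).2 h), map_zero]

theorem dqc_span (hP : PEL e a b m n) (hE : MU z E) (hT : TT z E θ)
    (hO : ∀ F, F ∈ O ↔ ∃ ρ, cj ρ E = F) (hN : O.card ≤ N) (s : Fin e) (t : Fin d)
    (p q : Fin 2) : (Pi.single s (Pi.single t (single p q 1)) : Fin e → Fin d → M2 ℂ) ∈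
      Submodule.span ℂ (Set.range (dqcAv (N := N) E θ O)) := by
  classical
  obtain ⟨c, hc⟩ := dqc_interp O hN dqcEn_inj (cj (θ s t) E)
  have h0 : DqcIn E θ (cj (θ s t) E) (s, t) := fun x => ⟨x, rfl⟩
  have h1 : ∀ T, ∑ w, c w • dqcG E θ O (w, p, q) T =
      if T = (s, t) then cj (θ s t) E p q else 0 := fun T => by
    simp only [dqcG, Finset.smul_sum]
    rw [Finset.sum_comm, Finset.sum_eq_single_of_mem (cj (θ s t) E) ((hO _).2 ⟨_, rfl⟩)
      fun F hF hne => ?_]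
    · by_cases h : T = (s, t)
      · subst h
        simp only [if_pos h0, smul_smul, ← Finset.sum_smul, hc _ ((hO _).2 ⟨_, rfl⟩), if_true,
          one_smul]
      · simp only [if_neg (fun h' => h (dqc_uniq hP hE hT h' h0)), if_neg h, smul_zero,
          Finset.sum_const_zero]
    · split_ifs
      · simp only [smul_smul, ← Finset.sum_smul, hc F hF, if_neg hne, zero_smul]
      · simp only [smul_zero, Finset.sum_const_zero]
  have h2 : (Pi.single s (Pi.single t (single p q 1)) : Fin e → Fin d → M2 ℂ) =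
      ∑ w, c w • dqcAv E θ O (w, p, q) := by
    funext s' t'
    simp only [Finset.sum_apply, Pi.smul_apply, dqcAv, ← map_smul, ← map_sum, h1]
    by_cases h : (s', t') = (s, t)
    · obtain ⟨rfl, rfl⟩ := Prod.mk.inj h
      rw [if_pos rfl, ← lin_single (cj _ E), dqcCo_lin (hE.cj hP _), Pi.single_eq_same,
        Pi.single_eq_same]
    · rw [if_neg h, map_zero]
      by_cases hs : s' = s
      · subst hs
        rw [Pi.single_eq_same, Pi.single_eq_of_ne fun ht => h (by rw [ht])]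
      · rw [Pi.single_eq_of_ne hs, Pi.zero_apply]
  rw [h2]
  exact Submodule.sum_mem _ fun w _ => Submodule.smul_mem _ _ (Submodule.subset_span ⟨_, rfl⟩)

theorem dqc_indep (hP : PEL e a b m n) (hE : MU z E) (hT : TT z E θ)
    (hO : ∀ F, F ∈ O ↔ ∃ ρ, cj ρ E = F) (hN : O.card ≤ N) :
    ∃ j : Fin e × Fin d × Fin 2 × Fin 2 → _,
      LinearIndependent ℂ (dqcAv (N := N) E θ O ∘ j) := by
  obtain ⟨b⟩ : Nonempty (Module.Basis (Fin e × Fin d × Fin 2 × Fin 2) ℂ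
      (Fin e → Fin d → M2 ℂ)) :=
    ⟨(Module.finBasis ℂ _).reindex (Fintype.equivOfCardEq (by
      simp [Module.finrank_pi_fintype, Module.finrank_matrix]))⟩
  refine dqc_select _ (fun x _ => ?_) b
  have hx : x = ∑ s, ∑ t, ∑ p, ∑ q, x s t p q •
      (Pi.single s (Pi.single t (single p q 1)) : Fin e → Fin d → M2 ℂ) := by
    simp only [← Pi.single_smul]
    conv_lhs => rw [← Finset.univ_sum_single x]
    refine Finset.sum_congr rfl fun s _ => ?_
    conv_lhs => rw [← Finset.univ_sum_single (x s)]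
    refine (map_sum (LinearMap.single ℂ (fun _ : Fin e => Fin d → M2 ℂ) s) _ _).trans
      (Finset.sum_congr rfl fun t _ => ?_)
    conv_lhs => rw [matrix_eq_sum_single (x s t)]
    simp only [smul_single, smul_eq_mul, mul_one]
    exact (congrArg _ (map_sum (LinearMap.single ℂ (fun _ : Fin d => M2 ℂ) t) _ _)).trans (by
      simp only [map_sum, LinearMap.coe_single])
  rw [hx]
  exact Submodule.sum_mem _ fun s _ => Submodule.sum_mem _ fun t _ =>
    Submodule.sum_mem _ fun p _ => Submodule.sum_mem _ fun q _ =>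
      Submodule.smul_mem _ _ (dqc_span hP hE hT hO hN s t p q)

theorem dqc_pb {I : Type} {S : Sc L l₁ I} {E : I → Fin 2 → Fin 2 → Matrix ν ν ℂ}
    (hE : ∀ p q, Mem S.PB fun i => E i p q) (θ : I → Fin e → Fin d → ℂ ≃+* ℂ)
    (O : I → Finset (Fin 2 → Fin 2 → Matrix ν ν ℂ))
    (hO : ∀ᶠ i in S.Bg, (O i).card ≤ N ∧ ∀ F, F ∈ O i ↔ ∃ ρ, cj ρ (E i) = F)
    (w : (Fin N → Option (Fin 2 × Fin 2 × ν × ν)) × Fin 2 × Fin 2) (s : Fin e) (t : Fin d) :
    Mem S.PB fun i => dqcAv (E i) (θ i) (O i) w s t := by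
  classical
  have h1 : ∀ p q, Mem (S.comap (Sigma.fst : (Σ i, O i) → I)).PB fun x => x.2.1 p q := by
    have h2 : ∀ᶠ x in (S.comap (Sigma.fst : (Σ i, O i) → I)).Bg, ∃ ρ, cj ρ (E x.1) = x.2.1 :=
      (Sc.bg_comap Sigma.fst hO).mono fun x hx => (hx.2 _).1 x.2.2
    have : Nonempty (ℂ ≃+* ℂ) := ⟨.refl ℂ⟩
    obtain ⟨ρ, hρ⟩ := dqc_choice h2
    exact fun p q => (((hE p q).comap Sigma.fst).aut ρ).congr
      (hρ.mono fun x hx => congrFun (congrFun hx p) q)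
  have h3 : (fun x : Σ i, O i => dqcMon w.1 (dqcEn x.2.1)) ∈ (S.comap Sigma.fst).PB := by
    have := (S.comap (Sigma.fst : (Σ i, O i) → I)).PB.prod_mem (t := Finset.univ)
      (f := fun k x => (w.1 k).elim 1 (dqcEn x.2.1)) fun k _ => by
        cases w.1 k with
        | none => exact one_mem _
        | some y => exact h1 _ _ _ _
    simpa only [dqcMon, Finset.prod_fn] using this
  have h4 : Mem S.PB fun i => dqcG (E i) (θ i) (O i) w (s, t) := fun u v => by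
    refine Sc.pb_congr (Sc.pb_sum (J := fun i => O i) (N := N) (g := fun i F =>
      (if DqcIn (E i) (θ i) F.1 (s, t) then dqcMon w.1 (dqcEn F.1) • F.1 w.2.1 w.2.2 else 0) u v)
      (hO.mono fun i hi => by simpa using hi.1) ((((h1 w.2.1 w.2.2).smul h3).ite Mem.zero
        fun x => DqcIn (E x.1) (θ x.1) x.2.1 (s, t)) u v)) (.of_forall fun i => ?_)
    dsimp only
    rw [dqcG, Matrix.sum_apply, ← Finset.sum_coe_sort (O i)]
  have h5 : ∀ p q, Mem S.PB fun i => cj (θ i s t) (E i) p q := fun p q => (hE p q).aut _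
  exact fun p q => S.PB.mul_mem (Sc.pb_inv (natCast_mem S.PB 16))
    (Mem.sum _ fun r _ => ((h5 r p).mul h4).mul (h5 q r)).trace

theorem exists_basis (hP : PEL e a b m n) {I : Type} (S : Sc L l₁ I)
    (E : I → Fin 2 → Fin 2 → Matrix ν ν ℂ) (hE : ∀ p q, Mem S.PB fun i => E i p q)
    (θ : I → Fin e → Fin d → ℂ ≃+* ℂ) (h : ∀ᶠ i in S.Bg, MU z (E i) ∧ TT z (E i) (θ i)) :
    ∃ B : I → Fin e × Fin d × Fin 2 × Fin 2 → Fin e → Fin d → M2 ℂ,
      (∀ k s t, Mem S.PB fun i => B i k s t) ∧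
      ∀ᶠ i in S.Bg, LinearIndependent ℂ (B i) ∧ ∀ k, Inv (E i) (θ i) (B i k) := by
  obtain ⟨D, C, hD⟩ := Sc.pb_unif (S := S) (g := fun y i => dqcEn (E i) y) fun y => hE _ _ _ _
  obtain ⟨O, hO⟩ := dqc_choice (hD.mono fun i hi => dqc_orbit (fun y => (hi y).dg)
    (fun ρ => cj ρ (E i)) fun ρ ρ' hρ => dqcEn_inj (funext hρ))
  obtain ⟨j, hj⟩ := dqc_choice ((h.and hO).mono fun i hi =>
    dqc_indep hP hi.1.1 hi.1.2 hi.2.2 hi.2.1)
  refine ⟨fun i k => dqcAv (E i) (θ i) (O i) (j i k), fun k s t =>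
    Mem.choice (fun w => dqc_pb hE θ O hO w s t) fun i => j i k, ?_⟩
  filter_upwards [h, hO, hj] with i h1 h2 h3
  exact ⟨h3, fun k => dqc_inv hP h1.1 h1.2 h2.2 _⟩

end MG.RS
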