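import Pool.Agent.Lib.MP_33b3f9_ag.MG.RS.DqA
import Pool.Agent.Lib.MP_33b3f9_ag.MG.RS.DqB

/-!
The reduction of the rational slot algebra at a good prime.
-/

set_option autoImplicit false

noncomputable section

namespace MG.RS

open Matrix Filter Pool.Agent.M4.Mx

section gal

variable {l : ℕ} [Fact l.Prime] (σ : PadicAlgCl l ≃ₐ[ℚ_[l]] PadicAlgCl l)

theorem norm_gal (x : PadicAlgCl l) : ‖σ x‖ = ‖x‖ := (spectralNorm_eq_of_equiv σ x).symm

/-- The action of the decomposition group on the integers. -/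
def gO : OO l →+* OO l :=
  ((σ : PadicAlgCl l →+* PadicAlgCl l).comp (OO l).subtype).codRestrict (OO l) fun x =>
    mem_OO.2 ((norm_gal σ x).trans_le (OO_le x))

theorem gO_coe (x : OO l) : (gO σ x : PadicAlgCl l) = σ x := rfl

theorem gO_local : IsLocalHom (gO σ) := ⟨fun x h => by
  rw [isUnit_OO] at h ⊢
  rwa [gO_coe, norm_gal] at h⟩

/-- The action of the decomposition group on the residue field. -/
def gk : kk l →+* kk l :=
  haveI := gO_local σ
  IsLocalRing.ResidueField.map (gO σ)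

theorem gk_rd (x : OO l) : gk σ (rd l x) = rd l (gO σ x) := rfl

theorem gk_zk : (gk σ).comp (zk l) = zk l := RingHom.ext_zmod _ _

/-- The automorphism of the complex numbers given by `σ` and a place. -/
def gC (φ : ℂ ≃+* PadicAlgCl l) : ℂ ≃+* ℂ := (φ.trans σ.toRingEquiv).trans φ.symm

theorem phi_gC (φ : ℂ ≃+* PadicAlgCl l) (x : ℂ) : φ (gC σ φ x) = σ (φ x) :=
  φ.apply_symm_apply _

theorem Rd.gal {o o' : Type} {φ : ℂ ≃+* PadicAlgCl l} {A : Matrix o o' ℂ} {B : Matrix o o' (kk l)}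
    (h : Rd φ A B) : Rd φ (A.map (gC σ φ)) (B.map (gk σ)) := by
  obtain ⟨G, rfl, rfl⟩ := h
  refine ⟨G.map (gO σ), ?_, ?_⟩
  · ext p q
    refine φ.injective ?_
    simp only [map_apply, phi_up, phi_gC, gO_coe]
  · ext p q
    simp only [map_apply, gk_rd]

/-- A matrix fixed by the decomposition group reduces into the prime field. -/
theorem Rd.rat {o o' : Type} {φ : ℂ ≃+* PadicAlgCl l} {A : Matrix o o' ℂ} {B : Matrix o o' (kk l)}
    (h : Rd φ A B) (hA : ∀ σ, A.map (gC σ φ) = A) :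
    ∃ B₀ : Matrix o o' (ZMod l), B₀.map (zk l) = B := by
  obtain ⟨G, rfl, rfl⟩ := h
  have h1 : ∀ p q, ∃ g : ℤ_[l], zO l g = G p q := fun p q => by
    obtain ⟨r, hr⟩ := (InfiniteGalois.mem_range_algebraMap_iff_fixed
      (k := ℚ_[l]) (G p q : PadicAlgCl l)).2 fun σ => by
        have h2 := congrArg φ (congrFun (congrFun (hA σ) p) q)
        simpa only [map_apply, phi_up, phi_gC] using h2
    refine ⟨⟨r, ?_⟩, Subtype.ext hr⟩
    rw [← PadicAlgCl.norm_extends l r]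
    exact hr.symm ▸ OO_le (G p q)
  choose g hg using h1
  refine ⟨(Matrix.of g).map PadicInt.toZMod, ?_⟩
  ext p q
  simp only [map_apply, of_apply, zk_toZMod, hg]

theorem Rd.zsmul {o o' : Type} {φ : ℂ ≃+* PadicAlgCl l} {A : Matrix o o' ℂ}
    {B : Matrix o o' (kk l)} (h : Rd φ A B) (c : ℤ) : Rd φ (c • A) (c • B) := by
  have h1 := h.smul (c : OO l)
  rwa [map_intCast, map_intCast, Int.cast_smul_eq_zsmul, Int.cast_smul_eq_zsmul] at h1

end gal

theorem prod_u {R : Type} [CommRing R] (f : Fr ω R) {d : ℕ} (i : Fin d ↪ Fin 3)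
    (y : Fin d → M2 R) :
    (List.ofFn fun t => f.u (i t) (y t)).prod = f.T (Function.extend i y 1) := by
  have h1 : ∀ l : List (Fin d), (l.map fun t => f.u (i t) (y t)).prod =
      f.T (l.map fun t => Function.update (1 : Fin 3 → M2 R) (i t) (y t)).prod := fun l => by
    induction l with
    | nil => exact f.T_one.symm
    | cons t l ih => rw [List.map_cons, List.map_cons, List.prod_cons, List.prod_cons, ih,
        Fr.u_apply, f.T_mul]
  rw [List.ofFn_eq_map, h1]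
  congr 1
  funext j
  rw [Pi.list_prod_apply, List.map_map]
  by_cases hj : ∃ t, i t = j
  · obtain ⟨t, rfl⟩ := hj
    rw [i.injective.extend_apply, List.prod_map_eq_pow_single t _ fun t' ht _ =>
      Function.update_of_ne (fun c => ht (i.injective c).symm) _ _,
      List.count_eq_one_of_mem (List.nodup_finRange d) (List.mem_finRange t), pow_one]
    exact Function.update_self _ _ _
  · rw [Function.extend_apply' _ _ _ hj]
    refine List.prod_eq_one fun w hw => ?_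
    obtain ⟨t, -, rfl⟩ := List.mem_map.1 hw
    exact Function.update_of_ne (fun c => hj ⟨t, c.symm⟩) _ _

variable [Dim] {e : ℕ} {a b : MZ} {m n : ℕ} {z : MorD e a b ℂ} {L : Type} [Field L] {l₁ : ℕ}
  {F : Frs e a b L l₁} {E : Fin 2 → Fin 2 → Matrix ν ν ℂ} {d : ℕ} {θ : Fin e → Fin d → ℂ ≃+* ℂ}
  {ψ : Fin e → Fin d → M2 ℂ →ₐ[ℂ] M8 ℂ} {x y : Fin e → Fin d → M2 ℂ}

theorem Fk_gal (F : Frs e a b L l₁) (l : GP L l₁) (σ : PadicAlgCl l.1 ≃ₐ[ℚ_[l.1]] PadicAlgCl l.1) :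
    (Fk F l).map (gk σ) = Fk F l := by
  rw [Fk_eq]
  exact congrArg (F.red l).map (gk_zk σ)

theorem rd_lin {l : ℕ} [Fact l.Prime] {φ : ℂ ≃+* PadicAlgCl l} {G : Fm e a b (kk l)} {s : Fin e}
    {i : Fin 3} {u : M2 (kk l) ≃ₐ[kk l] M2 (kk l)}
    (h : ∀ p q, Rd φ (E p q) (U G s i (u (single p q 1)))) (x : M2 (OO l)) :
    Rd φ (lin E (x.map (up φ))) (U G s i (u (x.map (rd l)))) :=
  lin_comp (U G s i ∘ₗ u.toLinearMap) (x.map (rd l)) ▸ Rd.lin h x

theorem rd_one {l : ℕ} [Fact l.Prime] {φ : ℂ ≃+* PadicAlgCl l} {G : Fm e a b (kk l)} {s : Fin e}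
    {i : Fin 3} {u : M2 (kk l) ≃ₐ[kk l] M2 (kk l)}
    (h : ∀ p q, Rd φ (E p q) (U G s i (u (single p q 1)))) :
    Rd φ (lin E 1) (G.z.em (Pi.single s 1)) := by
  have h1 := rd_lin h 1
  rwa [Matrix.map_one _ (map_zero _) (map_one _), Matrix.map_one _ (map_zero _) (map_one _),
    map_one u, U_one] at h1

theorem IsPsi.comm_ne (hψ : IsPsi z E θ ψ) (hT : TT z E θ) {T T' : Fin e × Fin d} (h : T ≠ T')
    (x y : M2 ℂ) : Commute (lin (cj (θ T.1 T.2) E) x) (lin (cj (θ T'.1 T'.2) E) y) := by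
  obtain ⟨s, t⟩ := T
  obtain ⟨s', t'⟩ := T'
  by_cases hs : s = s'
  · subst hs
    exact hT.comm s t t' (fun c => h (by rw [c])) x y
  · rw [hψ, hψ]
    exact (em_single_ne _ hs _ _).trans (em_single_ne _ (Ne.symm hs) _ _).symm

/-- The slots of the conjugates. -/
theorem exists_slots (hT : TT z E θ) {l : GP L l₁} (hr : Red F l E)
    (φ : ℂ ≃+* PadicAlgCl l.1) :
    ∃ (σ : Equiv.Perm (Fin e)) (i : Fin e → Fin d ↪ Fin 3)
      (u : Fin e → Fin d → M2 (kk l.1) ≃ₐ[kk l.1] M2 (kk l.1)),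
      (∀ s, Rd φ (z.em (Pi.single s 1)) ((Fk F l).z.em (Pi.single (σ s) 1))) ∧
      ∀ s t p q, Rd φ (cj (θ s t) E p q) (U (Fk F l) (σ s) (i s t) (u s t (single p q 1))) := by
  choose sg i u h using fun s t => hr.cj (θ s t) φ
  obtain ⟨-, t₀, -⟩ := hT.cov (RingEquiv.refl ℂ)
  have h1 : ∀ s t, Rd φ (z.em (Pi.single s 1)) ((Fk F l).z.em (Pi.single (sg s t) 1)) :=
    fun s t => hT.blk s t ▸ rd_one (h s t)
  have h2 : ∀ s t, sg s t = sg s t₀ := fun s t => em_one_inj _ ((h1 s t).unique (h1 s t₀))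
  have h3 : Function.Injective fun s => sg s t₀ := fun s s' c => by
    by_contra hs
    have h4 := (h1 s t₀).mul (h1 s' t₀)
    have c' : sg s t₀ = sg s' t₀ := c
    rw [em_single_ne _ hs, ← c', em_single_mul, Matrix.mul_one] at h4
    have h5 := h4.unique Rd.zero
    rw [← map_zero (Fk F l).z.em, ← Pi.single_zero (sg s t₀)] at h5
    exact one_ne_zero (em_single_inj _ _ h5)
  have h6 : ∀ s, Function.Injective (i s) := fun s t t' c => by
    by_contra ht
    refine not_comm (Fk F l) (sg s t) (i s t) (u s t) (u s t').toRingEquiv.toRingHom (h s t)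
      (fun p q => ?_) (hT.comm s t t' ht)
    rw [h2 s t, ← h2 s t', c]
    exact h s t' p q
  refine ⟨Equiv.ofBijective _ (Finite.injective_iff_bijective.1 h3), fun s => ⟨i s, h6 s⟩, u,
    fun s => h1 s t₀, fun s t p q => ?_⟩
  have h7 := h s t p q
  rwa [h2 s t] at h7

/-- The decomposition group fixes every conjugate. -/
theorem to_self (hP : PEL e a b m n) (hE : MU z E) (hT : TT z E θ) (hψ : IsPsi z E θ ψ)
    {l : GP L l₁} {φ : ℂ ≃+* PadicAlgCl l.1} (T : Fin e × Fin d) {s : Fin e} {i : Fin 3}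
    {u : M2 (kk l.1) ≃ₐ[kk l.1] M2 (kk l.1)}
    (h : ∀ p q, Rd φ (cj (θ T.1 T.2) E p q) (U (Fk F l) s i (u (single p q 1))))
    (σ : PadicAlgCl l.1 ≃ₐ[ℚ_[l.1]] PadicAlgCl l.1) : To E θ (gC σ φ) T T := by
  obtain ⟨π, hπ⟩ := To.perm hP hE hT (gC σ φ)
  by_cases hc : T = π T
  · exact (hπ T T).2 hc
  refine absurd (fun x y => ?_) (not_comm (E' := cj (gC σ φ) (cj (θ T.1 T.2) E)) (Fk F l) s i u
    ((gk σ).mapMatrix.comp u.toRingEquiv.toRingHom) h fun p q => ?_)
  · obtain ⟨y', hy⟩ := (hπ T (π T)).2 rfl (y.map (gC σ φ).symm)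
    rw [lin_cj' (gC σ φ), hy]
    exact hψ.comm_ne hT hc x y'
  · have h1 := (h p q).gal σ
    rwa [U_map, Fk_gal] at h1

theorem rd_prod {l : ℕ} [Fact l.Prime] {φ : ℂ ≃+* PadicAlgCl l} {G : Mor e a b (kk l)}
    {w : Mor e a b ℂ} {s s' : Fin e} {α : Type} {f : α → M8 ℂ} {g : α → M8 (kk l)}
    (h1 : Rd φ (w.em (Pi.single s 1)) (G.em (Pi.single s' 1)))
    (h : ∀ t, Rd φ (w.em (Pi.single s (f t))) (G.em (Pi.single s' (g t)))) (l : List α) :
    Rd φ (w.em (Pi.single s (l.map f).prod)) (G.em (Pi.single s' (l.map g).prod)) := by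
  induction l with
  | nil => exact h1
  | cons t l ih =>
    rw [List.map_cons, List.map_cons, List.prod_cons, List.prod_cons, ← em_single_mul,
      ← em_single_mul]
    exact (h t).mul ih

theorem red_of (hP : PEL e a b m n) (hE : MU z E) (hT : TT z E θ) (hψ : IsPsi z E θ ψ)
    {l : GP L l₁} (hr : Red F l E) {K : Type} [Fintype K] (B : K → Fin e → Fin d → M2 ℂ)
    (hB : ∀ k, Inv E θ (B k))
    (hi : ∀ (φ : ℂ ≃+* PadicAlgCl l.1) k s t p q, ‖φ (B k s t p q)‖ ≤ 1) (c₀ : ℕ)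
    (Nm : (K → ℤ) → MZ) (hN : ∀ c, zM ℂ (Nm c) = (c₀ : ℂ) • nrm z ψ (∑ j, c j • B j)) :
    ∃ (i : Fin e → Fin d ↪ Fin 3) (ρ : (K → ℤ) →+ Fin e → Fin d → M2 (ZMod l.1)),
      ∀ c, zM (ZMod l.1) (Nm c) =
        (c₀ : ZMod l.1) • (F.red l).T fun s => Function.extend (i s) (ρ c s) 1 := by
  obtain ⟨φ⟩ := Pool.Agent.M4.Det.nonempty_equiv l.1
  obtain ⟨σ, i, u, h1, h2⟩ := exists_slots hT hr φ
  have h3 : ∀ k s t, ∃ r : M2 (ZMod l.1), Rd φ (lin (cj (θ s t) E) (B k s t))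
      (U (Fk F l) (σ s) (i s t) (r.map (zk l.1))) := fun k s t => by
    obtain ⟨_, X, hX, rfl⟩ := Rd.of_le (hi φ k s t)
    have h4 := rd_lin (h2 s t) X
    rw [hX] at h4
    obtain ⟨B₀, hB₀⟩ := h4.rat fun g =>
      hB k _ (s, t) (s, t) (to_self hP hE hT hψ (s, t) (h2 s t) g)
    refine ⟨uv ((F.red l).f (σ s)) (i s t) ((F.red l).z.pr B₀ (σ s)), ?_⟩
    have h5 := uv_U (Fk F l) (σ s) (i s t) (u s t (X.map (rd l.1)))
    rw [uv_map, Mor.map_pr, hB₀]
    have h6 : uv (((F.red l).f (σ s)).map (zk l.1)) (i s t) (((F.red l).z.toMor.map (zk l.1)).pr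
        (U (Fk F l) (σ s) (i s t) (u s t (X.map (rd l.1)))) (σ s)) = u s t (X.map (rd l.1)) := by
      rw [Fk_eq] at h5 ⊢
      exact h5
    rw [h6]
    exact h4
  choose r hr' using h3
  refine ⟨fun s => i (σ.symm s), AddMonoidHom.mk' (fun c s t => ∑ k, c k • r k (σ.symm s) t)
    fun c c' => ?_, fun c => ?_⟩
  · funext s t
    simp only [Pi.add_apply, add_smul, Finset.sum_add_distrib]
  have h7 : ∀ s t, Rd φ (z.em (Pi.single s (ψ s t ((∑ j, c j • B j) s t))))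
      ((Fk F l).z.em (Pi.single (σ s) (((Fk F l).f (σ s)).u (i s t)
        ((∑ k, c k • r k s t).map (zk l.1))))) := fun s t => by
    rw [← hψ, ← U_apply, ← RingHom.mapMatrix_apply]
    simp only [Finset.sum_apply, Pi.smul_apply, map_sum, map_zsmul]
    exact Rd.sum _ fun k _ => (hr' k s t).zsmul _
  have h8 := Rd.sum Finset.univ fun s _ => rd_prod (h1 s) (h7 s) (List.finRange d)
  simp only [← List.ofFn_eq_map, prod_u] at h8
  rw [← map_sum, Finset.univ_sum_single] at h8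
  have h9 := (h8.smul (c₀ : OO l.1))
  rw [map_natCast, map_natCast] at h9
  have h10 := (Rd.int (φ := φ) (Nm c)).unique ((hN c).symm ▸ h9)
  refine Matrix.map_injective (zk l.1).injective ?_
  change (zM _ _).map (zk l.1) = Matrix.map _ (zk l.1)
  rw [zM_map, Nat.cast_smul_eq_nsmul, ← RingHom.mapMatrix_apply, map_nsmul,
    RingHom.mapMatrix_apply, Fm.map_T, ← Fk_eq]
  refine h10.trans ?_
  rw [Nat.cast_smul_eq_nsmul, Fm.T, ← Finset.univ_sum_single (fun s => ((Fk F l).f s).T _),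
    map_sum]
  refine congrArg _ (Fintype.sum_equiv σ _ _ fun s => congrArg _ (congrArg _ (congrArg _ ?_)))
  funext j
  simp only [AddMonoidHom.mk'_apply, Equiv.symm_apply_apply]
  rw [Function.apply_extend (fun w : M2 (ZMod l.1) => w.map (zk l.1))]
  congr 1
  funext _
  exact (Matrix.map_one _ (map_zero _) (map_one _)).symm

end MG.RS
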