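import Pool.Agent.Lib.MP_33b3f9_ag.MG.RS.DqA
import Pool.Agent.Lib.MP_33b3f9_ag.MG.RS.DqB
import Pool.Agent.Lib.MP_33b3f9_ag.MG.RS.DqC
import Pool.Agent.Lib.MP_33b3f9_ag.MG.RS.DqD

/-!
The rational slot algebra of a family of matrix units.
-/

set_option autoImplicit false

noncomputable section

namespace MG.RS

open Matrix Filter Pool.Agent.M4.Mx

theorem int_of_fixed {α : ℂ} (h : IsIntegral ℤ α) (hf : ∀ τ : ℂ ≃+* ℂ, τ α = α) :
    ∃ n : ℤ, (n : ℂ) = α := by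
  have h1 : IsAlgebraic ℚ α := (h.tower_top (A := ℚ)).isAlgebraic
  have h2 := Pool.Agent.M4.Det.mem_of_fixed (⊥ : IntermediateField ℚ ℂ) h1
    fun σ => hf σ.toRingEquiv
  obtain ⟨q, rfl⟩ := IntermediateField.mem_bot.1 h2
  obtain ⟨n, hn⟩ := IsIntegrallyClosed.isIntegral_iff.1
    ((isIntegral_algebraMap_iff (algebraMap ℚ ℂ).injective).1 h)
  exact ⟨n, by rw [← hn]; simp⟩

section coord

variable {e d : ℕ}

/-- The index set of the coordinates. -/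
abbrev KK (e d : ℕ) : Type := Fin e × Fin d × Fin 2 × Fin 2

/-- The coordinates. -/
def co (x : Fin e → Fin d → M2 ℂ) (j : KK e d) : ℂ := x j.1 j.2.1 j.2.2.1 j.2.2.2

/-- The matrix of a family. -/
def mt (B : KK e d → Fin e → Fin d → M2 ℂ) : Matrix (KK e d) (KK e d) ℂ :=
  of fun j k => co (B k) j

/-- The coordinates with respect to a family. -/
def rp (B : KK e d → Fin e → Fin d → M2 ℂ) (x : Fin e → Fin d → M2 ℂ) (k : KK e d) : ℂ :=
  ∑ j, (mt B)⁻¹ k j * co x j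

theorem co_sum (B : KK e d → Fin e → Fin d → M2 ℂ) (c : KK e d → ℂ) :
    co (∑ k, c k • B k) = mt B *ᵥ c := by
  funext j
  simp [co, mt, mulVec, dotProduct, Finset.sum_apply, Matrix.sum_apply, mul_comm]

theorem repr_eq (B : Module.Basis (KK e d) ℂ (Fin e → Fin d → M2 ℂ)) (x : Fin e → Fin d → M2 ℂ)
    (k : KK e d) : B.repr x k = rp B x k := by
  have hu : IsUnit (mt B) := by
    refine mulVec_injective_iff_isUnit.1 fun v w h => ?_
    rw [← co_sum, ← co_sum] at h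
    have h1 : ∑ k, v k • B k = ∑ k, w k • B k := by
      funext s t
      ext p q
      exact congrFun h (s, t, p, q)
    rw [← B.equivFun_symm_apply, ← B.equivFun_symm_apply] at h1
    exact B.equivFun.symm.injective h1
  have h2 : co x = mt B *ᵥ B.repr x := by rw [← co_sum, B.sum_repr]
  change _ = ((mt B)⁻¹ *ᵥ co x) k
  rw [h2, mulVec_mulVec, nonsing_inv_mul _ ((isUnit_iff_isUnit_det _).1 hu), one_mulVec]

theorem rp_mem {I : Type} {R : Subring (I → ℂ)} {B : I → KK e d → Fin e → Fin d → M2 ℂ}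
    {x : I → Fin e → Fin d → M2 ℂ} (hB : Mem R fun i => (mt (B i))⁻¹)
    (hx : ∀ s t, Mem R fun i => x i s t) (k : KK e d) : (fun i => rp (B i) (x i) k) ∈ R := by
  have := R.sum_mem (t := Finset.univ) fun j _ =>
    R.mul_mem (hB k j) (hx j.1 j.2.1 j.2.2.1 j.2.2.2)
  simpa only [rp, co, Finset.sum_fn, Pi.mul_apply] using this

theorem card_KK : Fintype.card (KK e d) = Module.finrank ℂ (Fin e → Fin d → M2 ℂ) := by
  simp [Module.finrank_pi_fintype, Module.finrank_matrix]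

end coord

variable [Dim] {e : ℕ} {a b : MZ} {m n : ℕ} {L : Type} [Field L] {l₁ : ℕ}

/-- The matrices whose entries are algebraic integers. -/
def IM : Subring (Matrix ν ν ℂ) := (algebraMap (integralClosure ℤ ℂ) ℂ).mapMatrix.range

theorem mem_IM {g : Matrix ν ν ℂ} : g ∈ IM ↔ ∀ i j, IsIntegral ℤ (g i j) :=
  ⟨fun ⟨G, h⟩ i j => h ▸ (G i j).2, fun h => ⟨fun i j => ⟨g i j, h i j⟩, rfl⟩⟩

theorem prod_IM (z : Mor e a b ℂ) (s : Fin e) (c : ℂ) (l : List (M8 ℂ)) (y : M8 ℂ)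
    (h : ∀ x ∈ y :: l, c • z.em (Pi.single s x) ∈ IM) :
    c ^ (l.length + 1) • z.em (Pi.single s (y :: l).prod) ∈ IM := by
  induction l generalizing y with
  | nil => simpa using h
  | cons w l ih =>
    rw [List.prod_cons, ← em_single_mul, List.length_cons, pow_succ', ← smul_mul_smul_comm]
    exact mul_mem (h y (by simp)) (ih w fun x hx => h x (List.mem_cons_of_mem _ hx))

theorem nrm_IM {z : MorD e a b ℂ} {d : ℕ} (h1 : 1 ≤ d) (h3 : d ≤ 3)
    {ψ : Fin e → Fin d → M2 ℂ →ₐ[ℂ] M8 ℂ} {x : Fin e → Fin d → M2 ℂ} {c : ℕ}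
    (h : ∀ s t, (c : ℂ) • z.em (Pi.single s (ψ s t (x s t))) ∈ IM) :
    ((c ^ 3 : ℕ) : ℂ) • nrm z ψ x ∈ IM := by
  obtain ⟨d, rfl⟩ : ∃ k, d = k + 1 := ⟨d - 1, by omega⟩
  rw [nrm, ← Finset.univ_sum_single fun s => (List.ofFn fun t => ψ s t (x s t)).prod, map_sum,
    Finset.smul_sum]
  refine sum_mem fun s _ => ?_
  have h2 := prod_IM z.toMor s c (List.ofFn fun t : Fin d => ψ s t.succ (x s t.succ))
    (ψ s 0 (x s 0)) fun y hy => by
      rw [← List.ofFn_succ (f := fun t => ψ s t (x s t)), List.mem_ofFn] at hy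
      obtain ⟨t, rfl⟩ := hy
      exact h s t
  rw [← List.ofFn_succ (f := fun t => ψ s t (x s t)), List.length_ofFn] at h2
  rw [show c ^ 3 = c ^ (2 - d) * c ^ (d + 1) by rw [← pow_add]; congr 1; omega, Nat.cast_mul,
    mul_smul, Nat.cast_smul_eq_nsmul, Nat.cast_pow]
  exact nsmul_mem h2 _

theorem exists_SA (hP : PEL e a b m n) {z : MorD e a b ℂ} {F : Frs e a b L l₁}
    {E : Fin 2 → Fin 2 → Matrix ν ν ℂ} {d : ℕ} (h1 : 1 ≤ d) (h3 : d ≤ 3)
    {θ : Fin e → Fin d → ℂ ≃+* ℂ} (hE : MU z E) (hT : TT z E θ)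
    {B : KK e d → Fin e → Fin d → M2 ℂ} (hB : LinearIndependent ℂ B) (hI : ∀ k, Inv E θ (B k))
    {H c : ℕ} (c0 : 0 < c) (cH : c ^ 3 ≤ H)
    (s1 : ∀ s t p q i j, ‖z.pr (cj (θ s t) E p q) s i j‖ ≤ H) (s2 : ∀ k s t p q, ‖B k s t p q‖ ≤ H)
    (s3 : ∀ k s t p q, ‖rp B (Pi.single s (Pi.single t (single p q 1))) k‖ ≤ H)
    (i1 : ∀ k k' j, IsIntegral ℤ (c * rp B (B k * B k') j))
    (i2 : ∀ k s t i j, IsIntegral ℤ (c * lin (cj (θ s t) E) (B k s t) i j))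
    {LM : Finset (GP L l₁)} (hl : ∀ l ∈ LM, ¬ l.1 ∣ c ∧ Red F l E ∧
      ∀ k s t p q, Gd l.1 (B k s t p q)) : Nonempty (SA z F LM H) := by
  obtain ⟨ψ, hψ⟩ := exists_psi hP hE hT
  obtain ⟨s0, -⟩ := hE.blk
  have : Nonempty (KK e d) := ⟨s0, ⟨0, h1⟩, 0, 0⟩
  obtain ⟨B, rfl⟩ : ∃ B' : Module.Basis (KK e d) ℂ (Fin e → Fin d → M2 ℂ), ⇑B' = B :=
    ⟨_, coe_basisOfLinearIndependentOfCardEqFinrank hB card_KK⟩
  have hN : ∀ v : KK e d → ℤ, ∃ g : MZ,
      zM ℂ g = ((c ^ 3 : ℕ) : ℂ) • nrm z ψ (∑ j, v j • B j) := fun v => by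
    have a1 := mem_IM.1 (nrm_IM (z := z) h1 h3 (ψ := ψ) (x := ∑ j, v j • B j) (c := c)
      fun s t => by
        rw [← hψ, Finset.sum_apply, Finset.sum_apply, map_sum, Finset.smul_sum]
        refine sum_mem fun k _ => ?_
        rw [Pi.smul_apply, Pi.smul_apply, map_zsmul, smul_comm]
        exact zsmul_mem (mem_IM.2 (i2 k s t)) _)
    choose g hg using fun i j => int_of_fixed (a1 i j) fun τ => by
      have := congrFun (congrFun (Inv.nrm hP hE hT hψ (Inv.sum hI v) τ) i) j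
      rw [Matrix.smul_apply, smul_eq_mul, map_mul, map_natCast]
      exact congrArg _ this
    exact ⟨of g, by ext i j; exact hg i j⟩
  choose Nm hN using hN
  refine ⟨{ d := d, ψ := ψ, B := B, m := c ^ 3, Nm := Nm, d1 := h1, d3 := h3
            comm := fun s t t' x y h => hψ.comm hT s t t' x y h
            adj := hψ.adj hP hE, ψ_le := fun s t p q i j => ?_, B_le := s2
            repr_le := fun k s t p q => repr_eq B _ k ▸ s3 k s t p q
            m0 := by positivity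
            m_le := cH, mul := fun k k' => ?_, zero := fun v s t h => ?_
            sing := fun v s t s' t' h => (Inv.sum hI v).sing hP hE h s' t'
            nm := hN, red := fun l h => ⟨fun hc => (hl l h).1 (l.2.1.dvd_of_dvd_pow hc), ?_⟩ }⟩
  · have := s1 s t p q i j
    rwa [← lin_single (cj (θ s t) E), hψ, Mor.pr_em, Pi.single_eq_same] at this
  · choose v hv using fun j => int_of_fixed (i1 k k' j) fun τ => by
      rw [map_mul, map_natCast, ← repr_eq, Inv.repr hP hE hT B hI ((hI k).mul hP hE (hI k'))]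
    refine ⟨fun j => c ^ 2 * v j, ?_⟩
    conv_lhs => rw [← B.sum_repr (B k * B k'), Finset.smul_sum]
    refine Finset.sum_congr rfl fun j _ => ?_
    rw [← Int.cast_smul_eq_zsmul ℂ, smul_smul, repr_eq]
    push_cast
    rw [hv]
    congr 1
    ring
  · have h0 := (Inv.sum hI v).zero hP hE h
    simp only [← Int.cast_smul_eq_zsmul ℂ] at h0
    funext j
    exact_mod_cast Fintype.linearIndependent_iff.1 hB _ h0 j
  · exact red_of hP hE hT hψ (hl l h).2.1 B hI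
      (fun φ k s t p q => ((hl l h).2.2 k s t p q φ).1) _ Nm hN

theorem dq_fix (hP : PEL e a b m n) (z : MorD e a b ℂ) (F : Frs e a b L l₁) {I : Type}
    (S : Sc L l₁ I) (E : I → Fin 2 → Fin 2 → Matrix ν ν ℂ)
    (hE : ∀ p q, Mem S.PB fun i => E i p q) {d : ℕ} (d1 : 1 ≤ d) (d3 : d ≤ 3)
    (θ : I → Fin e → Fin d → ℂ ≃+* ℂ) (h1 : ∀ i, MU z (E i) ∧ TT z (E i) (θ i))
    (h2 : ∀ᶠ x in S.AE, Red F x.2 (E x.1)) :
    ∃ C : ℕ, ∀ᶠ i in S.Bg, ∀ C', C ≤ C' → ∃ N : ℕ, 0 < N ∧ N ≤ S.M i ^ C' ∧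
      Nonempty (SA z F ((S.LY i).filter fun l => ¬ l.1 ∣ N) (S.M i ^ C')) := by
  obtain ⟨B, hB, hB'⟩ := exists_basis hP S E hE θ (.of_forall h1)
  have m1 : Mem S.PB fun i => (mt (B i))⁻¹ :=
    Mem.inv fun j k => hB k j.1 j.2.1 j.2.2.1 j.2.2.2
  have m2 : ∀ s t p q, Mem S.PB fun i => cj (θ i s t) (E i) p q :=
    fun s t p q => (hE p q).aut fun i => θ i s t
  have m3 : ∀ k s t, Mem S.PB fun i => lin (cj (θ i s t) (E i)) (B i k s t) := fun k s t =>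
    Mem.sum Finset.univ fun p _ => Mem.sum Finset.univ fun q _ => (m2 s t p q).smul (hB k s t p q)
  have m4 : ∀ (x : Fin e → Fin d → M2 ℂ) k, (fun i => rp (B i) x k) ∈ S.SZ := fun x k =>
    rp_mem (x := fun _ => x) m1.sz (fun s t => Mem.const (x s t)) k
  have m5 : ∀ k k' j, (fun i => rp (B i) (B i k * B i k') j) ∈ S.PB := fun k k' j =>
    rp_mem (x := fun i => B i k * B i k') m1 (fun s t => (hB k s t).mul (hB k' s t)) j
  obtain ⟨C1, c1⟩ := Sc.sz_unif (S := S) (J := KK e d × ω × ω) (g := fun j i =>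
    z.pr (cj (θ i j.1.1 j.1.2.1) (E i) j.1.2.2.1 j.1.2.2.2) j.1.1 j.2.1 j.2.2) fun j =>
      ((Mem.const z.S').mul (m2 _ _ _ _).sz).mul (Mem.const z.S) _ _
  obtain ⟨C2, c2⟩ := Sc.sz_unif (S := S) (J := KK e d × KK e d)
    (g := fun j i => co (B i j.1) j.2) fun j => (hB _ _ _).sz _ _
  obtain ⟨C3, c3⟩ := Sc.sz_unif (S := S) (J := KK e d × KK e d) (g := fun j i => rp (B i)
    (Pi.single j.2.1 (Pi.single j.2.2.1 (single j.2.2.2.1 j.2.2.2.2 1))) j.1) fun j => m4 _ _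
  obtain ⟨C4, c4⟩ := Sc.pb_den (S := S)
    (J := (KK e d × KK e d × KK e d) ⊕ (KK e d × Fin e × Fin d × ν × ν))
    (g := Sum.elim (fun j i => rp (B i) (B i j.1 * B i j.2.1) j.2.2) fun j i =>
      lin (cj (θ i j.2.1 j.2.2.1) (E i)) (B i j.1 j.2.1 j.2.2.1) j.2.2.2.1 j.2.2.2.2) (by
      rintro (j | j)
      · exact m5 _ _ _
      · exact m3 _ _ _ _ _)
  have g1 : ∀ᶠ x in S.AE, ∀ k s t p q, Gd x.2.1 (B x.1 k s t p q) :=
    eventually_all.2 fun k => eventually_all.2 fun s => eventually_all.2 fun t => (hB k s t).gd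
  obtain ⟨C5, c5⟩ := Sc.ae_iff.1 (h2.and g1)
  refine ⟨C1 + C2 + C3 + 3 * C4 + C5, ?_⟩
  filter_upwards [hB', c1, c2, c3, c4, c5] with i ⟨b1, b2⟩ c1 c2 c3 ⟨c, c0, cH, ci⟩
    ⟨N, N0, NH, hN⟩ C hC
  have hp : ∀ C0, C0 ≤ C → (S.M i : ℝ) ^ C0 ≤ (S.M i ^ C : ℕ) := fun C0 h => by
    rw [Nat.cast_pow]
    exact S.rpow_le i h
  refine ⟨N * c, by positivity, ?_, exists_SA hP d1 d3 (h1 i).1 (h1 i).2 b1 b2 c0 ?_
    (fun s t p q u v => (c1 ((s, t, p, q), u, v)).trans (hp _ (by omega)))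
    (fun k s t p q => (c2 (k, s, t, p, q)).trans (hp _ (by omega)))
    (fun k s t p q => (c3 (k, s, t, p, q)).trans (hp _ (by omega)))
    (fun k k' j => ci (.inl (k, k', j))) (fun k s t u v => ci (.inr (k, s, t, u, v)))
    fun l hl => ?_⟩
  · exact (Nat.mul_le_mul NH cH).trans (by rw [← pow_add]; exact S.pow_le i (by omega))
  · exact (Nat.pow_le_pow_left cH 3).trans (by rw [← pow_mul]; exact S.pow_le i (by omega))
  · obtain ⟨l1, l2⟩ := Finset.mem_filter.1 hl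
    exact ⟨fun h => l2 (h.mul_left _), hN l l1 fun h => l2 (h.mul_right _)⟩

theorem dq (hP : PEL e a b m n) (z : MorD e a b ℂ) (F : Frs e a b L l₁) {I : Type}
    (S : Sc L l₁ I) (E : I → Fin 2 → Fin 2 → Matrix ν ν ℂ)
    (hE : ∀ p q, Mem S.PB fun i => E i p q) (h1 : ∀ᶠ i in S.Bg, MU z (E i))
    (h2 : ∀ᶠ x in S.AE, Red F x.2 (E x.1)) :
    ∃ C : ℕ, ∀ᶠ i in S.Bg, ∃ N : ℕ, 0 < N ∧ N ≤ S.M i ^ C ∧
      Nonempty (SA z F ((S.LY i).filter fun l => ¬ l.1 ∣ N) (S.M i ^ C)) := by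
  choose C hC using fun d : Fin 3 => dq_fix hP z F (S.comap (Sigma.fst : (Σ i : I,
    {θ : Fin e → Fin (d + 1) → ℂ ≃+* ℂ // MU z (E i) ∧ TT z (E i) θ}) → I)) (fun j => E j.1)
    (fun p q => (hE p q).comap _) (d := d + 1) (by omega) (by omega) (fun j => j.2.1)
    (fun j => j.2.2) (Sc.ae_comap (p := fun x => Red F x.2 (E x.1)) _ h2)
  refine ⟨Finset.univ.sup C, ?_⟩
  filter_upwards [h1, Sc.bg_of_ae h2, eventually_all.2 fun d => Sc.bg_sigma (hC d)] with i a1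
    ⟨l, _, a2⟩ a3
  obtain ⟨d, θ, d1, d3, hT⟩ := exists_TT hP a1 a2
  obtain ⟨d, rfl⟩ : ∃ k, d = k + 1 := ⟨d - 1, by omega⟩
  exact a3 ⟨d, by omega⟩ ⟨θ, a1, hT⟩ _ (Finset.le_sup (Finset.mem_univ _))

end MG.RS
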