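import Pool.Agent.Lib.MP_33b3f9_ag.MG.RS.WDef

/-!
A family that reduces onto slots is a system of matrix units.
-/

set_option autoImplicit false

noncomputable section

namespace MG.RS

open Matrix Filter Pool.Agent.M4.Mx Pool.Agent.M4

theorem mur_ind {P : M2 ℂ → Prop} (h0 : ∀ p q, P (single p q 1))
    (h1 : ∀ x y, P x → P y → P (x + y)) (h2 : ∀ (c : ℂ) x, P x → P (c • x)) (x : M2 ℂ) : P x := by
  have h : x = x 0 0 • single 0 0 1 + x 0 1 • single 0 1 1 +
      (x 1 0 • single 1 0 1 + x 1 1 • single 1 1 1) := by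
    ext p q
    fin_cases p <;> fin_cases q <;> simp
  rw [h]
  exact h1 _ _ (h1 _ _ (h2 _ _ (h0 _ _)) (h2 _ _ (h0 _ _)))
    (h1 _ _ (h2 _ _ (h0 _ _)) (h2 _ _ (h0 _ _)))

theorem mur_adj (y : M2 ℂ) : adjugate y = y.trace • 1 - y := by
  ext i j
  fin_cases i <;> fin_cases j <;> simp [adjugate_fin_two, trace_fin_two]

theorem mur_adj_add (x y : M2 ℂ) : adjugate (x + y) = adjugate x + adjugate y := by
  rw [mur_adj, mur_adj, mur_adj, trace_add, add_smul, add_sub_add_comm]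

theorem mur_adj_smul (c : ℂ) (x : M2 ℂ) : adjugate (c • x) = c • adjugate x := by
  rw [mur_adj, mur_adj, trace_smul, smul_assoc, smul_sub]

theorem mur_single (R : Type) [CommRing R] (p q : Fin 2) :
    (single p q (1 : ℤ)).map (Int.cast : ℤ → R) = single p q 1 := by
  ext i j
  simp [single_apply]

theorem mur_cast_mul (R : Type) [CommRing R] (g g' : M2 ℤ) : (g * g').map (Int.cast : ℤ → R) =
    g.map (Int.cast : ℤ → R) * g'.map (Int.cast : ℤ → R) :=
  Matrix.map_mul (f := Int.castRingHom R)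

theorem mur_cast_adj (R : Type) [CommRing R] (g : M2 ℤ) : (adjugate g).map (Int.cast : ℤ → R) =
    adjugate (g.map (Int.cast : ℤ → R)) := RingHom.map_adjugate (Int.castRingHom R) g

variable [Dim] {e : ℕ} {a b : MZ} {m n : ℕ} {L : Type} [Field L] {l₁ : ℕ} {I : Type}

theorem mur_mem {R : Subring (I → ℂ)} {E : I → Fin 2 → Fin 2 → Matrix ν ν ℂ}
    (hE : ∀ p q, Mem R fun i => E i p q) {x : I → M2 ℂ} (hx : Mem R x) :
    Mem R fun i => lin (E i) (x i) := by
  simp only [lin_apply]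
  exact Mem.sum _ fun p _ => Mem.sum _ fun q _ => (hE p q).smul (hx p q)

section place

variable {l : ℕ} [Fact l.Prime] {φ : ℂ ≃+* PadicAlgCl l} {E E' : Fin 2 → Fin 2 → Matrix ν ν ℂ}
  {G : Fm e a b (kk l)} {s : Fin e} {i : Fin 3} {u u' : M2 (kk l) ≃ₐ[kk l] M2 (kk l)}

theorem mur_lin (h : ∀ p q, Rd φ (E p q) (U G s i (u (single p q 1)))) (x : M2 (OO l)) :
    Rd φ (lin E (x.map (up φ))) (U G s i (u (x.map (rd l)))) := by
  have h1 := Rd.lin h x
  rwa [show lin (fun p q => U G s i (u (single p q 1))) (x.map (rd l)) = _ from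
    lin_comp (U G s i ∘ₗ u.toLinearMap) _] at h1

theorem mur_rd (h : ∀ p q, Rd φ (E p q) (U G s i (u (single p q 1)))) (g : M2 ℤ) :
    Rd φ (lin E (g.map (Int.cast : ℤ → ℂ))) (U G s i (u (g.map (Int.cast : ℤ → kk l)))) := by
  have h1 := mur_lin h (g.map (Int.cast : ℤ → OO l))
  rwa [show (g.map (Int.cast : ℤ → OO l)).map (up φ) = g.map (Int.cast : ℤ → ℂ) by ext; simp,
    show (g.map (Int.cast : ℤ → OO l)).map (rd l) = g.map (Int.cast : ℤ → kk l) by ext; simp]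
    at h1

theorem mur_same (h : ∀ p q, Rd φ (E p q) (U G s i (u (single p q 1)))) {X : Matrix ν ν ℂ}
    {w : M2 (kk l)} (h' : Rd φ X (U G s i w)) :
    Rd φ ((8 : ℂ) • X - lin E (of fun r t => (E t r * X).trace)) 0 := by
  obtain ⟨w, rfl⟩ := u.surjective w
  choose x h1 h2 using fun r t => ((h t r).mul h').trace
  have h3 := (h'.smul 8).sub (mur_lin h (of x))
  have e1 : (of x).map (up φ) = of fun r t => (E t r * X).trace := by
    ext r t
    exact h1 r t
  have e2 : (of x).map (rd l) = (8 : kk l) • w := by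
    ext r t
    rw [map_apply, of_apply, h2, U_mul, U_trace, ← map_mul, Matrix.trace_map u, trace_single_mul,
      Matrix.smul_apply, one_smul, smul_eq_mul]
  rwa [e1, e2, map_ofNat, map_ofNat, map_smul, map_smul, sub_self] at h3

end place

variable {F : Frs e a b L l₁} {S : Sc L l₁ I} {E : I → Fin 2 → Fin 2 → Matrix ν ν ℂ}

theorem mur_comm (hE : ∀ p q, Mem S.PB fun i => E i p q)
    (h2 : ∀ᶠ x : I × GP L l₁ in S.AE, Red F x.2 (E x.1)) (g : MZ)
    (hg : ∀ (l : GP L l₁) x, Commute (zM (kk l.1) g) ((Fk F l).z.em x)) (p q : Fin 2) :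
    ∀ᶠ i in S.Bg, Commute (zM ℂ g) (E i p q) := by
  refine exact_eq (A := fun i => zM ℂ g * E i p q) (B := fun i => E i p q * zM ℂ g)
    ((Mem.int g).mul (hE p q)) ((hE p q).mul (Mem.int g)) ?_
  filter_upwards [h2] with x hx
  obtain ⟨φ⟩ := Det.nonempty_equiv x.2.1
  obtain ⟨s, i, u, h⟩ := hx φ
  have h3 := (h p q).mul (Rd.int (φ := φ) g)
  rw [U_apply, ← (hg x.2 _).eq] at h3
  exact ⟨φ, _, (Rd.int g).mul (h p q), h3⟩

theorem mur_mul (hE : ∀ p q, Mem S.PB fun i => E i p q)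
    (h2 : ∀ᶠ x : I × GP L l₁ in S.AE, Red F x.2 (E x.1)) (g g' : M2 ℤ) : ∀ᶠ i in S.Bg,
    lin (E i) (g.map (Int.cast : ℤ → ℂ)) * lin (E i) (g'.map (Int.cast : ℤ → ℂ)) =
      lin (E i) ((g * g').map (Int.cast : ℤ → ℂ)) := by
  refine exact_eq
    (A := fun i => lin (E i) (g.map (Int.cast : ℤ → ℂ)) * lin (E i) (g'.map (Int.cast : ℤ → ℂ)))
    (B := fun i => lin (E i) ((g * g').map (Int.cast : ℤ → ℂ)))
    ((mur_mem hE (Mem.int g)).mul (mur_mem hE (Mem.int g'))) (mur_mem hE (Mem.int _)) ?_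
  filter_upwards [h2] with x hx
  obtain ⟨φ⟩ := Det.nonempty_equiv x.2.1
  obtain ⟨s, i, u, h⟩ := hx φ
  have h3 := (mur_rd h g).mul (mur_rd h g')
  rw [U_mul, ← map_mul u, ← mur_cast_mul] at h3
  exact ⟨φ, _, h3, mur_rd h _⟩

theorem mur_form (hE : ∀ p q, Mem S.PB fun i => E i p q)
    (h2 : ∀ᶠ x : I × GP L l₁ in S.AE, Red F x.2 (E x.1)) (g : M2 ℤ) : ∀ᶠ i in S.Bg,
    (lin (E i) (g.map (Int.cast : ℤ → ℂ)))ᵀ * J ι ℂ =
      J ι ℂ * lin (E i) ((adjugate g).map (Int.cast : ℤ → ℂ)) := by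
  have hJ : Mem S.PB fun _ => J ι ℂ := by
    rw [← zM_J ℂ]
    exact Mem.int _
  refine exact_eq (A := fun i => (lin (E i) (g.map (Int.cast : ℤ → ℂ)))ᵀ * J ι ℂ)
    (B := fun i => J ι ℂ * lin (E i) ((adjugate g).map (Int.cast : ℤ → ℂ)))
    ((mur_mem hE (Mem.int g)).tr.mul hJ) (hJ.mul (mur_mem hE (Mem.int _))) ?_
  filter_upwards [h2] with x hx
  obtain ⟨φ⟩ := Det.nonempty_equiv x.2.1
  obtain ⟨s, i, u, h⟩ := hx φ
  have h3 := (mur_rd h g).tr.mul (rd_J φ)
  rw [U_adj, ← alg_adj, ← mur_cast_adj] at h3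
  exact ⟨φ, _, h3, (rd_J φ).mul (mur_rd h _)⟩

/-- The defect of `X` from the span of `E`. -/
def murD (E : Fin 2 → Fin 2 → Matrix ν ν ℂ) (X : Matrix ν ν ℂ) : Matrix ν ν ℂ :=
  (8 : ℂ) • X - lin E (of fun r t => (E t r * X).trace)

/-- `E'` lies in the span of `E`, or commutes with `E`. -/
def murP (E E' : Fin 2 → Fin 2 → Matrix ν ν ℂ) : Prop :=
  (∀ p q, murD E (E' p q) = 0) ∨ ∀ p q r t, E' p q * E r t - E r t * E' p q = 0

theorem mur_memD {R : Subring (I → ℂ)} (hE : ∀ p q, Mem R fun i => E i p q)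
    {X : I → Matrix ν ν ℂ} (hX : Mem R X) : Mem R fun i => murD (E i) (X i) :=
  (hX.smul (c := fun _ => 8) (ofNat_mem _ 8)).sub
    (mur_mem hE fun r t => ((hE t r).mul hX).trace)

theorem mur_loc {l : GP L l₁} {E E' : Fin 2 → Fin 2 → Matrix ν ν ℂ} (h : Red F l E)
    (h' : Red F l E') (h1 : ∀ p q i j, Gd l.1 (murD E (E' p q) i j))
    (h2 : ∀ p q r t i j, Gd l.1 ((E' p q * E r t - E r t * E' p q) i j)) : murP E E' := by
  obtain ⟨φ⟩ := Det.nonempty_equiv l.1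
  obtain ⟨s, i, u, h⟩ := h φ
  obtain ⟨s', i', u', h'⟩ := h' φ
  by_cases hs : (s', i') = (s, i)
  · obtain ⟨rfl, rfl⟩ := Prod.mk.inj hs
    exact .inl fun p q => (mur_same h (h' p q)).eq_zero (h1 p q)
  · refine .inr fun p q r t => Rd.eq_zero (φ := φ) ?_ (h2 p q r t)
    have h3 := ((h' p q).mul (h r t)).sub ((h r t).mul (h' p q))
    rwa [(U_comm _ hs _ _).eq, sub_self] at h3

theorem mur_two {E' : I → Fin 2 → Fin 2 → Matrix ν ν ℂ} (hE : ∀ p q, Mem S.PB fun i => E i p q)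
    (hE' : ∀ p q, Mem S.PB fun i => E' i p q)
    (h : ∀ᶠ x : I × GP L l₁ in S.AE, Red F x.2 (E x.1) ∧ Red F x.2 (E' x.1)) :
    ∀ᶠ i in S.Bg, murP (E i) (E' i) := by
  have a3 : ∀ᶠ x : I × GP L l₁ in S.AE, ∀ p q i j, Gd x.2.1 (murD (E x.1) (E' x.1 p q) i j) :=
    eventually_all.2 fun p => eventually_all.2 fun q =>
      Mem.gd (A := fun i => murD (E i) (E' i p q)) (mur_memD hE (hE' p q))
  have a4 : ∀ᶠ x : I × GP L l₁ in S.AE, ∀ p q r t i j,
      Gd x.2.1 ((E' x.1 p q * E x.1 r t - E x.1 r t * E' x.1 p q) i j) :=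
    eventually_all.2 fun p => eventually_all.2 fun q => eventually_all.2 fun r =>
      eventually_all.2 fun t => Mem.gd (A := fun i => E' i p q * E i r t - E i r t * E' i p q)
        (((hE' p q).mul (hE r t)).sub ((hE r t).mul (hE' p q)))
  refine Sc.bg_of_ae' (p := fun i => murP (E i) (E' i)) ?_
  filter_upwards [h, a3, a4] with x hx b3 b4
  exact mur_loc hx.1 hx.2 b3 b4

theorem mur_cj (hE : ∀ p q, Mem S.PB fun i => E i p q)
    (h2 : ∀ᶠ x : I × GP L l₁ in S.AE, Red F x.2 (E x.1)) (θ : I → ℂ ≃+* ℂ) :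
    ∀ᶠ i in S.Bg, murP (E i) (cj (θ i) (E i)) := by
  refine mur_two (F := F) (E' := fun i => cj (θ i) (E i)) hE
    (fun p q => Mem.aut (A := fun i => E i p q) (hE p q) θ) ?_
  filter_upwards [h2] with x hx
  exact ⟨hx, hx.cj _⟩

theorem mur_dich (hE : ∀ p q, Mem S.PB fun i => E i p q)
    (h2 : ∀ᶠ x : I × GP L l₁ in S.AE, Red F x.2 (E x.1)) :
    ∀ᶠ i in S.Bg, ∀ θ : ℂ ≃+* ℂ, murP (E i) (cj θ (E i)) := by
  have a1 : ∀ p q, Mem (S.comap (Prod.fst : I × (ℂ ≃+* ℂ) → I)).PB fun j => E j.1 p q :=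
    fun p q => Mem.comap (A := fun i => E i p q) Prod.fst (hE p q)
  have a2 : ∀ᶠ x : (I × (ℂ ≃+* ℂ)) × GP L l₁ in (S.comap Prod.fst).AE, Red F x.2 (E x.1.1) :=
    Sc.ae_comap (Prod.fst : I × (ℂ ≃+* ℂ) → I) (p := fun x => Red F x.2 (E x.1)) h2
  exact Sc.bg_prod (p := fun j : I × (ℂ ≃+* ℂ) => murP (E j.1) (cj j.2 (E j.1)))
    (mur_cj (F := F) (E := fun j : I × (ℂ ≃+* ℂ) => E j.1) a1 a2 fun j => j.2)

theorem mu_of_red (z : MorD e a b ℂ) (F : Frs e a b L l₁) (S : Sc L l₁ I)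
    (E : I → Fin 2 → Fin 2 → Matrix ν ν ℂ) (hE : ∀ p q, Mem S.PB fun i => E i p q)
    (h1 : ∀ᶠ i in S.Bg, ∃ s, lin (E i) 1 = z.em (Pi.single s 1))
    (h2 : ∀ᶠ x in S.AE, Red F x.2 (E x.1)) : ∀ᶠ i in S.Bg, MU z (E i) := by
  filter_upwards [h1, mur_dich hE h2,
    eventually_all.2 fun p => eventually_all.2 fun q =>
      mur_comm hE h2 a (fun l => (Fk F l).z.comm_a) p q,
    eventually_all.2 fun p => eventually_all.2 fun q =>
      mur_comm hE h2 b (fun l => (Fk F l).z.comm_b) p q,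
    eventually_all.2 fun p => eventually_all.2 fun q => eventually_all.2 fun r =>
      eventually_all.2 fun t => mur_mul hE h2 (single p q 1) (single r t 1),
    eventually_all.2 fun p => eventually_all.2 fun q => mur_form hE h2 (single p q 1)]
    with i b1 b2 b3 b4 b5 b6
  simp only [mur_cast_mul, mur_cast_adj, mur_single] at b5 b6
  refine ⟨b3, b4, fun x y => ?_, b1, fun x => ?_, fun θ => (b2 θ).imp (fun h x => ?_)
    fun h x y => ?_⟩
  · induction x using mur_ind with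
    | h0 p q =>
      induction y using mur_ind with
      | h0 r t => exact b5 p q r t
      | h1 y y' c c' => rw [map_add, mul_add, mul_add, map_add, c, c']
      | h2 c y c' => rw [map_smul, mul_smul_comm, mul_smul_comm, map_smul, c']
    | h1 x x' c c' => rw [map_add, add_mul, add_mul, map_add, c, c']
    | h2 c x c' => rw [map_smul, smul_mul_assoc, smul_mul_assoc, map_smul, c']
  · induction x using mur_ind with
    | h0 p q => exact b6 p q
    | h1 x x' c c' =>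
      rw [mur_adj_add, map_add, map_add, transpose_add, add_mul, mul_add, c, c']
    | h2 c x c' =>
      rw [mur_adj_smul, map_smul, map_smul, transpose_smul, smul_mul_assoc, mul_smul_comm, c']
  · induction x using mur_ind with
    | h0 p q =>
      refine ⟨(8 : ℂ)⁻¹ • of fun r t => (E i t r * cj θ (E i) p q).trace, ?_⟩
      rw [map_smul, ← sub_eq_zero.1 (h p q), lin_single, inv_smul_smul₀ (by norm_num)]
    | h1 x x' c c' =>
      obtain ⟨y, c⟩ := c
      obtain ⟨y', c'⟩ := c'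
      exact ⟨y + y', by rw [map_add, map_add, c, c']⟩
    | h2 c x c' =>
      obtain ⟨y, c'⟩ := c'
      exact ⟨c • y, by rw [map_smul, map_smul, c']⟩
  · exact Commute.sum_left _ _ _ fun p _ => Commute.sum_left _ _ _ fun q _ =>
      Commute.smul_left (Commute.sum_right _ _ _ fun r _ => Commute.sum_right _ _ _ fun t _ =>
        Commute.smul_right (sub_eq_zero.1 (h p q r t)) _) _

end MG.RS
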