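import Pool.Agent.Lib.MP_33b3f9_ag.MG.RS.WDef

/-!
Two idempotents that do not commute give a system of matrix units.
-/

set_option autoImplicit false

noncomputable section

namespace MG.RS

open Matrix Filter Pool.Agent.M4.Mx

theorem unit_ring {A : Type} [Ring A] {ε X X' T : A} (h1 : X * X = X) (h2 : ε * X = X)
    (h3 : X * ε = X) (h4 : ε * ε = ε)
    (hu : IsUnit (X * X' * (ε - X) + (ε - X) * T * X + (1 - ε))) :
    ∃ Z, X * X' * (ε - X) * Z = X ∧ Z * (X * X' * (ε - X)) = ε - X ∧ Z * X = Z ∧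
      (1 - ε + X) * Z = 0 := by
  have a1 : X * (ε - X) = 0 := by rw [mul_sub, h1, h3, sub_self]
  have a2 : (ε - X) * (ε - X) = ε - X := by rw [sub_mul, a1, mul_sub, h4, h2, sub_zero]
  have a3 : (1 - ε) * (ε - X) = 0 := by rw [sub_mul, one_mul, mul_sub, h4, h2, sub_self]
  have a4 : X * (1 - ε) = 0 := by rw [mul_sub, mul_one, h3, sub_self]
  have a5 : 1 - ε + X = 1 - (ε - X) := by abel
  obtain ⟨R, hR⟩ := hu
  rw [a5]
  generalize ε - X = P, 1 - ε = Q at a1 a2 a3 a4 hR ⊢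
  have b1 : X * R = X * X' * P := by
    rw [hR, mul_add, mul_add, a4, add_zero, ← mul_assoc, ← mul_assoc, ← mul_assoc, ← mul_assoc, h1,
      a1, zero_mul, zero_mul, add_zero]
  have b2 : R * P = X * X' * P := by
    rw [hR, add_mul, add_mul, a3, add_zero, mul_assoc _ P, a2, mul_assoc _ X, a1, mul_zero,
      add_zero]
  refine ⟨P * ↑R⁻¹ * X, ?_, ?_, by rw [mul_assoc, h1], ?_⟩
  · rw [← mul_assoc, ← mul_assoc, mul_assoc (X * X') P P, a2, ← b1, Units.mul_inv_cancel_right, h1]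
  · rw [mul_assoc, ← mul_assoc X, ← mul_assoc X, h1, ← b2, mul_assoc, Units.inv_mul_cancel_left,
      a2]
  · rw [← mul_assoc, ← mul_assoc, sub_mul, one_mul, a2, sub_self, zero_mul, zero_mul]

theorem unit_alg {k : Type} [Field k] {x x' : M2 k} (h : x * x = x) (h0 : x * x' * (1 - x) ≠ 0) :
    ∃ u : M2 k ≃ₐ[k] M2 k, u (single 0 0 1) = x ∧ u (single 0 1 1) = x * x' * (1 - x) :=
  exists_alg h (by rw [← mul_assoc, ← mul_assoc, h])
    (by rw [mul_assoc, sub_mul, one_mul, h, sub_self, mul_zero]) h0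

variable [Dim] {e : ℕ} {a b : MZ} {m n : ℕ} {L : Type} [Field L] {l₁ : ℕ} {I : Type}

section one

variable {F : Frs e a b L l₁} {l : GP L l₁} {φ : ℂ ≃+* PadicAlgCl l.1} {s : Fin e} {i : Fin 3}
  {ε X X' Z : Matrix ν ν ℂ} {x x' : M2 (kk l.1)}

theorem unit_mul {A B : Matrix ν ν ℂ} (h : Rd φ A (U (Fk F l) s i x))
    (h' : Rd φ B (U (Fk F l) s i x')) : Rd φ (A * B) (U (Fk F l) s i (x * x')) :=
  U_mul (Fk F l) s i x x' ▸ h.mul h'

theorem unit_sub {A B : Matrix ν ν ℂ} (h : Rd φ A (U (Fk F l) s i x))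
    (h' : Rd φ B (U (Fk F l) s i x')) : Rd φ (A - B) (U (Fk F l) s i (x - x')) :=
  map_sub (U (Fk F l) s i) x x' ▸ h.sub h'

theorem unit_lift (φ : ℂ ≃+* PadicAlgCl l.1) (s : Fin e) (i : Fin 3) (y : M2 (kk l.1)) :
    ∃ T, Rd φ T (U (Fk F l) s i y) := by
  choose G hG using fun p q => rd_surj (y p q)
  have h := Rd.of (φ := φ) (U (Fo F l) s i (of G))
  rw [U_map (Fo F l) s i (rd l.1), show (of G : M2 _).map (rd l.1) = y from
    Matrix.ext fun p q => hG p q] at h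
  exact ⟨_, h⟩

theorem unit_ex (r1 : Rd φ ε (U (Fk F l) s i 1)) (r2 : Rd φ X (U (Fk F l) s i x))
    (r3 : Rd φ X' (U (Fk F l) s i x')) (h0 : x * x' * (1 - x) ≠ 0) (h1 : X * X = X)
    (h2 : ε * X = X) (h3 : X * ε = X) (h4 : ε * ε = ε) :
    ∃ Z, X * X' * (ε - X) * Z = X ∧ Z * (X * X' * (ε - X)) = ε - X ∧ Z * X = Z ∧
      (1 - ε + X) * Z = 0 ∧ X * X' * (ε - X) ≠ 0 := by
  have hx : x * x = x := U_inj _ s i ((unit_mul r2 r2).unique (h1.symm ▸ r2))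
  obtain ⟨u, u0, u1⟩ := unit_alg hx h0
  obtain ⟨c1, c2, c3, c4, c5, c6⟩ := alg_rel u
  obtain ⟨T, rT⟩ := unit_lift (F := F) φ s i (u (single 1 0 1))
  have rn := unit_mul (unit_mul r2 r3) (unit_sub r1 r2)
  have rR := (rn.add (unit_mul (unit_mul (unit_sub r1 r2) rT) r2)).add (Rd.one.sub r1)
  rw [← map_add, ← u1, ← u0, ← c1, c3, ← c2, ← mul_assoc, c4, c3] at rR
  have c7 : (u (single 0 1 1) + u (single 1 0 1)) * (u (single 0 1 1) + u (single 1 0 1)) = 1 := by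
    rw [add_mul, mul_add, mul_add, c2, c4, c5, c6, c1]
    abel
  obtain ⟨Z, z1, z2, z3, z4⟩ := unit_ring h1 h2 h3 h4 (rR.inv (IsUnit.of_mul_eq_one
    (U (Fk F l) s i (u (single 0 1 1) + u (single 1 0 1)) + (1 - U (Fk F l) s i 1)) (by
    rw [add_mul, mul_add, mul_add, U_mul, c7, mul_sub, sub_mul, mul_sub, sub_mul, sub_mul, U_mul,
      U_mul, U_mul]
    simp))).1
  refine ⟨Z, z1, z2, z3, z4, fun c => h0 (U_inj (Fk F l) s i ?_)⟩
  rw [c] at rn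
  rw [rn.unique Rd.zero, map_zero]

theorem unit_red (h2 : Idm F l ε X) (h3 : Idm F l ε X') (z2 : Z * (X * X' * (ε - X)) = ε - X)
    (z3 : Z * X = Z) (h0 : X * X' * (ε - X) ≠ 0) (g1 : ∀ p q, Gd l.1 ((X * X' * (ε - X)) p q))
    (g2 : ∀ p q, Gd l.1 (Z p q)) : Red F l ![![X, X * X' * (ε - X)], ![Z, ε - X]] := fun φ => by
  obtain ⟨s, i, x, hx, r2, r1⟩ := h2 φ
  obtain ⟨s', i', x', -, r3, -⟩ := h3 φ
  have rp := unit_sub r1 r2
  have rn := (r2.mul r3).mul rp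
  obtain ⟨rfl, rfl⟩ : s = s' ∧ i = i' := by
    by_contra hc
    rw [(U_comm (Fk F l) (fun c => hc (Prod.mk.inj c)) x x').eq, mul_assoc (U _ _ _ x'), U_mul,
      mul_sub x, mul_one, hx, sub_self, map_zero, mul_zero] at rn
    exact h0 (rn.eq_zero g1)
  rw [U_mul, U_mul] at rn
  obtain ⟨u, u0, u1⟩ := unit_alg hx (x' := x') fun c => by
    rw [c, map_zero] at rn
    exact h0 (rn.eq_zero g1)
  obtain ⟨c1, c2, c3, -⟩ := alg_rel u
  obtain ⟨Zb, rz⟩ := Rd.of_gd g2 φ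
  have d1 := (rz.mul rn).unique (z2.symm ▸ rp)
  have d2 := (rz.mul r2).unique (z3.symm ▸ rz)
  rw [← u1] at rn d1
  rw [← u0] at r2 rp d1 d2
  rw [← c1] at rp d1
  rw [← c2, ← U_mul, ← mul_assoc, d1, U_mul, c3] at d2
  refine ⟨s, i, u, fun p q => ?_⟩
  fin_cases p <;> fin_cases q
  · exact r2
  · exact rn
  · exact d2 ▸ rz
  · exact rp

end one

theorem units (F : Frs e a b L l₁) (S : Sc L l₁ I) (l : I → GP L l₁)
    (φ : ∀ i, ℂ ≃+* PadicAlgCl (l i).1) (q : I → Fin e × Fin 3) (ε X X' : I → Matrix ν ν ℂ)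
    (x x' : ∀ i, M2 (kk (l i).1)) (hε : Mem S.PB ε) (hX : Mem S.PB X) (hX' : Mem S.PB X')
    (h1 : ∀ᶠ i in S.Bg, Rd (φ i) (ε i) (U (Fk F (l i)) (q i).1 (q i).2 1) ∧
      Rd (φ i) (X i) (U (Fk F (l i)) (q i).1 (q i).2 (x i)) ∧
      Rd (φ i) (X' i) (U (Fk F (l i)) (q i).1 (q i).2 (x' i)) ∧ x i * x' i * (1 - x i) ≠ 0)
    (h2 : ∀ᶠ y in S.AE, Idm F y.2 (ε y.1) (X y.1)) (h3 : ∀ᶠ y in S.AE, Idm F y.2 (ε y.1) (X' y.1)) :
    ∃ E : I → Fin 2 → Fin 2 → Matrix ν ν ℂ, (∀ p q, Mem S.PB fun i => E i p q) ∧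
      (∀ i, lin (E i) 1 = ε i) ∧ ∀ᶠ y in S.AE, Red F y.2 (E y.1) := by
  have h4 : ∀ᶠ y : I × GP L l₁ in S.AE, ∃ (ψ : ℂ ≃+* PadicAlgCl y.2.1) (s : Fin e) (i : Fin 3)
      (t : M2 (kk y.2.1)), t * t = t ∧ Rd ψ (X y.1) (U (Fk F y.2) s i t) ∧
        Rd ψ (ε y.1) (U (Fk F y.2) s i 1) := h2.mono fun y hy => by
    obtain ⟨ψ⟩ := Pool.Agent.M4.Det.nonempty_equiv y.2.1
    exact ⟨ψ, hy ψ⟩
  have e1 := exact_eq (A := fun i => X i * X i) (B := X) (hX.mul hX) hX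
    (h4.mono fun y ⟨ψ, _, _, _, ht, r, _⟩ => ⟨ψ, _, unit_mul r r, ht.symm ▸ r⟩)
  have e2 := exact_eq (A := fun i => ε i * X i) (B := X) (hε.mul hX) hX
    (h4.mono fun y ⟨ψ, _, _, t, _, r, r'⟩ => ⟨ψ, _, unit_mul r' r, (one_mul t).symm ▸ r⟩)
  have e3 := exact_eq (A := fun i => X i * ε i) (B := X) (hX.mul hε) hX
    (h4.mono fun y ⟨ψ, _, _, t, _, r, r'⟩ => ⟨ψ, _, unit_mul r r', (mul_one t).symm ▸ r⟩)
  have e4 := exact_eq (A := fun i => ε i * ε i) (B := ε) (hε.mul hε) hε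
    (h4.mono fun y ⟨ψ, _, _, _, _, _, r'⟩ => ⟨ψ, _, unit_mul r' r', by rwa [mul_one]⟩)
  obtain ⟨Z, hZ⟩ : ∃ Z : I → Matrix ν ν ℂ, ∀ᶠ i in S.Bg, X i * X' i * (ε i - X i) * Z i = X i ∧
      Z i * (X i * X' i * (ε i - X i)) = ε i - X i ∧ Z i * X i = Z i ∧
      (1 - ε i + X i) * Z i = 0 ∧ X i * X' i * (ε i - X i) ≠ 0 := by
    refine ⟨fun i => Classical.epsilon fun Z => X i * X' i * (ε i - X i) * Z = X i ∧
      Z * (X i * X' i * (ε i - X i)) = ε i - X i ∧ Z * X i = Z ∧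
      (1 - ε i + X i) * Z = 0 ∧ X i * X' i * (ε i - X i) ≠ 0, ?_⟩
    filter_upwards [h1, e1, e2, e3, e4] with i ⟨r1, r2, r3, h0⟩ a1 a2 a3 a4
    exact Classical.epsilon_spec (unit_ex r1 r2 r3 h0 a1 a2 a3 a4)
  have hP : Mem S.PB fun i => ε i - X i := hε.sub hX
  have hn : Mem S.PB fun i => X i * X' i * (ε i - X i) := (hX.mul hX').mul hP
  have hZm : Mem S.PB Z := Mem.solve hn (B := fun i => 1 - ε i + X i) ((Mem.one.sub hε).add hX)
    (hX.congr (hZ.mono fun i hi => hi.1.symm)) (Mem.zero.congr (hZ.mono fun i hi => hi.2.2.2.1.symm))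
    (hZ.mono fun i hi v c1 c2 => by
      have c3 : (ε i - X i) *ᵥ v = 0 := by rw [← hi.2.1, ← mulVec_mulVec, c1, mulVec_zero]
      rw [show 1 - ε i + X i = 1 - (ε i - X i) by abel, sub_mulVec, c3, one_mulVec, sub_zero] at c2
      exact c2)
  refine ⟨fun i => ![![X i, X i * X' i * (ε i - X i)], ![Z i, ε i - X i]], fun p q => ?_,
    fun i => by simp [lin_apply], ?_⟩
  · fin_cases p <;> fin_cases q
    · exact hX
    · exact hn
    · exact hZm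
    · exact hP
  · filter_upwards [h2, h3, Sc.ae_of_bg hZ, hn.gd, hZm.gd] with y a1 a2 a3 a4 a5
    exact unit_red a1 a2 a3.2.1 a3.2.2.1 a3.2.2.2.2 a4 a5

end MG.RS
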