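import Pool.Agent.Lib.MP_33b3f9_ag.MG.RS.WDef

/-!
Two words in the special matrices whose slots have rank one.
-/

set_option autoImplicit false

noncomputable section

namespace MG.RS

open Matrix Filter Pool.Agent.M4.Mx

theorem T_sc {R : Type} [CommRing R] (f : Fr ω R) (c : R) (h : Fin 3 → M2 R) :
    c • f.T h = f.T fun t => ![c, 1, 1] t • h t := by
  rw [Fr.T_smul]
  simp [Fin.prod_univ_three]

theorem comm_inv {R o : Type} [CommRing R] [Fintype o] [DecidableEq o] {x g : Matrix o o R}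
    (h : Commute x g) (hg : IsUnit g) : Commute x g⁻¹ := by
  obtain ⟨u, rfl⟩ := hg
  rw [← Matrix.coe_units_inv]
  exact h.units_inv_right

variable [Dim] {e : ℕ} {a b : MZ} {m n : ℕ} {L : Type} [Field L] {l₁ : ℕ} {I : Type}

section ring

variable {R R' : Type} [CommRing R] [CommRing R']

theorem pr2_mul (z : MorD e a b R) {g g' : Matrix ν ν R} (h : Commute (zM R a) g)
    (h' : Commute (zM R a) g') (s : Fin e) (c : Fin 2) :
    z.pr2 (g * g') s c = z.pr2 g s c * z.pr2 g' s c := by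
  have : g * g' = z.em2 (z.pr2 g * z.pr2 g') := by rw [map_mul, z.em2_pr2 h, z.em2_pr2 h']
  rw [this, Mor.pr2_em2]
  rfl

theorem pr2_one (z : MorD e a b R) (s : Fin e) (c : Fin 2) : z.pr2 1 s c = 1 := by
  rw [← map_one z.em2, Mor.pr2_em2]
  rfl

theorem pr2_inv (z : MorD e a b R) {g : Matrix ν ν R} (h : Commute (zM R a) g) (hg : IsUnit g)
    (s : Fin e) (c : Fin 2) : z.pr2 g⁻¹ s c * z.pr2 g s c = 1 := by
  rw [← pr2_mul z (comm_inv h hg) h, nonsing_inv_mul _ ((isUnit_iff_isUnit_det _).1 hg), pr2_one]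

theorem pr2_zM (F : Fm e a b R) (ψ : R →+* R') (d : MZ) (s : Fin e) (c : Fin 2) :
    (F.z.pr2 (zM R d) s c).map ψ = (F.map ψ).z.pr2 (zM R' d) s c := by
  rw [Mor.map_pr2, zM_map]
  rfl

theorem T_map (F : Fm e a b R) (ψ : R →+* R') (s : Fin e) (h : Fin 3 → M2 R) :
    ((F.f s).T h).map ψ = ((F.map ψ).f s).T fun t => (h t).map ψ := Fr.map_T _ _ _

theorem T2_sc (F : Fm e a b R) (c : R) (h : Fin e → Fin 2 → Fin 3 → M2 R) :
    c • F.T2 h = F.T2 fun s d t => ![c, 1, 1] t • h s d t := by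
  rw [Fm.T2, Fm.T2, ← map_smul]
  exact congrArg _ (funext fun s => funext fun d => T_sc _ _ _)

end ring

theorem T2_inv {k : Type} [Field k] (F : Fm e a b k) {h : Fin e → Fin 2 → Fin 3 → M2 k}
    (hu : IsUnit (F.T2 h)) : (F.T2 h)⁻¹ = F.T2 fun s c t => (h s c t)⁻¹ := by
  refine inv_eq_left_inv ?_
  rw [Fm.T2_mul, ← F.T2_one]
  refine congrArg _ (funext fun s => funext fun c => funext fun t => ?_)
  have h1 := congrArg det (pr2_inv F.z (F.z.comm_a2 _) hu s c)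
  rw [Mor.pr2_em2, det_mul, det_one] at h1
  have h2 := pow_ne_zero 2 (right_ne_zero_of_mul_eq_one h1)
  rw [M4.CM.det_T_sq] at h2
  exact nonsing_inv_mul _ (Finset.prod_ne_zero_iff.1 (ne_zero_pow (by decide) h2) t
    (Finset.mem_univ t)).isUnit

theorem unit_zM {k : Type} [Field k] {d : MZ} {μ : ℕ} (h : M4.Sim (zr d) μ) (hμ : (μ : k) ≠ 0) :
    IsUnit (zM k d) := by
  have h1 : adj d * d = (μ : ℤ) • (1 : MZ) :=
    (M4.Kz.simR_of_sim (h := d) (m := μ) (by rw [Int.cast_natCast]; exact h)).adj_mul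
  have h2 := congrArg (zM k) h1
  rw [zM_mul, zM_smul, zM_one, Int.cast_natCast] at h2
  refine (isUnit_iff_isUnit_det _).2
    (isUnit_det_of_left_inverse (B := (μ : k)⁻¹ • zM k (adj d)) ?_)
  rw [Matrix.smul_mul, h2, inv_smul_smul₀ hμ]

section loc

variable {F : Frs e a b L l₁} {l : GP L l₁} {φ : ℂ ≃+* PadicAlgCl l.1} {s : Fin e}
  {A A' : Matrix ν ν ℂ} {d : MZ}

theorem Cu.one : Cu F l 1 := fun _ => ⟨1, (Fk F l).T2_one ▸ Rd.one⟩

theorem Cu.mul (h : Cu F l A) (h' : Cu F l A') : Cu F l (A * A') := fun φ => by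
  obtain ⟨x, h⟩ := h φ
  obtain ⟨x', h'⟩ := h' φ
  exact ⟨x * x', (Fk F l).T2_mul x x' ▸ h.mul h'⟩

theorem Cu.nat (h : Cu F l A) (c : ℕ) : Cu F l ((c : ℂ) • A) := fun φ => by
  obtain ⟨x, h⟩ := h φ
  have := h.smul c
  rw [map_natCast, T2_sc] at this
  exact ⟨_, this⟩

theorem red_T2 (h : ∃ h, zM (ZMod l.1) d = (F.red l).T2 h) :
    ∃ h, zM (kk l.1) d = (Fk F l).T2 h := by
  obtain ⟨h, hh⟩ := h
  exact ⟨_, by rw [← zM_map (zk l.1), hh, Fm.map_T2, Fk_eq]⟩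

theorem Bl.one : Bl F l φ s 1 1 := by
  rw [Bl, pr2_one, Fr.T_one]
  exact Rd.one

theorem Bl.mul {x x' : Fin 3 → M2 (kk l.1)} (h : Bl F l φ s A x) (h' : Bl F l φ s A' x')
    (c : Commute (zM ℂ a) A) (c' : Commute (zM ℂ a) A') : Bl F l φ s (A * A') (x * x') := by
  rw [Bl, pr2_mul _ c c', ← Fr.T_mul]
  exact Rd.mul h h'

omit [Dim] in
theorem rd_sm {o : Type} (u : OO l.1) {k : ℕ} (hk : k ≠ 0) (y : Matrix o o (OO l.1)) :
    ((u * (l.1 : OO l.1) ^ k) • y).map (rd l.1) = 0 := by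
  ext i j
  simp [hk]

variable {h : Fin 3 → M2 (OO l.1)} {y : M8 (OO l.1)}

theorem bl_D (hx : (Fo F l).z.pr2 (zM (OO l.1) d) s 0 =
    ((Fo F l).f s).T h + (1 * (l.1 : OO l.1) ^ 3) • y) :
    Bl F l φ s (zM ℂ d) fun t => (h t).map (rd l.1) :=
  ⟨_, pr2_zM _ _ _ _ _, by
    rw [hx, Matrix.map_add _ (map_add _), rd_sm _ (by decide), add_zero, T_map]
    rfl⟩

theorem bl_V (hx : (Fo F l).z.pr2 (zM (OO l.1) d) s 0 =
    ((Fo F l).f s).T h + (1 * (l.1 : OO l.1) ^ 3) • y) {u : OO l.1} {k : ℕ} (hk : k ≤ 2)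
    (hu : (∏ t, (h t).det) * u = (l.1 : OO l.1) ^ k) (c : Commute (zM ℂ a) (zM ℂ d))
    (hd : IsUnit (zM ℂ d)) : Bl F l φ s (((l.1 ^ k : ℕ) : ℂ) • (zM ℂ d)⁻¹)
      fun t => ![rd l.1 u, 1, 1] t • adjugate ((h t).map (rd l.1)) := by
  obtain ⟨T', hT⟩ : ∃ T', T' = ((Fo F l).f s).T fun t => adjugate (h t) := ⟨_, rfl⟩
  obtain ⟨N, hN⟩ : ∃ N, N = 1 + (u * (l.1 : OO l.1) ^ (3 - k)) • (y * T') := ⟨_, rfl⟩
  have h1 : (Fo F l).z.pr2 (zM (OO l.1) d) s 0 * (u • T') = (l.1 : OO l.1) ^ k • N := by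
    rw [hx, hN, Matrix.add_mul, Matrix.mul_smul, hT, M4.CM.T_adj, ← hT, smul_smul, mul_comm u, hu,
      smul_add, smul_mul_smul_comm, smul_smul, mul_left_comm, ← pow_add,
      Nat.add_sub_cancel' (by omega), one_mul, mul_comm _ u]
  have h2 := Rd.of (φ := φ) N
  rw [show N.map (rd l.1) = 1 by
    rw [hN, Matrix.map_add _ (map_add _), rd_sm _ (by omega), add_zero,
      Matrix.map_one _ (map_zero _) (map_one _)]] at h2
  obtain ⟨h3, h4⟩ := h2.inv isUnit_one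
  have h5 := ((Rd.of (φ := φ) T').smul u).mul h4
  have h6 := congrArg (fun t => (Fc F l φ).z.pr2 (zM ℂ d)⁻¹ s 0 * t.map (up φ)) h1
  simp only [Matrix.map_mul, pr2_zM, Matrix.map_smul' _ _ _ (map_mul _), map_pow,
    map_natCast] at h6
  rw [← Matrix.mul_assoc, show (Fo F l).map (up φ) = Fc F l φ from rfl, pr2_inv _ c hd,
    Matrix.one_mul, Matrix.mul_smul, ← Matrix.smul_mul] at h6
  rw [h6, mul_nonsing_inv_cancel_right _ _ ((isUnit_iff_isUnit_det _).1 h3), inv_one,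
    Matrix.mul_one, hT, T_map, T_sc] at h5
  rw [Bl, map_smul, Nat.cast_pow]
  simp only [← RingHom.mapMatrix_apply, RingHom.map_adjugate] at h5 ⊢
  exact h5

theorem spec_loc {q : Fin e × Fin 3} {w : Fin 2 → ZMod l.1} (hs : Spec F l q d w) :
    ∃ (h : Fin 3 → M2 (OO l.1)) (y : M8 (OO l.1)) (u : OO l.1) (k : ℕ),
      (Fo F l).z.pr2 (zM (OO l.1) d) q.1 0 = ((Fo F l).f q.1).T h + (1 * (l.1 : OO l.1) ^ 3) • y ∧
      k ≤ 2 ∧ (∏ t, (h t).det) * u = (l.1 : OO l.1) ^ k ∧ rd l.1 u ≠ 0 ∧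
      (∀ t, t ≠ q.2 → ((h t).map (rd l.1)).det ≠ 0) ∧ (h q.2).map (rd l.1) ≠ 0 ∧
      (h q.2).map (rd l.1) *ᵥ (fun i => zk l.1 (w i)) = 0 := by
  obtain ⟨-, h, h1, h2, h3, h4, h5⟩ := hs
  choose y hy using h1
  have h6 : ∏ t, (h t).det ∣ (l.1 : ℤ_[l.1]) ^ 2 := by
    rw [← Finset.mul_prod_erase _ _ (Finset.mem_univ q.2), IsUnit.mul_right_dvd
      (IsUnit.prod_iff.2 fun t ht => h2 t (Finset.ne_of_mem_erase ht))]
    exact h3
  obtain ⟨k, hk, u, hu⟩ := (dvd_prime_pow PadicInt.prime_p 2).1 h6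
  have h7 : ∀ x : M2 ℤ_[l.1], (x.map (zO l.1)).map (rd l.1) =
      (x.map PadicInt.toZMod).map (zk l.1) := fun x => by
    ext i j
    exact (zk_toZMod _).symm
  refine ⟨fun t => (h t).map (zO l.1), (of y).map (zO l.1), zO l.1 u, k, ?_, hk, ?_,
    ((u.isUnit.map _).map _).ne_zero, fun t ht => ?_, fun c => h4 ?_, ?_⟩
  · rw [Fo, ← pr2_zM, ← T_map]
    refine Matrix.ext fun i j => ?_
    simpa using congrArg (zO l.1) (sub_eq_iff_eq_add'.1 (hy i j))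
  · have := congrArg (zO l.1) hu
    simpa only [map_mul, map_prod, RingHom.map_det, RingHom.mapMatrix_apply, map_pow,
      map_natCast] using this
  · have := (((h2 t ht).map (zO l.1)).map (rd l.1)).ne_zero
    rwa [RingHom.map_det, RingHom.map_det] at this
  · rw [h7] at c
    exact Matrix.map_injective (zk l.1).injective (c.trans (Matrix.map_zero _ (map_zero _)).symm)
  · funext i
    rw [h7]
    exact (RingHom.map_mulVec (zk l.1) _ w i).symm.trans (by rw [h5]; exact map_zero _)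

end loc

section glob

variable {F : Frs e a b L l₁} {S : Sc L l₁ I} {l : I → GP L l₁}
  {φ : ∀ i, ℂ ≃+* PadicAlgCl (l i).1} {q : I → Fin e × Fin 3}

variable (F S l φ q) in
/-- A family of small matrices that reduce to pure tensors. -/
structure Ok (γ : I → Matrix ν ν ℂ) (h : ∀ i, Fin 3 → M2 (kk (l i).1)) : Prop where
  pb : Mem S.PB γ
  cu : ∀ᶠ x : I × GP L l₁ in S.AE, Cu F x.2 (γ x.1)
  bl : ∀ᶠ i in S.Bg, Commute (zM ℂ a) (γ i) ∧ Bl F (l i) (φ i) (q i).1 (γ i) (h i) ∧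
    ∀ t, t ≠ (q i).2 → (h i t).det ≠ 0

theorem Ok.one : Ok F S l φ q (fun _ => 1) fun _ => 1 :=
  ⟨Mem.one, .of_forall fun _ => Cu.one,
    .of_forall fun _ => ⟨Commute.one_right _, Bl.one, fun _ _ => by simp⟩⟩

theorem Ok.mul {γ γ' : I → Matrix ν ν ℂ} {h h' : ∀ i, Fin 3 → M2 (kk (l i).1)}
    (H : Ok F S l φ q γ h) (H' : Ok F S l φ q γ' h') :
    Ok F S l φ q (fun i => γ i * γ' i) fun i => h i * h' i :=
  ⟨H.pb.mul H'.pb, (H.cu.and H'.cu).mono fun _ c => c.1.mul c.2,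
    (H.bl.and H'.bl).mono fun _ ⟨c, c'⟩ => ⟨c.1.mul_right c'.1, c.2.1.mul c'.2.1 c.1 c'.1,
      fun t ht => by
        rw [Pi.mul_apply, det_mul]
        exact mul_ne_zero (c.2.2 t ht) (c'.2.2 t ht)⟩⟩

theorem Ok.choice {J : Type} [Finite J] {γ : J → I → Matrix ν ν ℂ}
    {h : J → ∀ i, Fin 3 → M2 (kk (l i).1)} (H : ∀ j, Ok F S l φ q (γ j) (h j)) (j : I → J) :
    Ok F S l φ q (fun i => γ (j i) i) fun i => h (j i) i :=
  ⟨Mem.choice (fun j => (H j).pb) j,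
    (eventually_all.2 fun j => (H j).cu).mono fun x c => c (j x.1),
    (eventually_all.2 fun j => (H j).bl).mono fun i c => c (j i)⟩

theorem ok_DV {d : I → MZ} {μ : I → ℕ} {w : ∀ i, Fin 2 → ZMod (l i).1}
    (hl : ∀ i, (l i).1 ≤ S.M i ^ 2) (hd : ∀ i p p', (d i p p').natAbs ≤ S.M i)
    (hμ : ∀ i, 0 < μ i ∧ M4.Sim (zr (d i)) (μ i))
    (hc : ∀ᶠ x : I × GP L l₁ in S.AE, ¬ x.2.1 ∣ μ x.1 ∧
      ∃ h, zM (ZMod x.2.1) (d x.1) = (F.red x.2).T2 h)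
    (hs : ∀ i, Spec F (l i) (q i) (d i) (w i)) :
    ∃ (V : I → Matrix ν ν ℂ) (h : ∀ i, Fin 3 → M2 (kk (l i).1)) (c : ∀ i, Fin 3 → kk (l i).1),
      Ok F S l φ q (fun i => zM ℂ (d i)) h ∧
      Ok F S l φ q V (fun i t => c i t • adjugate (h i t)) ∧ ∀ i, (∀ t, c i t ≠ 0) ∧
        h i (q i).2 ≠ 0 ∧ h i (q i).2 *ᵥ (fun p => zk (l i).1 (w i p)) = 0 := by
  choose h y u k h1 h2 h3 h4 h5 h6 h7 using fun i => spec_loc (hs i)
  have a1 : Mem S.PB fun i => zM ℂ (d i) :=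
    Mem.bd d (C := 1) (.of_forall fun i => by simpa using hd i)
  have a2 : ∀ᶠ i in S.Bg, Commute (zM ℂ a) (zM ℂ (d i)) := by
    refine exact_eq (A := fun i => zM ℂ a * zM ℂ (d i)) (B := fun i => zM ℂ (d i) * zM ℂ a)
      ((Mem.int a).mul a1) (a1.mul (Mem.int a)) (hc.mono fun x hx => ?_)
    obtain ⟨ψ⟩ := Pool.Agent.M4.Det.nonempty_equiv x.2.1
    obtain ⟨g, hg⟩ := red_T2 hx.2
    have c : Commute (zM (kk x.2.1) a) (zM (kk x.2.1) (d x.1)) := hg ▸ (Fk F x.2).z.comm_a2 _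
    exact ⟨ψ, _, (Rd.int a).mul (Rd.int _), c.eq ▸ (Rd.int _).mul (Rd.int a)⟩
  have a3 : ∀ i, IsUnit (zM ℂ (d i)) := fun i => unit_zM (hμ i).2 (by exact_mod_cast (hμ i).1.ne')
  have a4 : ∀ i t, ![rd (l i).1 (u i), 1, 1] t ≠ 0 := fun i t => by
    fin_cases t
    · exact h4 i
    · exact one_ne_zero
    · exact one_ne_zero
  refine ⟨fun i => (((l i).1 ^ k i : ℕ) : ℂ) • (zM ℂ (d i))⁻¹, fun i t => (h i t).map (rd _),
    fun i => ![rd (l i).1 (u i), 1, 1], ⟨a1, hc.mono fun x hx ψ => ?_,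
      a2.mono fun i c => ⟨c, bl_D (h1 i), h5 i⟩⟩,
    ⟨a1.inv.smul (Sc.pb_nat _ (C := 2 * 2) (.of_forall fun i => ?_)), hc.mono fun x hx => ?_,
      a2.mono fun i c => ⟨(comm_inv c (a3 i)).smul_right _, bl_V (h1 i) (h2 i) (h3 i) c (a3 i),
        fun t ht => ?_⟩⟩, fun i => ⟨a4 i, h6 i, h7 i⟩⟩
  · obtain ⟨g, hg⟩ := red_T2 hx.2
    exact ⟨g, hg ▸ Rd.int _⟩
  · rw [pow_mul]
    exact (Nat.pow_le_pow_right (l i).2.1.pos (h2 i)).trans (Nat.pow_le_pow_left (hl i) 2)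
  · refine Cu.nat (fun ψ => ?_) _
    obtain ⟨g, hg⟩ := red_T2 hx.2
    have c : IsUnit (zM (kk x.2.1) (d x.1)) := unit_zM (hμ x.1).2
      fun c => hx.1 ((CharP.cast_eq_zero_iff _ _ _).1 c)
    have c' := ((Rd.int (φ := ψ) (d x.1)).inv c).2
    rw [show (d x.1).map Int.cast = (Fk F x.2).T2 g from hg, T2_inv _ (hg ▸ c)] at c'
    exact ⟨_, c'⟩
  · rw [det_smul, det_adjugate]
    exact mul_ne_zero (pow_ne_zero _ (a4 i t)) (pow_ne_zero _ (h5 i t ht))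

end glob

theorem wrd (F : Frs e a b L l₁) (S : Sc L l₁ I) (l : I → GP L l₁)
    (φ : ∀ i, ℂ ≃+* PadicAlgCl (l i).1) (q : I → Fin e × Fin 3) (d : I → Fin 3 → MZ)
    (μ : I → Fin 3 → ℕ) (w : ∀ i, Fin 3 → Fin 2 → ZMod (l i).1)
    (hl : ∀ i, (l i).1 ≤ S.M i ^ 2) (hd : ∀ i j p p', (d i j p p').natAbs ≤ S.M i)
    (hμ : ∀ i j, 0 < μ i j ∧ M4.Sim (zr (d i j)) (μ i j))
    (hc : ∀ᶠ x in S.AE, ∀ j, ¬ x.2.1 ∣ μ x.1 j ∧
      ∃ h, zM (ZMod x.2.1) (d x.1 j) = (F.red x.2).T2 h)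
    (hs : ∀ i j, Spec F (l i) (q i) (d i j) (w i j))
    (hw : ∀ i j j', j ≠ j' → wd (w i j) (w i j') ≠ 0) :
    ∃ (γ : Fin 2 → I → Matrix ν ν ℂ) (h : Fin 2 → ∀ i, Fin 3 → M2 (kk (l i).1)),
      (∀ j, Mem S.PB (γ j)) ∧ (∀ j, ∀ᶠ x in S.AE, Cu F x.2 (γ j x.1)) ∧
      (∀ j, ∀ᶠ i in S.Bg, Commute (zM ℂ a) (γ j i) ∧ Bl F (l i) (φ i) (q i).1 (γ j i) (h j i) ∧
        ∀ t, t ≠ (q i).2 → (h j i t).det ≠ 0) ∧
      ∀ i, Tw (h 0 i (q i).2) (h 1 i (q i).2) := by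
  choose V h c hD hV H using fun j => ok_DV (φ := φ) (d := fun i => d i j) (μ := fun i => μ i j)
    (w := fun i => w i j) hl (fun i => hd i j) (fun i => hμ i j) (hc.mono fun _ hx => hx j)
    fun i => hs i j
  choose o β β' ho using fun i => words (fun j => h j i (q i).2)
    (fun j p => zk (l i).1 (w i j p)) (fun j => (H j i).2.1) (fun j => (H j i).2.2)
    fun j j' hj c => hw i j j' hj ((zk (l i).1).injective (by
      rw [map_zero, ← c, wd, wd, map_sub, map_mul, map_mul]))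
  have a1 : ∀ o : Option (Fin 3), Ok F S l φ q (fun i => o.elim 1 (V · i))
      fun i t => o.elim 1 fun j => c j i t • adjugate (h j i t) := fun o => by
    cases o with
    | none => exact Ok.one
    | some j => exact hV j
  have a2 : ∀ j : Fin 2, _ := fun j => (Ok.choice a1 o).mul (Ok.choice hD (![β, β'] j))
  exact ⟨_, _, fun j => (a2 j).pb, fun j => (a2 j).cu, fun j => (a2 j).bl,
    fun i => ho i _ fun j => (H j i).1 _⟩

end MG.RS
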