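import Pool.Agent.Lib.MP_33b3f9_ag.MG.RS.Prj
import Pool.Agent.Lib.MP_33b3f9_ag.MG.RS.Wrd
import Pool.Agent.Lib.MP_33b3f9_ag.MG.RS.Unit
import Pool.Agent.Lib.MP_33b3f9_ag.MG.RS.MuR
import Pool.Agent.Lib.MP_33b3f9_ag.MG.RS.DqE

/-!
Three special lines give a rational slot algebra.
-/

set_option autoImplicit false

noncomputable section

namespace MG

open Matrix Filter Pool.Agent.M4.Mx

namespace RS

variable {L : Type} [Field L] {l₁ : ℕ} {I : Type}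

theorem card_le_of_dvd {Y N k : ℕ} (hY : 2 ≤ Y) (A : Finset (GP L l₁))
    (h : ∀ l ∈ A, Y < l.1 ∧ l.1 ∣ N) (h0 : 0 < N) (hk : N ≤ Y ^ k) : A.card ≤ k := by
  have h1 := Finset.prod_primes_dvd (s := A.map ⟨fun l => l.1, Subtype.val_injective⟩) N
    (by simpa using fun l _ => l.2.1.prime) (by simpa using fun l hl => (h l hl).2)
  rw [Finset.prod_map] at h1
  exact (Nat.pow_le_pow_iff_right hY).1 ((Finset.pow_card_le_prod A _ Y
    fun l hl => (h l hl).1.le).trans ((Nat.le_of_dvd h0 h1).trans hk))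

theorem Tw.ne {k : Type} [Field k] {y y' : M2 k} (h : Tw y y') :
    y.trace⁻¹ • y * y'.trace⁻¹ • y' * (1 - y.trace⁻¹ • y) ≠ 0 := by
  rw [show 1 - y.trace⁻¹ • y = y.trace⁻¹ • (y.trace • 1 - y) by
    rw [smul_sub, inv_smul_smul₀ h.t], smul_mul_smul_comm, smul_mul_smul_comm]
  exact smul_ne_zero (mul_ne_zero (mul_ne_zero (inv_ne_zero h.t) (inv_ne_zero h.t'))
    (inv_ne_zero h.t)) h.n

variable [Dim] {e : ℕ} {a b : MZ} {m n : ℕ}

theorem mu (hP : PEL e a b m n) (z : MorD e a b ℂ) (F : Frs e a b L l₁) (S : Sc L l₁ I)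
    (l : I → GP L l₁) (q : I → Fin e × Fin 3) (d : I → Fin 3 → MZ)
    (μ : I → Fin 3 → ℕ) (w : ∀ i, Fin 3 → Fin 2 → ZMod (l i).1)
    (hl : ∀ i, (l i).1 ≤ S.M i ^ 2) (hd : ∀ i j p p', (d i j p p').natAbs ≤ S.M i)
    (hμ : ∀ i j, 0 < μ i j ∧ M4.Sim (zr (d i j)) (μ i j))
    (hc : ∀ᶠ x in S.AE, ∀ j, ¬ x.2.1 ∣ μ x.1 j ∧
      ∃ h, zM (ZMod x.2.1) (d x.1 j) = (F.red x.2).T2 h)
    (hs : ∀ i j, Spec F (l i) (q i) (d i j) (w i j))
    (hw : ∀ i j j', j ≠ j' → wd (w i j) (w i j') ≠ 0) :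
    ∃ E : I → Fin 2 → Fin 2 → Matrix ν ν ℂ, (∀ p q, Mem S.PB fun i => E i p q) ∧
      (∀ᶠ i in S.Bg, MU z (E i)) ∧ ∀ᶠ x : I × GP L l₁ in S.AE, Red F x.2 (E x.1) := by
  have φ : ∀ i, ℂ ≃+* PadicAlgCl (l i).1 := fun i =>
    (Pool.Agent.M4.Det.nonempty_equiv (l i).1).some
  obtain ⟨γ, h, a1, a2, a3, a4⟩ := wrd F S l φ q d μ w hl hd hμ hc hs hw
  obtain ⟨X, b1, b2, b3⟩ := prj hP F S l φ q (γ 0) (h 0) (a1 0) (a2 0) (a3 0)
    fun i => ⟨(a4 i).d, (a4 i).t⟩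
  obtain ⟨X', c1, c2, c3⟩ := prj hP F S l φ q (γ 1) (h 1) (a1 1) (a2 1) (a3 1)
    fun i => ⟨(a4 i).d', (a4 i).t'⟩
  obtain ⟨E, e1, e2, e3⟩ := units F S l φ q
    (fun i => (Fc F (l i) (φ i)).z.em (Pi.single (q i).1 1)) X X' _ _
    (pb_em hP S (fun i => (Fc F (l i) (φ i)).z) fun i => (q i).1) b1 c1
    ((b2.and c2).mono fun i hi => ⟨by
      rw [U_one, em_single, em_single]
      exact (rd_bk (Fo F (l i)) _ 0 Rd.one).add (rd_bk (Fo F (l i)) _ 1 Rd.one),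
      hi.1, hi.2, (a4 i).ne⟩) b3 c3
  exact ⟨E, e1, mu_of_red z F S E e1 (.of_forall fun i => e2 i ▸ exists_em z _ hP _) e3, e3⟩

/-- The data of three special lines. -/
structure Dt (F : Frs e a b L l₁) where
  /-- the size of the primes -/
  Y : ℕ
  /-- the exponent -/
  x : ℕ
  /-- the good primes -/
  LY : Finset (GP L l₁)
  /-- the special prime -/
  l : GP L l₁
  /-- the slot -/
  q : Fin e × Fin 3
  /-- the similitudes -/
  d : Fin 3 → MZ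
  /-- the multipliers -/
  μ : Fin 3 → ℕ
  /-- the lines -/
  w : Fin 3 → Fin 2 → ZMod l.1
  two : 2 ≤ Y ^ x
  hl : l.1 ≤ (Y ^ x) ^ 2
  hd : ∀ j p p', (d j p p').natAbs ≤ Y ^ x
  hμ : ∀ j, 0 < μ j ∧ M4.Sim (zr (d j)) (μ j)
  hc : ∀ l' ∈ LY, ∀ j, ¬ l'.1 ∣ μ j ∧ ∃ h, zM (ZMod l'.1) (d j) = (F.red l').T2 h
  hs : ∀ j, Spec F l q (d j) (w j)
  hw : ∀ j j', j ≠ j' → wd (w j) (w j') ≠ 0

end RS

variable [Dim] {e : ℕ} {a b : MZ} {m n : ℕ} {L : Type} [Field L] {l₁ : ℕ}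

/-- A larger height. -/
def SA.mono {z : MorD e a b ℂ} {F : Frs e a b L l₁} {LM : Finset (GP L l₁)} {H H' : ℕ}
    (A : SA z F LM H) (h : H ≤ H') : SA z F LM H' :=
  { A with
    ψ_le := fun s t p q i j => (A.ψ_le s t p q i j).trans (Nat.cast_le.2 h)
    B_le := fun k s t p q => (A.B_le k s t p q).trans (Nat.cast_le.2 h)
    repr_le := fun k s t p q => (A.repr_le k s t p q).trans (Nat.cast_le.2 h)
    m_le := A.m_le.trans h }

open RS in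
theorem rs (hP : PEL e a b m n) (z : MorD e a b ℂ) (F : Frs e a b L l₁) : RSst z F := by
  let S : Sc L l₁ (Dt F) := ⟨fun i => i.Y ^ i.x, fun i => i.LY, fun i => i.two⟩
  obtain ⟨E, e1, e2, e3⟩ := mu hP z F S (fun i => i.l) (fun i => i.q) (fun i => i.d) (fun i => i.μ)
    (fun i => i.w) (fun i => i.hl) (fun i => i.hd) (fun i => i.hμ)
    (Sc.ae_mem.mono fun x hx => x.1.hc x.2 hx) (fun i => i.hs) fun i => i.hw
  obtain ⟨C, C', h⟩ := dq hP z F S E e1 e2 e3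
  refine ⟨C + C' + 3, fun Y x LY hY hx hL hc l hl q d w h1 h2 h3 => ?_⟩
  choose μ Ex m1 m2 m3 m4 using fun j => (h1 j).ex
  have a1 : Y ≤ Y ^ x := Nat.le_self_pow (by omega) Y
  have a2 : LY.card ≤ (LY \ Finset.univ.biUnion Ex).card + 3 * x := by
    have := Finset.card_biUnion_le_card_mul Finset.univ Ex x fun j _ => m3 j
    rw [Finset.card_univ, Fintype.card_fin] at this
    exact Finset.card_le_card_sdiff_add_card.trans (Nat.add_le_add_left this _)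
  have a3 : ∀ l' ∈ LY \ Finset.univ.biUnion Ex, Y < l'.1 := fun l' hl' =>
    (hL l' (Finset.mem_sdiff.1 hl').1).1
  obtain ⟨N, n1, n2, ⟨A⟩⟩ := h ⟨Y, x, LY \ Finset.univ.biUnion Ex, l, q, d, μ, w, hY.trans a1,
    (hL l hl).2.trans (by nlinarith), fun j => (h1 j).bd, fun j => ⟨m1 j, m2 j⟩,
    fun l' hl' j => m4 j l' (Finset.mem_sdiff.1 hl').1 fun c => (Finset.mem_sdiff.1 hl').2
      (Finset.mem_biUnion.2 ⟨j, Finset.mem_univ j, c⟩), h2, h3⟩ fun N n1 n2 => by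
    by_contra c
    have := card_le_of_dvd hY (LY \ Finset.univ.biUnion Ex) (fun l' hl' => ⟨a3 l' hl',
      by_contra fun c' => c ⟨l', hl', c'⟩⟩) n1 (n2.trans_eq (pow_mul Y x C').symm)
    nlinarith
  have a4 := card_le_of_dvd hY ((LY \ Finset.univ.biUnion Ex).filter fun l' => l'.1 ∣ N)
    (fun l' hl' => ⟨a3 l' (Finset.mem_filter.1 hl').1, (Finset.mem_filter.1 hl').2⟩) n1
    (n2.trans_eq (pow_mul Y x C).symm)
  have a5 := Finset.card_filter_add_card_filter_not (s := LY \ Finset.univ.biUnion Ex)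
    fun l' => l'.1 ∣ N
  refine ⟨(LY \ Finset.univ.biUnion Ex).filter fun l' => ¬ l'.1 ∣ N,
    (Finset.filter_subset _ _).trans Finset.sdiff_subset, by nlinarith, ⟨A.mono ?_⟩⟩
  exact (pow_mul Y x C).symm.trans_le (Nat.pow_le_pow_right (by omega) (by nlinarith))

end MG
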