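import Pool.Agent.Lib.MP_33b3f9_ag.MG.RS.Slot

/-!
The projectors on the blocks do not depend on the frame.
-/

set_option autoImplicit false

noncomputable section

namespace MG.RS

open Matrix Polynomial Pool.Agent.M4.Mx

variable [Dim] {e : ℕ} {a b : MZ} {m n : ℕ}

section ring

variable {R R' : Type} [CommRing R] [CommRing R'] (z : MorD e a b R)

/-- The matrix `x` in the block `s` with the sign `c`. -/
def bk (s : Fin e) (c : Fin 2) (x : M8 R) : Matrix ν ν R := z.em2 (Pi.single s (Pi.single c x))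

theorem bk_map (φ : R →+* R') (s : Fin e) (c : Fin 2) (x : M8 R) :
    (bk z s c x).map φ = bk (z.map φ) s c (x.map φ) := by
  rw [bk, Mor.map_em2]
  refine congrArg (z.map φ).em2 ?_
  funext t d
  by_cases ht : t = s
  · subst ht
    by_cases hd : d = c
    · subst hd
      simp
    · simp [hd]
  · simp [ht]

theorem bk_mul_em2 (s : Fin e) (c : Fin 2) (y : M8 R) (x : Fin e → Fin 2 → M8 R) :
    bk z s c y * z.em2 x = bk z s c (y * x s c) := by
  rw [bk, bk, ← map_mul]
  refine congrArg z.em2 ?_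
  funext t d
  by_cases ht : t = s
  · subst ht
    by_cases hd : d = c
    · subst hd
      simp
    · simp [hd]
  · simp [ht]

theorem bk_mul {g : Matrix ν ν R} (h : Commute (zM R a) g) (s : Fin e) (c : Fin 2) :
    bk z s c 1 * g = bk z s c (z.pr2 g s c) := by
  conv_lhs => rw [← z.em2_pr2 h, bk_mul_em2, Matrix.one_mul]

theorem em_single (s : Fin e) (x : M8 R) :
    z.em (Pi.single s x) = bk z s 0 x + bk z s 1 x := by
  rw [bk, bk, ← map_add, Mor.em_eq]
  refine congrArg z.em2 ?_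
  funext t d
  by_cases ht : t = s
  · subst ht
    fin_cases d <;> simp
  · simp [ht]

theorem a_mul_bk (s : Fin e) (c : Fin 2) (x : M8 R) :
    zM R a * bk z s c x = z.ζ s c • bk z s c x ∧ bk z s c x * zM R a = z.ζ s c • bk z s c x := by
  rw [bk, ← (z.comm_a2 _).eq, and_self, z.a_eq2, ← map_mul, ← map_smul]
  refine congrArg z.em2 ?_
  funext t d
  by_cases ht : t = s
  · subst ht
    by_cases hd : d = c
    · subst hd
      simp
    · simp [hd]
  · simp [ht]

theorem sum_bk : ∑ p : Fin e × Fin 2, bk z p.1 p.2 1 = 1 := by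
  simp only [bk, ← map_sum, Fintype.sum_prod_type]
  rw [← map_one z.em2]
  refine congrArg z.em2 ?_
  rw [← Finset.univ_sum_single (1 : Fin e → Fin 2 → M8 R)]
  refine Finset.sum_congr rfl fun s _ => ?_
  rw [← Finset.univ_sum_single ((1 : Fin e → Fin 2 → M8 R) s)]
  exact (map_sum (LinearMap.single R (fun _ : Fin e => Fin 2 → M8 R) s) _ _).symm

theorem bk_mul_eig {s s' : Fin e} {c c' : Fin 2} {G : Matrix ν ν R}
    (h : zM R a * G = z.ζ s c • G) (hs : (s', c') ≠ (s, c)) : bk z s' c' 1 * G = 0 := by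
  refine (z.sep s' c' s c hs).smul_left_cancel.1 ?_
  rw [smul_zero, sub_smul, ← Matrix.smul_mul, ← (a_mul_bk z s' c' 1).2, Matrix.mul_assoc, h,
    Matrix.mul_smul, sub_self]

theorem eig_mul_bk {s s' : Fin e} {c c' : Fin 2} {G : Matrix ν ν R}
    (h : G * zM R a = z.ζ s c • G) (hs : (s', c') ≠ (s, c)) : G * bk z s' c' 1 = 0 := by
  refine (z.sep s' c' s c hs).smul_left_cancel.1 ?_
  rw [smul_zero, sub_smul, ← Matrix.mul_smul, ← (a_mul_bk z s' c' 1).1, ← Matrix.mul_assoc, h,
    Matrix.smul_mul, sub_self]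

theorem bk_mul_of {s : Fin e} {c : Fin 2} {G : Matrix ν ν R} (h : zM R a * G = z.ζ s c • G) :
    bk z s c 1 * G = G := by
  conv_rhs => rw [← Matrix.one_mul G, ← sum_bk z, Matrix.sum_mul]
  exact (Finset.sum_eq_single (s, c) (fun p _ hp => bk_mul_eig z h hp) (by simp)).symm

theorem mul_bk_of {s : Fin e} {c : Fin 2} {G : Matrix ν ν R} (h : G * zM R a = z.ζ s c • G) :
    G * bk z s c 1 = G := by
  conv_rhs => rw [← Matrix.mul_one G, ← sum_bk z, Matrix.mul_sum]
  exact (Finset.sum_eq_single (s, c) (fun p _ hp => eig_mul_bk z h hp) (by simp)).symm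

theorem bk_eq_of (z' : MorD e a b R) {s s' : Fin e} {c c' : Fin 2} (h : z'.ζ s' c' = z.ζ s c) :
    bk z' s' c' 1 = bk z s c 1 :=
  (bk_mul_of z (h ▸ (a_mul_bk z' s' c' 1).1)).symm.trans
    (mul_bk_of z' (h ▸ (a_mul_bk z s c 1).2))

theorem bk_inj (s : Fin e) (c : Fin 2) {x y : M8 R} (h : bk z s c x = bk z s c y) : x = y := by
  simpa using congrFun (congrFun (z.em2_inj h) s) c

theorem zeta_mul (hP : PEL e a b m n) (s : Fin e) (c : Fin 2) : z.ζ s c.rev * z.ζ s c = m := by
  have h1 := (hP.rel R).1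
  rw [z.a_eq2, ← Matrix.mul_one (J ι R), ← Matrix.mul_smul, ← map_one z.em2, ← map_smul,
    map_one, Matrix.mul_one] at h1
  have h2 := congrFun (congrFun ((z.form_iff2 _ _ _).1 h1 s c) (.inr 0)) (.inl 0)
  simpa [J, mul_comm] using h2

theorem adj_eq (hP : PEL e a b m n) :
    zM R (adj a) = z.em2 fun s c => z.ζ s c.rev • (1 : M8 R) := by
  have h1 : IsUnit (zM R a) := by
    rw [z.a_eq2]
    refine IsUnit.map _ (Pi.isUnit_iff.2 fun s => Pi.isUnit_iff.2 fun c => ?_)
    rw [← Algebra.algebraMap_eq_smul_one]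
    exact (z.uz s c).map _
  refine h1.mul_right_cancel ?_
  rw [(hP.rel R).2.2.2.2]
  conv_rhs => rw [z.a_eq2, ← map_mul]
  rw [← map_one z.em2, ← map_smul]
  refine congrArg z.em2 ?_
  funext s c
  simp [smul_smul, mul_comm (z.ζ s c), zeta_mul z hP]

theorem beta_diag (hP : PEL e a b m n) (s : Fin e) (c : Fin 2) : z.β s c c = 0 := by
  have h1 := (hP.rel R).2.2.2.1
  rw [adj_eq z hP, z.a_eq2, z.b_eq, Mor.em2_apply, Mor.em2_apply, ← map_mul, ← map_mul] at h1
  have h2 := congrFun (congrFun (congrFun (z.bm_inj h1) s) (.inl 0, c)) (.inl 0, c)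
  simp only [Pi.mul_apply, smul_one_eq_diagonal, blockDiagonal_diagonal, mul_diagonal,
    diagonal_mul, kroneckerMap_apply, one_apply_eq, one_mul] at h2
  refine (z.sep s c s c.rev (by fin_cases c <;> simp)).mul_right_eq_zero.1 ?_
  linear_combination h2

theorem b_mul_bk (hP : PEL e a b m n) (s : Fin e) (c : Fin 2) (x : M8 R) :
    zM R b * bk z s c x = bk z s c.rev x * zM R b := by
  rw [z.b_eq, bk, bk, Mor.em2_apply, Mor.em2_apply, ← map_mul, ← map_mul]
  refine congrArg z.bm ?_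
  funext t
  by_cases ht : t = s
  · subst ht
    have h0 := beta_diag z hP t 0
    have h1 := beta_diag z hP t 1
    ext ⟨i, p⟩ ⟨j, q⟩
    fin_cases c <;> fin_cases p <;> fin_cases q <;>
      simp [Matrix.mul_apply, Fintype.sum_prod_type, blockDiagonal_apply, one_apply, h0, h1,
        mul_comm]
  · simp [ht]

end ring

section field

variable {k : Type} [Field k] (z z' : MorD e a b k)

theorem exists_zeta (s' : Fin e) (c' : Fin 2) : ∃ s c, z'.ζ s' c' = z.ζ s c := by
  by_contra hc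
  have h : ∀ p : Fin e × Fin 2, bk z p.1 p.2 1 * bk z' s' c' 1 = 0 := fun p => by
    refine (smul_eq_zero_iff_right (sub_ne_zero.2 fun e => hc ⟨p.1, p.2, e⟩)).1 ?_
    rw [sub_smul, ← Matrix.mul_smul, ← (a_mul_bk z' s' c' 1).1, ← Matrix.mul_assoc,
      (a_mul_bk z p.1 p.2 1).2, Matrix.smul_mul, sub_self]
  have h1 : bk z' s' c' 1 = bk z' s' c' 0 := by
    rw [← Matrix.one_mul (bk z' s' c' 1), ← sum_bk z, Matrix.sum_mul, Finset.sum_eq_zero
      fun p _ => h p, bk, Pi.single_zero, Pi.single_zero, map_zero]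
  exact one_ne_zero (bk_inj z' s' c' h1)

theorem em_eq_of (hP : PEL e a b m n) {s s' : Fin e} {c c' : Fin 2}
    (h : z'.ζ s' c' = z.ζ s c) : z'.em (Pi.single s' 1) = z.em (Pi.single s 1) := by
  have h1 : z'.ζ s' c'.rev = z.ζ s c.rev := mul_right_cancel₀ (z.uz s c).ne_zero (by
    rw [zeta_mul z hP, ← h, zeta_mul z' hP])
  have h2 : ∀ (w : MorD e a b k) s (c : Fin 2),
      w.em (Pi.single s 1) = bk w s c 1 + bk w s c.rev 1 := fun w s c => by
    rw [em_single]
    fin_cases c <;> simp [add_comm]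
  rw [h2 z' s' c', h2 z s c, bk_eq_of z z' h, bk_eq_of z z' h1]

theorem exists_em (hP : PEL e a b m n) (s' : Fin e) :
    ∃ s, z'.em (Pi.single s' 1) = z.em (Pi.single s 1) := by
  obtain ⟨s, c, h⟩ := exists_zeta z z' s' 0
  exact ⟨s, em_eq_of z z' hP h⟩

theorem em_one_inj {s s' : Fin e} (h : z.em (Pi.single s 1) = z.em (Pi.single s' 1)) :
    s = s' := by
  by_contra hc
  simpa [hc] using congrFun (z.em_inj h) s

end field

theorem map_em_one (hP : PEL e a b m n) (z : MorD e a b ℂ) (θ : ℂ ≃+* ℂ) (s : Fin e) :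
    ∃ s', (z.em (Pi.single s 1)).map θ = z.em (Pi.single s' 1) := by
  obtain ⟨s', h⟩ := exists_em z (z.map θ.toRingHom) hP s
  refine ⟨s', (em_single_map z.toMor θ.toRingHom s 1).trans ?_⟩
  rw [Matrix.map_one _ (map_zero _) (map_one _)]
  exact h

end MG.RS
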