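import Pool.Agent.Lib.MP_33b3f9_ag.MG.RS.Blk

/-!
Conjugates of a system of matrix units.
-/

set_option autoImplicit false

noncomputable section

namespace MG.RS

open Matrix Pool.Agent.M4.Mx

variable [Dim] {e : ℕ} {a b : MZ} {m n : ℕ} {z : MorD e a b ℂ}
  {E : Fin 2 → Fin 2 → Matrix ν ν ℂ}

omit [Dim] in
theorem map_symm_map {o : Type} (θ : ℂ ≃+* ℂ) (x : Matrix o o ℂ) : (x.map θ.symm).map θ = x := by
  ext i j
  simp

omit [Dim] in
theorem map_map_symm {o : Type} (θ : ℂ ≃+* ℂ) (x : Matrix o o ℂ) : (x.map θ).map θ.symm = x := by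
  ext i j
  simp

theorem cj_cj (θ τ : ℂ ≃+* ℂ) (E : Fin 2 → Fin 2 → Matrix ν ν ℂ) :
    cj τ (cj θ E) = cj (θ.trans τ) E := rfl

theorem cj_refl (E : Fin 2 → Fin 2 → Matrix ν ν ℂ) : cj (RingEquiv.refl ℂ) E = E := rfl

theorem lin_cj' (θ : ℂ ≃+* ℂ) (E : Fin 2 → Fin 2 → Matrix ν ν ℂ) (x : M2 ℂ) :
    lin (cj θ E) x = (lin E (x.map θ.symm)).map θ := by rw [lin_cj, map_symm_map]

theorem zM_aut (θ : ℂ ≃+* ℂ) (g : MZ) : (zM ℂ g).map θ = zM ℂ g := zM_map θ.toRingHom g

theorem J_aut (θ : ℂ ≃+* ℂ) : (J ι ℂ).map θ = J ι ℂ := map_J ι θ.toRingHom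

theorem comm_aut {x y : Matrix ν ν ℂ} (h : Commute x y) (θ : ℂ ≃+* ℂ) :
    Commute (x.map θ) (y.map θ) := h.map θ.toRingHom.mapMatrix

namespace MU

theorem lin_ca (h : MU z E) (x : M2 ℂ) : Commute (zM ℂ a) (lin E x) :=
  Commute.sum_right _ _ _ fun p _ => Commute.sum_right _ _ _ fun q _ => (h.ca p q).smul_right _

theorem lin_cb (h : MU z E) (x : M2 ℂ) : Commute (zM ℂ b) (lin E x) :=
  Commute.sum_right _ _ _ fun p _ => Commute.sum_right _ _ _ fun q _ => (h.cb p q).smul_right _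

theorem one_ne (h : MU z E) : lin E 1 ≠ 0 := by
  obtain ⟨s, hs⟩ := h.blk
  rw [hs, ← map_zero z.em, ← Pi.single_zero s]
  exact fun c => one_ne_zero (em_single_inj z.toMor s c)

theorem inj (h : MU z E) : Function.Injective (lin E) := by
  refine (injective_iff_map_eq_zero _).2 fun x hx => ?_
  ext p q
  have h1 : ∀ r, single r p (1 : ℂ) * x * single q r 1 = x p q • single r r 1 := fun r => by
    rw [single_mul_mul_single, smul_single]
    simp
  have h2 : x p q • (1 : M2 ℂ) = ∑ r, single r p (1 : ℂ) * x * single q r 1 := by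
    simp only [h1, ← Finset.smul_sum, sum_single_one]
  have h3 := congrArg (lin E) h2
  simp only [map_sum, map_smul, ← h.mul, hx, Matrix.mul_zero, Matrix.zero_mul,
    Finset.sum_const_zero] at h3
  exact (smul_eq_zero_iff_left h.one_ne).1 h3

theorem cj (hP : PEL e a b m n) (h : MU z E) (θ : ℂ ≃+* ℂ) : MU z (cj θ E) where
  ca p q := zM_aut θ a ▸ comm_aut (h.ca p q) θ
  cb p q := zM_aut θ b ▸ comm_aut (h.cb p q) θ
  mul x y := by
    rw [lin_cj', lin_cj', lin_cj', ← Matrix.map_mul, h.mul, Matrix.map_mul]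
  blk := by
    obtain ⟨s, hs⟩ := h.blk
    rw [lin_cj', Matrix.map_one _ (map_zero _) (map_one _), hs]
    exact map_em_one hP z θ s
  adj x := by
    have h1 := congrArg (·.map θ) (h.adj (x.map θ.symm))
    simp only [Matrix.map_mul, J_aut, transpose_map] at h1
    rw [lin_cj', lin_cj', h1]
    exact congrArg (fun t => J ι ℂ * (lin E t).map θ)
      (RingHom.map_adjugate θ.symm.toRingHom x).symm
  dich τ := by
    have e1 : ∀ x, lin (RS.cj τ (RS.cj θ E)) x =
        (lin (RS.cj ((θ.trans τ).trans θ.symm) E) (x.map θ.symm)).map θ := fun x => by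
      rw [← lin_cj', cj_cj, cj_cj, show ((θ.trans τ).trans θ.symm).trans θ = θ.trans τ from
        RingEquiv.ext fun t => by simp]
    refine (h.dich ((θ.trans τ).trans θ.symm)).imp (fun h1 x => ?_) fun h1 x y => ?_
    · obtain ⟨y, hy⟩ := h1 (x.map θ.symm)
      exact ⟨y.map θ, by rw [e1, hy, lin_cj]⟩
    · rw [e1, lin_cj' θ E y]
      exact comm_aut (h1 _ _) θ

end MU

theorem Rd.lin {l : ℕ} [Fact l.Prime] {φ : ℂ ≃+* PadicAlgCl l}
    {u : Fin 2 → Fin 2 → Matrix ν ν (kk l)} (h : ∀ p q, Rd φ (E p q) (u p q)) (x : M2 (OO l)) :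
    Rd φ (lin E (x.map (up φ))) (RS.lin u (x.map (rd l))) := by
  rw [lin_apply, lin_apply]
  exact Rd.sum _ fun p _ => Rd.sum _ fun q _ => (h p q).smul (x p q)

theorem lin_comp {R : Type} [CommRing R] (f : M2 R →ₗ[R] Matrix ν ν R) (x : M2 R) :
    lin (fun p q => f (single p q 1)) x = f x := by
  conv_rhs => rw [matrix_eq_sum_single x]
  simp only [lin_apply, map_sum, ← map_smul, smul_single, smul_eq_mul, mul_one]

theorem Red.cj {L : Type} [Field L] {l₁ : ℕ} {F : Frs e a b L l₁} {l : GP L l₁} (h : Red F l E)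
    (θ : ℂ ≃+* ℂ) : Red F l (cj θ E) := fun φ => by
  obtain ⟨s, i, u, h⟩ := h (θ.trans φ)
  exact ⟨s, i, u, fun p q => (h p q).aut⟩

end MG.RS
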