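import Pool.Agent.Lib.MP_33b3f9_ag.M4.CmCubeA
import Pool.Agent.Lib.MP_33b3f9_ag.MG.RS.Mu

/-!
Faces of the cube of eigenvalues and the projectors attached to them.
-/

set_option autoImplicit false

noncomputable section

namespace MG.RS

open Matrix Polynomial Finset Function Pool.Agent.M4.Mx

theorem face (lam : κ ≃ κ) (f : Fin 3)
    (h : ∀ j j' i, lam j f = 0 → lam j' f = 0 → lam (update j i (j' i)) f = 0) :
    ∃ i c, ∀ j, lam j f = 0 ↔ j i = c := by
  obtain ⟨i, c, hc⟩ : ∃ i c, ∀ j, lam j f = 0 → j i = c := by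
    by_contra hc
    push Not at hc
    have h2 : ∀ c d : Fin 2, d ≠ c.rev → d = c := by decide
    have h3 : ∀ (i : Fin 3) (c : Fin 2), ∃ j, lam j f = 0 ∧ j i = c := fun i c =>
      (hc i c.rev).imp fun j hj => ⟨hj.1, h2 _ _ hj.2⟩
    choose w w1 w2 using fun i => h3 i (lam.symm (fun _ => 1) i)
    have h4 := h _ _ 2 (h _ _ 1 (w1 0) (w1 1)) (w1 2)
    rw [show update (update (w 0) 1 (w 1 1)) 2 (w 2 2) = lam.symm fun _ => 1 from
      funext fun i => by fin_cases i <;> simp [w2], Equiv.apply_symm_apply] at h4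
    exact absurd h4 (by decide)
  have h4 : ∀ (i : Fin 3) (c : Fin 2), (univ.filter fun j : κ => j i = c).card = 4 := by decide
  have h5 : (univ.filter fun j => lam j f = 0) = univ.filter fun j : κ => j i = c :=
    eq_of_subset_of_card_le (fun j hj => by simpa using hc j (by simpa using hj)) (by
      rw [h4, ← h4 f 0]
      exact (card_equiv lam (by simp)).ge)
  exact ⟨i, c, fun j => by simpa using congrArg (j ∈ ·) h5⟩

theorem cube_rel {R : Type} [CommRing R] (μ : Fin 3 → Fin 2 → R) (j j' : κ) (i : Fin 3) :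
    (∏ t, μ t (j t)) * ∏ t, μ t (j' t) =
      (∏ t, μ t (update j i (j' i) t)) * ∏ t, μ t (update j' i (j i) t) := by
  rw [← prod_mul_distrib, ← prod_mul_distrib]
  refine prod_congr rfl fun t _ => ?_
  by_cases ht : t = i
  · subst ht
    rw [update_self, update_self, mul_comm]
  · rw [update_of_ne ht, update_of_ne ht]

theorem exists_perm {α β : Type} [Fintype α] (f g : α → β)
    (h : univ.val.map f = univ.val.map g) : ∃ σ : α ≃ α, ∀ j, f (σ j) = g j := by
  classical
  have h1 : ∀ c, Fintype.card {j // g j = c} = Fintype.card {j // f j = c} := fun c => by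
    have := congrArg (Multiset.count c) h
    rw [Multiset.count_map, Multiset.count_map] at this
    simp only [Fintype.card_subtype, eq_comm (b := c)]
    exact this.symm
  exact ⟨Equiv.ofFiberEquiv fun c => Fintype.equivOfCardEq (h1 c),
    fun j => Equiv.ofFiberEquiv_map _ j⟩

/-- The polynomial with the roots `ρ j`, `j` in `A`. -/
def qq {R : Type} [CommRing R] (ρ : κ → R) (A : κ → Prop) [DecidablePred A] : R[X] :=
  ∏ j ∈ univ.filter A, (X - C (ρ j))

theorem qq_map {R R' : Type} [CommRing R] [CommRing R'] (φ : R →+* R') (ρ : κ → R)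
    (A : κ → Prop) [DecidablePred A] : (qq ρ A).map φ = qq (fun j => φ (ρ j)) A := by
  simp [qq, Polynomial.map_prod]

variable {k : Type} [Field k]

theorem unit_of_coprime {A : Type} [Ring A] [Algebra k A] (g : A) {p q : k[X]} (h : IsCoprime p q)
    (h0 : aeval g (p * q) = 0) : IsUnit (aeval g (p + q)) := by
  obtain ⟨u, v, h⟩ := h
  have h1 : (p + q) * (u ^ 2 * p + v ^ 2 * q) = 1 + (u - v) ^ 2 * (p * q) := by
    linear_combination (u * p + v * q + 1) * h
  have h2 := congrArg (aeval g) h1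
  have h3 := congrArg (aeval g) ((mul_comm _ _).trans h1)
  rw [map_mul, map_add (aeval g) 1, map_mul _ _ (p * q), h0, mul_zero, add_zero, map_one] at h2 h3
  exact ⟨⟨_, _, h2, h3⟩, rfl⟩

theorem comm_id {A : Type} [CommRing A] [Algebra k A] (y : Fin 3 → A) (μ : Fin 3 → Fin 2 → k)
    (hy : ∀ t, (y t - algebraMap k A (μ t 0)) * (y t - algebraMap k A (μ t 1)) = 0) (i : Fin 3)
    (c : Fin 2) : aeval (∏ t, y t) (qq (fun j => ∏ t, μ t (j t)) fun j => j i = c) *
      (y i - algebraMap k A (μ i c.rev)) = 0 := by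
  have h0 : (y i - algebraMap k A (μ i c)) * (y i - algebraMap k A (μ i c.rev)) = 0 := by
    fin_cases c
    · exact hy i
    · exact (mul_comm _ _).trans (hy i)
  have h1 : ∀ (s : Finset (Fin 2 × Fin 2)) (t : A) (u : Fin 2 × Fin 2 → A),
      (∏ p ∈ s, (y i * t - algebraMap k A (μ i c) * u p)) * (y i - algebraMap k A (μ i c.rev)) =
      (∏ p ∈ s, algebraMap k A (μ i c) * (t - u p)) * (y i - algebraMap k A (μ i c.rev)) := by
    intro s t u
    induction s using Finset.induction_on with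
    | empty => simp
    | insert p s hp ih =>
      rw [prod_insert hp, prod_insert hp, mul_assoc, ih]
      linear_combination (t * ∏ p ∈ s, algebraMap k A (μ i c) * (t - u p)) * h0
  have h2 : aeval (∏ t, y t) (qq (fun j => ∏ t, μ t (j t)) fun j => j i = c) =
      ∏ p : Fin 2 × Fin 2, (y i * (y (i.succAbove 0) * y (i.succAbove 1)) -
        algebraMap k A (μ i c) * (algebraMap k A (μ (i.succAbove 0) p.1) *
          algebraMap k A (μ (i.succAbove 1) p.2))) := by
    rw [qq, map_prod]
    refine (prod_bij (fun p _ => i.insertNth c ![p.1, p.2]) (by simp) (fun p _ q _ h => ?_)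
      (fun j hj => ?_) fun p _ => ?_).symm
    · have a1 := congrFun h (i.succAbove 0)
      have a2 := congrFun h (i.succAbove 1)
      simp only [Fin.insertNth_apply_succAbove] at a1 a2
      exact Prod.ext a1 a2
    · refine ⟨(j (i.succAbove 0), j (i.succAbove 1)), mem_univ _, ?_⟩
      rw [Fin.insertNth_eq_iff]
      exact ⟨(mem_filter.1 hj).2.symm, funext fun t => by fin_cases t <;> rfl⟩
    · simp only [map_sub, aeval_X, aeval_C, Fin.prod_univ_succAbove _ i, Fin.prod_univ_two,
        Fin.insertNth_apply_same, Fin.insertNth_apply_succAbove, map_mul]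
      rfl
  rw [h2, h1, prod_mul_distrib, prod_const, Fintype.prod_prod_type]
  simp only [Fin.prod_univ_two]
  clear h2
  have a1 := hy (i.succAbove 0)
  have a2 := hy (i.succAbove 1)
  generalize y (i.succAbove 0) = u, y (i.succAbove 1) = v,
    algebraMap k A (μ (i.succAbove 0) 0) = b0, algebraMap k A (μ (i.succAbove 0) 1) = b1,
    algebraMap k A (μ (i.succAbove 1) 0) = d0, algebraMap k A (μ (i.succAbove 1) 1) = d1 at *
  have e : ∀ d, (u * v - b0 * d) * (u * v - b1 * d) =
      (v - d) * ((b0 + b1) * u * v - b0 * b1 * (v + d)) := fun d => by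
    linear_combination v ^ 2 * a1
  have e2 : (u * v - b0 * d0) * (u * v - b0 * d1) * ((u * v - b1 * d0) * (u * v - b1 * d1)) = 0 :=
    by
    rw [mul_mul_mul_comm, e, e, mul_mul_mul_comm, a2, zero_mul]
  rw [e2, mul_zero, zero_mul]

theorem ch_two {x : M2 k} {α β : k} (h1 : α + β = x.trace) (h2 : α * β = x.det) :
    (x - α • 1) * (x - β • 1) = 0 := by
  rw [trace_fin_two] at h1
  rw [det_fin_two] at h2
  ext p q
  fin_cases p <;> fin_cases q <;> simp [Matrix.mul_apply, Fin.sum_univ_two]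
  · linear_combination h2 - x 0 0 * h1
  · linear_combination -x 0 1 * h1
  · linear_combination -x 1 0 * h1
  · linear_combination h2 - x 1 1 * h1

variable (f : Fr ω k) (h : Fin 3 → M2 k) (μ : Fin 3 → Fin 2 → k)

open scoped IsMulCommutative in
theorem mat_id (h1 : ∀ t, μ t 0 + μ t 1 = (h t).trace) (h2 : ∀ t, μ t 0 * μ t 1 = (h t).det)
    (i : Fin 3) (c : Fin 2) : aeval (f.T h) (qq (fun j => ∏ t, μ t (j t)) fun j => j i = c) *
      f.u i (h i - μ i c.rev • 1) = 0 := by
  let y : Fin 3 → M8 k := fun t => f.u t (h t)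
  have := Algebra.isMulCommutative_adjoin k (s := Set.range y) (by
    rintro _ ⟨t, rfl⟩ _ ⟨t', rfl⟩
    by_cases ht : t = t'
    · rw [ht]
    · exact f.u_comm ht _ _)
  let Y : Fin 3 → Algebra.adjoin k (Set.range y) := fun t =>
    ⟨y t, Algebra.subset_adjoin ⟨t, rfl⟩⟩
  have e : ∀ t α, (Algebra.adjoin k (Set.range y)).val (Y t - algebraMap k _ α) =
      f.u t (h t - α • 1) := fun t α => by
    rw [map_sub, map_sub, AlgHom.commutes, ← Algebra.algebraMap_eq_smul_one, AlgHom.commutes]
    rfl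
  have h3 := congrArg (Algebra.adjoin k (Set.range y)).val (comm_id Y μ (fun t =>
    Subtype.val_injective (by
      refine (map_mul (Algebra.adjoin k (Set.range y)).val _ _).trans ?_
      rw [e, e, ← map_mul, ch_two (h1 t) (h2 t), map_zero]
      rfl)) i c)
  rw [map_mul, e, ← aeval_algHom_apply, Fin.prod_univ_three, map_mul, map_mul, map_zero] at h3
  rw [f.T_eq]
  exact h3

theorem proj (h1 : ∀ t, μ t 0 + μ t 1 = (h t).trace) (h2 : ∀ t, μ t 0 * μ t 1 = (h t).det)
    {i : Fin 3} {c : Fin 2} {r : κ → k} {A : κ → Prop} [DecidablePred A] (lam : κ ≃ κ)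
    (hr : ∀ j, r (lam j) = ∏ t, μ t (j t)) (hA : ∀ j, A (lam j) ↔ j i = c)
    (hs : ∀ j j', A j → ¬ A j' → r j ≠ r j') :
    IsUnit (aeval (f.T h) (qq r A + qq r fun j => ¬ A j)) ∧ ∃ x : M2 k, x * x = x ∧
      (μ i c - μ i c.rev) • x = h i - μ i c.rev • 1 ∧ aeval (f.T h) (qq r fun j => ¬ A j) =
        aeval (f.T h) (qq r A + qq r fun j => ¬ A j) * f.u i x := by
  have hc : ∀ d : Fin 2, ¬ d = c ↔ d = c.rev := (by decide : ∀ c d : Fin 2, ¬ d = c ↔ d = c.rev) c
  have e1 : qq r A = qq (fun j => ∏ t, μ t (j t)) fun j => j i = c :=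
    (prod_equiv lam (by simp [hA]) fun j _ => by rw [hr]).symm
  have e2 : (qq r fun j => ¬ A j) = qq (fun j => ∏ t, μ t (j t)) fun j => j i = c.rev :=
    (prod_equiv lam (by simp [hA, hc]) fun j _ => by rw [hr]).symm
  have hδ : μ i c - μ i c.rev ≠ 0 := fun e => by
    refine hs (lam (update 0 i c)) (lam (update 0 i c.rev)) (by simp [hA])
      (by simp [hA, hc]) ?_
    rw [hr, hr]
    refine prod_congr rfl fun t _ => ?_
    by_cases ht : t = i
    · subst ht
      rw [update_self, update_self, sub_eq_zero.1 e]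
    · rw [update_of_ne ht, update_of_ne ht]
  have h0 : (h i - μ i c • 1) * (h i - μ i c.rev • 1) = 0 := by
    refine ch_two ?_ ?_
    · fin_cases c
      · exact h1 i
      · exact (add_comm _ _).trans (h1 i)
    · fin_cases c
      · exact h2 i
      · exact (mul_comm _ _).trans (h2 i)
  obtain ⟨x, hx⟩ : ∃ x, (μ i c - μ i c.rev) • x = h i - μ i c.rev • 1 :=
    ⟨(μ i c - μ i c.rev)⁻¹ • _, smul_inv_smul₀ hδ _⟩
  have hx' : h i - μ i c • 1 = (μ i c - μ i c.rev) • (x - 1) := by
    rw [smul_sub, hx, sub_smul]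
    abel
  have a1 := mat_id f h μ h1 h2 i c
  have a2 := mat_id f h μ h1 h2 i c.rev
  rw [← e1, ← hx, map_smul, mul_smul_comm, smul_eq_zero_iff_right hδ] at a1
  rw [← e2, Fin.rev_rev, hx', map_smul, mul_smul_comm, smul_eq_zero_iff_right hδ, map_sub, map_one,
    mul_sub, mul_one, sub_eq_zero] at a2
  rw [hx', ← hx, smul_mul_smul_comm, smul_eq_zero_iff_right (mul_ne_zero hδ hδ), sub_mul, one_mul,
    sub_eq_zero] at h0
  refine ⟨unit_of_coprime _ (IsCoprime.prod_left fun j hj => IsCoprime.prod_right fun j' hj' =>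
    isCoprime_X_sub_C_of_isUnit_sub (sub_ne_zero.2 (hs j j' (mem_filter.1 hj).2
      (mem_filter.1 hj').2)).isUnit) ?_, x, h0, hx, by rw [map_add, add_mul, a1, a2, zero_add]⟩
  rw [map_mul, ← a2, ← mul_assoc, ← map_mul, mul_comm (qq r A), map_mul, mul_assoc, a1, mul_zero]

end MG.RS
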