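import Pool.Agent.Lib.MP_33b3f9_ag.MG.RS.Mu
import Pool.Agent.Lib.MP_33b3f9_ag.M4.DetD

/-!
Representatives of the conjugates of a system of matrix units.
-/

set_option autoImplicit false

noncomputable section

namespace MG.RS

open Matrix Filter Pool.Agent.M4.Mx

theorem dqa_conj {f : Polynomial ℚ} (hf : Irreducible f) {x y : ℂ} (hx : Polynomial.aeval x f = 0)
    (hy : Polynomial.aeval y f = 0) : ∃ τ : ℂ ≃+* ℂ, τ x = y := by
  have hi : IsIntegral ℚ x := (show IsAlgebraic ℚ x from ⟨f, hf.ne_zero, hx⟩).isIntegral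
  have hy' : y ∈ (minpoly ℚ x).aroots ℂ := by
    refine Polynomial.mem_aroots.2 ⟨minpoly.ne_zero hi, ?_⟩
    rw [← minpoly.eq_of_irreducible hf hx, map_mul, hy, zero_mul]
  have : Algebra.IsAlgebraic ℚ (IntermediateField.adjoin ℚ {x}) :=
    IntermediateField.isAlgebraic_adjoin_simple hi
  obtain ⟨τ, hτ⟩ := Pool.Agent.M4.Det.exists_ext (IntermediateField.adjoin ℚ {x})
    ((IntermediateField.algHomAdjoinIntegralEquiv ℚ (K := ℂ) hi).symm ⟨y, hy'⟩).toRingHom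
  exact ⟨τ, (hτ (IntermediateField.AdjoinSimple.gen ℚ x)).trans
    (IntermediateField.algHomAdjoinIntegralEquiv_symm_apply_gen ℚ hi ⟨y, hy'⟩)⟩

theorem dqa_rep {X Y : Type} (A : X → Y) (I : X → Fin 3) (h : ∀ x x', I x = I x' → A x = A x')
    (x₀ : X) : ∃ (d : ℕ) (θ : Fin d → X), 1 ≤ d ∧ d ≤ 3 ∧
      (∀ t t', A (θ t) = A (θ t') → t = t') ∧ ∀ x, ∃ t, A x = A (θ t) := by
  choose r hr using fun q : Set.range A => q.2
  have hi : Function.Injective fun q => I (r q) := fun q q' e =>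
    Subtype.ext ((hr q).symm.trans ((h _ _ e).trans (hr q')))
  have : Finite (Set.range A) := Finite.of_injective _ hi
  have : Nonempty (Set.range A) := ⟨⟨_, x₀, rfl⟩⟩
  let g := Finite.equivFin (Set.range A)
  refine ⟨_, fun t => r (g.symm t), Nat.card_pos, ?_, fun t t' e => ?_, fun x => ⟨g ⟨_, x, rfl⟩, ?_⟩⟩
  · simpa using Nat.card_le_card_of_injective _ hi
  · rw [hr, hr] at e
    exact g.symm.injective (Subtype.ext e)
  · rw [hr, g.symm_apply_apply]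

variable [Dim] {e : ℕ} {a b : MZ} {m n : ℕ} {z : MorD e a b ℂ} {L : Type} [Field L] {l₁ : ℕ}
  {F : Frs e a b L l₁} {E : Fin 2 → Fin 2 → Matrix ν ν ℂ} {d : ℕ} {θ : Fin e → Fin d → ℂ ≃+* ℂ}
  {ψ : Fin e → Fin d → M2 ℂ →ₐ[ℂ] M8 ℂ} {x y : Fin e → Fin d → M2 ℂ}

theorem not_comm {l : ℕ} [Fact l.Prime] {φ : ℂ ≃+* PadicAlgCl l} (G : Fm e a b (kk l))
    (s : Fin e) (i : Fin 3) {E' : Fin 2 → Fin 2 → Matrix ν ν ℂ}
    (u : M2 (kk l) ≃ₐ[kk l] M2 (kk l)) (u' : M2 (kk l) →+* M2 (kk l))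
    (h : ∀ p q, Rd φ (E p q) (U G s i (u (single p q 1))))
    (h' : ∀ p q, Rd φ (E' p q) (U G s i (u' (single p q 1)))) :
    ¬ ∀ x y, Commute (lin E x) (lin E' y) := by
  intro hc
  have h1 : ∀ p q r t, Commute (u (single p q 1)) (u' (single r t 1)) := fun p q r t => by
    have c := hc (single p q 1) (single r t 1)
    rw [lin_single, lin_single] at c
    have h2 := (h p q).mul (h' r t)
    rw [c.eq] at h2
    have h3 := h2.unique ((h' r t).mul (h p q))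
    rw [U_mul, U_mul] at h3
    exact U_inj G s i h3
  have h2 : ∀ x r t, Commute x (u' (single r t 1)) := fun x r t => by
    rw [← u.apply_symm_apply x, matrix_eq_sum_single (u.symm x), map_sum]
    refine Commute.sum_left _ _ _ fun p _ => ?_
    rw [map_sum]
    refine Commute.sum_left _ _ _ fun q _ => ?_
    rw [← mul_one (u.symm x p q), ← smul_eq_mul, ← smul_single, map_smul]
    exact (h1 p q r t).smul_left _
  have h3 : u' (single 0 0 1) = u' (single 1 1 1) := by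
    have := (h2 (u' (single 0 1 1)) 1 0).eq
    rwa [← map_mul, ← map_mul, single_mul_single_same, single_mul_single_same, mul_one] at this
  have h4 : u' (single 0 0 1) = 0 := by
    have e1 : (single 0 0 1 : M2 (kk l)) = single 0 0 1 * single 0 0 1 := by
      rw [single_mul_single_same, mul_one]
    rw [e1, map_mul]
    nth_rewrite 2 [h3]
    rw [← map_mul, single_mul_single_of_ne _ _ _ _ (by decide), map_zero]
  have h5 : (1 : M2 (kk l)) = single 0 0 1 + single 1 1 1 := by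
    rw [← sum_single_one, Fin.sum_univ_two]
  have h6 := map_one u'
  rw [h5, map_add, ← h3, h4, add_zero, ← h5] at h6
  exact zero_ne_one h6

theorem dqa_root (z : MorD e a b ℂ) (s : Fin e) (c : Fin 2) :
    Polynomial.aeval (z.ζ s c) (minpoly ℚ (zM ℚ a)) = 0 := by
  have h1 : Polynomial.aeval (zM ℂ a) (minpoly ℚ (zM ℚ a)) = 0 := by
    have h := Polynomial.aeval_algHom_apply (Algebra.ofId ℚ ℂ).mapMatrix (zM ℚ a)
      (minpoly ℚ (zM ℚ a))
    rw [minpoly.aeval, map_zero] at h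
    rw [← zM_map (algebraMap ℚ ℂ) a]
    exact h
  have h2 := Polynomial.aeval_algHom_apply (z.em2.restrictScalars ℚ)
    (fun s c => z.ζ s c • (1 : M8 ℂ)) (minpoly ℚ (zM ℚ a))
  rw [AlgHom.restrictScalars_apply, AlgHom.restrictScalars_apply, ← z.a_eq2, h1,
    ← map_zero z.em2] at h2
  have h3 := Polynomial.aeval_algHom_apply ((Pi.evalAlgHom ℚ (fun _ : Fin 2 => M8 ℂ) c).comp
    (Pi.evalAlgHom ℚ (fun _ : Fin e => Fin 2 → M8 ℂ) s)) (fun s c => z.ζ s c • (1 : M8 ℂ))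
    (minpoly ℚ (zM ℚ a))
  rw [← z.em2_inj h2, map_zero] at h3
  have h4 : Polynomial.aeval (algebraMap ℂ (M8 ℂ) (z.ζ s c)) (minpoly ℚ (zM ℚ a)) = 0 := by
    rw [Algebra.algebraMap_eq_smul_one]
    exact h3
  rw [Polynomial.aeval_algebraMap_apply] at h4
  exact (map_eq_zero_iff _ (algebraMap ℂ (M8 ℂ)).injective).1 h4

theorem exists_aut_em (hP : PEL e a b m n) (z : MorD e a b ℂ) (s s' : Fin e) :
    ∃ τ : ℂ ≃+* ℂ, (z.em (Pi.single s 1)).map τ = z.em (Pi.single s' 1) := by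
  obtain ⟨τ, hτ⟩ := dqa_conj hP.irr (dqa_root z s 0) (dqa_root z s' 0)
  refine ⟨τ, (em_single_map z.toMor τ.toRingHom s 1).trans ?_⟩
  rw [Matrix.map_one _ (map_zero _) (map_one _)]
  exact em_eq_of z (z.map τ.toRingHom) hP (s' := s) (c' := 0) hτ

theorem dqa_one (τ σ : ℂ ≃+* ℂ) : lin (cj (τ.trans σ) E) 1 = (lin (cj τ E) 1).map σ := by
  rw [lin_cj, cj_cj, Matrix.map_one _ (map_zero _) (map_one _)]

theorem dqa_eq (hP : PEL e a b m n) (hE : MU z E) {τ τ' : ℂ ≃+* ℂ}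
    (h : ¬ ∀ x y, Commute (lin (cj τ E) x) (lin (cj τ' E) y)) :
    Set.range (lin (cj τ E)) = Set.range (lin (cj τ' E)) := by
  have key : ∀ τ τ' : ℂ ≃+* ℂ, (¬ ∀ x y, Commute (lin (cj τ E) x) (lin (cj τ' E) y)) →
      Set.range (lin (cj τ E)) ⊆ Set.range (lin (cj τ' E)) := fun τ τ' h => by
    have h1 := (hE.cj hP τ').dich (τ'.symm.trans τ)
    rw [cj_cj, show τ'.trans (τ'.symm.trans τ) = τ from RingEquiv.ext fun t => by simp] at h1
    rintro _ ⟨x, rfl⟩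
    obtain ⟨y, hy⟩ := h1.resolve_right h x
    exact ⟨y, hy.symm⟩
  exact (key τ τ' h).antisymm (key τ' τ fun c => h fun x y => (c y x).symm)

theorem exists_TT (hP : PEL e a b m n) (hE : MU z E) {l : GP L l₁} (hr : Red F l E) :
    ∃ (d : ℕ) (θ : Fin e → Fin d → ℂ ≃+* ℂ), 1 ≤ d ∧ d ≤ 3 ∧ TT z E θ := by
  obtain ⟨φ⟩ := Pool.Agent.M4.Det.nonempty_equiv l.1
  choose sl I u hu using fun τ => hr.cj τ φ
  have h1 : ∀ τ, Rd φ (lin (cj τ E) 1) ((Fk F l).z.em (Pi.single (sl τ) 1)) := fun τ => by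
    have h := Rd.lin (hu τ) 1
    rwa [Matrix.map_one _ (map_zero _) (map_one _), Matrix.map_one _ (map_zero _) (map_one _),
      show lin (fun p q => U (Fk F l) (sl τ) (I τ) (u τ (single p q 1))) 1 =
        U (Fk F l) (sl τ) (I τ) (u τ 1) from
        lin_comp (U (Fk F l) (sl τ) (I τ) ∘ₗ (u τ).toLinearMap) 1, map_one (u τ), U_one] at h
  obtain ⟨s₀, hs₀⟩ := hE.blk
  obtain ⟨d, θ, d1, d3, hi, hc⟩ := dqa_rep
    (X := {τ : ℂ ≃+* ℂ // lin (cj τ E) 1 = z.em (Pi.single s₀ 1)})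
    (fun τ => Set.range (lin (cj τ.1 E))) (fun τ => I τ.1) (fun τ τ' h => by
      have h2 : sl τ.1 = sl τ'.1 :=
        em_one_inj _ ((h1 τ.1).unique ((τ'.2.trans τ.2.symm) ▸ h1 τ'.1))
      refine dqa_eq hP hE (not_comm (Fk F l) (sl τ.1) (I τ.1) (u τ.1) (u τ'.1) (hu τ.1) ?_)
      rw [h2, show I τ.1 = I τ'.1 from h]
      exact hu τ'.1) ⟨RingEquiv.refl ℂ, hs₀⟩
  choose σ hσ using exists_aut_em hP z s₀
  refine ⟨d, fun s t => (θ t).1.trans (σ s), d1, d3, fun s t => ?_, fun s t t' ht x y => ?_,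
    fun τ => ?_⟩
  · rw [dqa_one, (θ t).2, hσ]
  · rw [← cj_cj, ← cj_cj, lin_cj', lin_cj' (σ s)]
    refine comm_aut ?_ _
    by_contra c
    exact ht (hi t t' (dqa_eq hP hE fun h => c (h _ _)))
  · obtain ⟨s, hs⟩ := (hE.cj hP τ).blk
    obtain ⟨t, ht⟩ := hc ⟨τ.trans (σ s).symm, by rw [dqa_one, hs, ← hσ, map_map_symm]⟩
    refine ⟨s, t, fun x => ?_⟩
    obtain ⟨y, hy⟩ : lin (cj (τ.trans (σ s).symm) E) (x.map (σ s).symm) ∈
      Set.range (lin (cj (θ t).1 E)) := ht ▸ Set.mem_range_self _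
    refine ⟨y.map (σ s), ?_⟩
    rw [← cj_cj, ← lin_cj, hy, ← cj_cj, ← lin_cj, map_symm_map]

end MG.RS
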