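import Pool.Agent.Lib.MP_33b3f9_ag.M4.DetB

/-!
Heights of algebraic numbers: degree, denominator and size of the conjugates.
-/

set_option autoImplicit false

noncomputable section

namespace MG.RS

open Polynomial Finset Pool.Agent.M4.Det

/-- `α` lies in a number field of degree at most `D`. -/
def Dg (D : ℕ) (α : ℂ) : Prop :=
  ∃ K : IntermediateField ℚ ℂ, FiniteDimensional ℚ K ∧ Module.finrank ℚ K ≤ D ∧ α ∈ K

/-- Degree at most `D`, denominator and conjugates at most `H`. -/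
structure Ht (D : ℕ) (H : ℝ) (α : ℂ) : Prop where
  dg : Dg D α
  den : ∃ m : ℕ, 0 < m ∧ (m : ℝ) ≤ H ∧ IsIntegral ℤ ((m : ℂ) * α)
  sz : ∀ θ : ℂ ≃+* ℂ, ‖θ α‖ ≤ H

theorem exists_sup {D D' : ℕ} {α β : ℂ} (h : Dg D α) (h' : Dg D' β) :
    ∃ K : IntermediateField ℚ ℂ, FiniteDimensional ℚ K ∧ Module.finrank ℚ K ≤ D * D' ∧
      α ∈ K ∧ β ∈ K := by
  obtain ⟨K, h1, h2, h3⟩ := h
  obtain ⟨K', h1', h2', h3'⟩ := h'
  exact ⟨K ⊔ K', inferInstance, (IntermediateField.finrank_sup_le K K').trans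
    (Nat.mul_le_mul h2 h2'), (le_sup_left : K ≤ K ⊔ K') h3, (le_sup_right : K' ≤ K ⊔ K') h3'⟩

theorem exists_field {J : Type} {D : ℕ} (s : Finset J) (c : J → ℂ) (h : ∀ j ∈ s, Dg D (c j)) :
    ∃ K : IntermediateField ℚ ℂ, FiniteDimensional ℚ K ∧ Module.finrank ℚ K ≤ D ^ s.card ∧
      ∀ j ∈ s, c j ∈ K := by
  classical
  induction s using Finset.induction_on with
  | empty => exact ⟨⊥, inferInstance, by simp, by simp⟩
  | insert j s hj ih =>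
    obtain ⟨K, h1, h2, h3⟩ := ih fun k hk => h k (mem_insert_of_mem hk)
    obtain ⟨K', h1', h2', h3'⟩ := h j (mem_insert_self j s)
    refine ⟨K ⊔ K', inferInstance, (IntermediateField.finrank_sup_le K K').trans ?_,
      fun k hk => ?_⟩
    · rw [card_insert_of_notMem hj, pow_succ]
      exact Nat.mul_le_mul h2 h2'
    · rcases mem_insert.1 hk with rfl | hk
      · exact (le_sup_right : K' ≤ K ⊔ K') h3'
      · exact (le_sup_left : K ≤ K ⊔ K') (h3 k hk)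

theorem exists_den {J : Type} {H : ℝ} (s : Finset J) (c : J → ℂ)
    (h : ∀ j ∈ s, ∃ m : ℕ, 0 < m ∧ (m : ℝ) ≤ H ∧ IsIntegral ℤ ((m : ℂ) * c j)) :
    ∃ m : ℕ, 0 < m ∧ (m : ℝ) ≤ H ^ s.card ∧ ∀ j ∈ s, IsIntegral ℤ ((m : ℂ) * c j) := by
  classical
  choose! m h1 h2 h3 using h
  refine ⟨∏ j ∈ s, m j, prod_pos h1, ?_, fun j hj => ?_⟩
  · rw [Nat.cast_prod, ← prod_const]
    exact prod_le_prod (fun _ _ => Nat.cast_nonneg _) h2
  · rw [← mul_prod_erase s m hj, Nat.cast_mul, mul_right_comm]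
    exact (h3 j hj).mul (isIntegral_natCast _)

/-- The norm and the cofactor of an algebraic integer. -/
theorem exists_cof {D : ℕ} {z : ℂ} (hK : Dg D z) (hz : IsIntegral ℤ z) (h0 : z ≠ 0) {B : ℝ}
    (h1 : 1 ≤ B) (hB : ∀ θ : ℂ ≃+* ℂ, ‖θ z‖ ≤ B) :
    ∃ (n : ℤ) (γ : ℂ), n ≠ 0 ∧ |(n : ℝ)| ≤ B ^ D ∧ IsIntegral ℤ γ ∧ z * γ = n ∧
      ∀ θ : ℂ ≃+* ℂ, ‖θ γ‖ ≤ B ^ D := by
  classical
  obtain ⟨K, _, hD, hK⟩ := hK
  let x : K := ⟨z, hK⟩
  have hx : IsIntegral ℤ x := (isIntegral_algHom_iff (K.val.restrictScalars ℤ)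
    K.val.injective).1 hz
  obtain ⟨n, hn⟩ := IsIntegrallyClosed.isIntegral_iff.1 (Algebra.isIntegral_norm ℚ hx)
  have hp := Algebra.norm_eq_prod_embeddings ℚ ℂ x
  rw [← hn] at hp
  have hp' : (n : ℂ) = ∏ σ : K →ₐ[ℚ] ℂ, σ x := by simpa using hp
  have key : ∀ (s : Finset (K →ₐ[ℚ] ℂ)) (θ : ℂ ≃+* ℂ), ‖θ (∏ σ ∈ s, σ x)‖ ≤ B ^ D :=
    fun s θ => by
    rw [map_prod, norm_prod]
    refine le_trans ?_ (pow_le_pow_right₀ h1 ((card_le_univ s).trans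
      ((AlgHom.card ℚ K ℂ).le.trans hD)))
    rw [← prod_const]
    refine prod_le_prod (fun _ _ => norm_nonneg _) fun σ _ => ?_
    obtain ⟨τ, hτ⟩ := exists_ext K σ.toRingHom
    exact (congrArg (fun y => ‖θ y‖) (hτ x)).symm.le.trans (hB (τ.trans θ))
  refine ⟨n, ∏ σ ∈ univ.erase K.val, σ x, fun h => ?_, ?_, ?_, ?_, key _⟩
  · rw [h, Int.cast_zero, eq_comm, prod_eq_zero_iff] at hp'
    obtain ⟨σ, -, hσ⟩ := hp'
    exact h0 (congrArg Subtype.val ((map_eq_zero σ).1 hσ))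
  · rw [← Complex.norm_intCast, hp']
    exact key univ (RingEquiv.refl ℂ)
  · exact IsIntegral.prod _ fun σ _ => hx.map (σ.restrictScalars ℤ)
  · rw [hp', ← mul_prod_erase univ (fun σ : K →ₐ[ℚ] ℂ => σ x) (mem_univ K.val)]
    rfl

theorem root_le {P : ℂ[X]} (hP : P.Monic) {H : ℝ} (h1 : 1 ≤ H) (h : ∀ k, ‖P.coeff k‖ ≤ H)
    {ρ : ℂ} (hρ : P.eval ρ = 0) : ‖ρ‖ ≤ 2 * H := by
  have h2 := IsRoot.norm_lt_cauchyBound hP.ne_zero hρ
  have h3 : P.cauchyBound ≤ ⟨H, by linarith⟩ + 1 := by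
    rw [cauchyBound, hP.leadingCoeff, nnnorm_one, div_one]
    refine add_le_add_left (Finset.sup_le fun k _ => ?_) _
    exact_mod_cast h k
  have h4 : ‖ρ‖ ≤ H + 1 := by exact_mod_cast (h2.le.trans h3)
  linarith

namespace Ht

variable {D D' : ℕ} {H H' : ℝ} {α β : ℂ}

theorem one_le (h : Ht D H α) : 1 ≤ H := by
  obtain ⟨m, h1, h2, -⟩ := h.den
  exact le_trans (by exact_mod_cast h1) h2

theorem mono (h : Ht D H α) (hD : D ≤ D') (hH : H ≤ H') : Ht D' H' α := by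
  obtain ⟨⟨K, h1, h2, h3⟩, ⟨m, h4, h5, h6⟩, h7⟩ := h
  exact ⟨⟨K, h1, h2.trans hD, h3⟩, ⟨m, h4, h5.trans hH, h6⟩, fun θ => (h7 θ).trans hH⟩

theorem mul (h : Ht D H α) (h' : Ht D' H' β) : Ht (D * D') (H * H') (α * β) := by
  obtain ⟨K, h1, h2, h3, h4⟩ := exists_sup h.dg h'.dg
  obtain ⟨m, a1, a2, a3⟩ := h.den
  obtain ⟨m', b1, b2, b3⟩ := h'.den
  have := h.one_le
  refine ⟨⟨K, h1, h2, mul_mem h3 h4⟩, ⟨m * m', by positivity, ?_, ?_⟩, fun θ => ?_⟩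
  · rw [Nat.cast_mul]
    exact mul_le_mul a2 b2 (by positivity) (by positivity)
  · rw [Nat.cast_mul, mul_mul_mul_comm]
    exact a3.mul b3
  · rw [map_mul, norm_mul]
    exact mul_le_mul (h.sz θ) (h'.sz θ) (by positivity) (by positivity)

theorem add (h : Ht D H α) (h' : Ht D' H' β) : Ht (D * D') (2 * (H * H')) (α + β) := by
  obtain ⟨K, h1, h2, h3, h4⟩ := exists_sup h.dg h'.dg
  obtain ⟨m, a1, a2, a3⟩ := h.den
  obtain ⟨m', b1, b2, b3⟩ := h'.den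
  have := h.one_le
  have := h'.one_le
  refine ⟨⟨K, h1, h2, add_mem h3 h4⟩, ⟨m * m', by positivity, ?_, ?_⟩, fun θ => ?_⟩
  · rw [Nat.cast_mul]
    nlinarith [mul_le_mul a2 b2 (by positivity) (by positivity)]
  · rw [show ((m * m' : ℕ) : ℂ) * (α + β) = m' * (m * α) + m * (m' * β) by push_cast; ring]
    exact ((isIntegral_natCast _).mul a3).add ((isIntegral_natCast _).mul b3)
  · rw [map_add]
    nlinarith [norm_add_le (θ α) (θ β), h.sz θ, h'.sz θ]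

theorem int (n : ℤ) (h1 : 1 ≤ H) (h : |(n : ℝ)| ≤ H) : Ht 1 H n :=
  ⟨⟨⊥, inferInstance, by simp, intCast_mem _ n⟩,
    ⟨1, one_pos, by simpa using h1, by simpa using isIntegral_intCast n⟩,
    fun θ => by rwa [map_intCast, Complex.norm_intCast]⟩

theorem aut (h : Ht D H α) (θ : ℂ ≃+* ℂ) : Ht D H (θ α) := by
  obtain ⟨⟨K, h1, h2, h3⟩, ⟨m, h4, h5, h6⟩, h7⟩ := h
  let e := K.equivMap θ.toRingHom.toRatAlgHom
  refine ⟨⟨K.map θ.toRingHom.toRatAlgHom, e.toLinearEquiv.finiteDimensional,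
    e.toLinearEquiv.finrank_eq ▸ h2, ⟨α, h3, rfl⟩⟩, ⟨m, h4, h5, ?_⟩, fun τ => h7 (θ.trans τ)⟩
  simpa using h6.map θ.toRingHom.toIntAlgHom

theorem cof (h : Ht D H α) (h0 : α ≠ 0) : ∃ (m : ℕ) (n : ℤ) (γ : ℂ), 0 < m ∧ (m : ℝ) ≤ H ∧
    IsIntegral ℤ ((m : ℂ) * α) ∧ n ≠ 0 ∧ |(n : ℝ)| ≤ H ^ (2 * D) ∧ IsIntegral ℤ γ ∧
      m * α * γ = n ∧ ∀ θ : ℂ ≃+* ℂ, ‖θ γ‖ ≤ H ^ (2 * D) := by
  have h1 := h.one_le
  obtain ⟨⟨K, k1, k2, k3⟩, ⟨m, h4, h5, h6⟩, h7⟩ := h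
  obtain ⟨n, γ, a1, a2, a3, a4, a5⟩ := exists_cof (D := D) (B := H ^ 2)
    ⟨K, k1, k2, mul_mem (natCast_mem K m) k3⟩ h6
    (mul_ne_zero (by exact_mod_cast h4.ne') h0) (one_le_pow₀ h1) fun θ => by
      rw [map_mul, map_natCast, norm_mul, Complex.norm_natCast, sq]
      exact mul_le_mul h5 (h7 θ) (norm_nonneg _) (by linarith)
  rw [← pow_mul] at a2 a5
  exact ⟨m, n, γ, h4, h5, h6, a1, a2, a3, a4, a5⟩

theorem inv (h : Ht D H α) : Ht D (H ^ (2 * D + 1)) α⁻¹ := by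
  have h1 := h.one_le
  by_cases h0 : α = 0
  · rw [h0, inv_zero, ← h0]
    exact h.mono le_rfl (le_self_pow₀ h1 (by omega))
  obtain ⟨m, n, γ, a1, a2, -, a4, a5, a6, a7, a8⟩ := h.cof h0
  obtain ⟨K, k1, k2, k3⟩ := h.dg
  have hn : (n : ℂ) ≠ 0 := by exact_mod_cast a4
  have e : (n : ℂ) * α⁻¹ = m * γ := by rw [← a7]; field_simp
  refine ⟨⟨K, k1, k2, inv_mem k3⟩, ⟨n.natAbs, by omega, ?_, ?_⟩, fun θ => ?_⟩
  · rw [Nat.cast_natAbs, Int.cast_abs]
    exact a5.trans (pow_le_pow_right₀ h1 (by omega))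
  · have := (isIntegral_natCast (R := ℤ) m).mul a6
    rw [← e] at this
    rcases Int.natAbs_eq n with h | h
    · rwa [h, Int.cast_natCast] at this
    · rw [h, Int.cast_neg, Int.cast_natCast, neg_mul] at this
      simpa using this.neg
  · have e2 := congrArg (fun y => ‖θ y‖) e
    simp only [map_mul, map_intCast, map_natCast, norm_mul, Complex.norm_intCast,
      Complex.norm_natCast] at e2
    have h3 : (1 : ℝ) ≤ |(n : ℝ)| := by exact_mod_cast Int.one_le_abs a4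
    rw [pow_succ']
    calc _ ≤ |(n : ℝ)| * ‖θ α⁻¹‖ := le_mul_of_one_le_left (norm_nonneg _) h3
      _ ≤ _ := e2 ▸ mul_le_mul a2 (a8 θ) (norm_nonneg _) (by linarith)

theorem root {P : ℂ[X]} (hP : P.Monic) {d : ℕ} (hd : P.natDegree ≤ d)
    (h : ∀ k ≤ d, Ht D H (P.coeff k)) {ρ : ℂ} (hρ : P.eval ρ = 0) :
    Ht (D ^ (d + 1) * d) (2 * H ^ (d + 1)) ρ := by
  have h1 := (h 0 (Nat.zero_le d)).one_le
  have h2 : H ≤ H ^ (d + 1) := le_self_pow₀ h1 (by omega)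
  have hz : ∀ k, ¬ k ≤ d → P.coeff k = 0 := fun k hk => coeff_eq_zero_of_natDegree_lt (by omega)
  obtain ⟨K, k1, k2, k3⟩ := exists_field (range (d + 1)) P.coeff fun k hk =>
    (h k (Nat.lt_succ_iff.1 (mem_range.1 hk))).dg
  obtain ⟨m, m1, m2, m3⟩ := exists_den (range (d + 1)) P.coeff fun k hk =>
    (h k (Nat.lt_succ_iff.1 (mem_range.1 hk))).den
  rw [card_range] at k2 m2
  refine ⟨?_, ⟨m, m1, by linarith [pow_pos (lt_of_lt_of_le one_pos h1) (d + 1)], ?_⟩,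
    fun θ => ?_⟩
  · obtain ⟨Q, q1, q2, q3⟩ := lifts_and_natDegree_eq_and_monic (f := algebraMap K ℂ)
      ((lifts_iff_coeff_lifts P).2 fun k => by
        by_cases hk : k ≤ d
        · exact ⟨⟨_, k3 k (mem_range.2 (by omega))⟩, rfl⟩
        · exact ⟨0, by rw [hz k hk, map_zero]⟩) hP
    have q4 : aeval ρ Q = 0 := by rw [aeval_def, eval₂_eq_eval_map, q1, hρ]
    have hi : IsIntegral K ρ := ⟨Q, q3, q4⟩
    have := IntermediateField.adjoin.finiteDimensional hi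
    refine ⟨(IntermediateField.adjoin K {ρ}).restrictScalars ℚ,
      FiniteDimensional.trans ℚ K (IntermediateField.adjoin K {ρ}), ?_,
      IntermediateField.mem_adjoin_simple_self K ρ⟩
    change Module.finrank ℚ (IntermediateField.adjoin K {ρ}) ≤ _
    rw [← Module.finrank_mul_finrank ℚ K, IntermediateField.adjoin.finrank hi]
    exact Nat.mul_le_mul k2 ((natDegree_le_natDegree (minpoly.min K ρ q3 q4)).trans (q2 ▸ hd))
  · have hm : (m : ℂ) ≠ 0 := by exact_mod_cast m1.ne'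
    obtain ⟨Q, q1, q2⟩ := lifts_and_degree_eq_and_monic (f := algebraMap (integralClosure ℤ ℂ) ℂ)
      (p := P.scaleRoots m) ((lifts_iff_coeff_lifts _).2 fun k => by
        suffices hs : (P.scaleRoots m).coeff k ∈ integralClosure ℤ ℂ from ⟨⟨_, hs⟩, rfl⟩
        rw [coeff_scaleRoots]
        rcases lt_trichotomy k P.natDegree with hk | rfl | hk
        · obtain ⟨j, hj⟩ : ∃ j, P.natDegree - k = j + 1 := ⟨P.natDegree - k - 1, by omega⟩
          rw [hj, pow_succ', ← mul_assoc, mul_comm _ (m : ℂ)]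
          exact IsIntegral.mul (m3 k (mem_range.2 (by omega))) ((isIntegral_natCast m).pow j)
        · rw [hP.coeff_natDegree, Nat.sub_self, pow_zero, mul_one]
          exact one_mem _
        · rw [coeff_eq_zero_of_natDegree_lt hk, zero_mul]
          exact zero_mem _) ((monic_scaleRoots_iff _).2 hP)
    refine isIntegral_trans (A := integralClosure ℤ ℂ) _ ⟨Q, q2.2, ?_⟩
    rw [eval₂_eq_eval_map, q1, scaleRoots_eval_mul, hρ, mul_zero]
  · refine (root_le (P := P.map θ.toRingHom) (hP.map _) h1 (fun k => ?_) ?_).trans (by linarith)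
    · rw [coeff_map]
      by_cases hk : k ≤ d
      · exact (h k hk).sz θ
      · rw [hz k hk, map_zero, norm_zero]
        linarith
    · exact (eval_map_apply θ.toRingHom ρ).trans (by rw [hρ, map_zero])

end Ht

end MG.RS
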