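import Pool.Agent.Lib.MP_33b3f9_ag.MG.SDefs
import Pool.Agent.Lib.MP_33b3f9_ag.MG.MorA
import Pool.Agent.Lib.MP_33b3f9_ag.MG.RS.Pm

/-!
Places of the complex numbers and reduction of matrices.
-/

set_option autoImplicit false

noncomputable section

namespace MG.RS

open Matrix Pool.Agent.M4.Mx

section place

variable (l : ℕ) [Fact l.Prime]

/-- The integers of the algebraic closure of the `l`-adic numbers. -/
def OO : ValuationSubring (PadicAlgCl l) :=
  (NormedField.valuation (K := PadicAlgCl l)).valuationSubring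

/-- The residue field. -/
abbrev kk : Type := IsLocalRing.ResidueField (OO l)

/-- The reduction map. -/
def rd : OO l →+* kk l := IsLocalRing.residue _

variable {l}

theorem mem_OO {x : PadicAlgCl l} : x ∈ OO l ↔ ‖x‖ ≤ 1 := by
  rw [OO, Valuation.mem_valuationSubring_iff, NormedField.valuation_apply]
  exact NNReal.coe_le_coe.symm

theorem OO_le (x : OO l) : ‖(x : PadicAlgCl l)‖ ≤ 1 := mem_OO.1 x.2

theorem isUnit_OO {x : OO l} : IsUnit x ↔ ‖(x : PadicAlgCl l)‖ = 1 := by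
  refine ⟨fun h => ?_, fun h => ?_⟩
  · obtain ⟨y, hy⟩ := h.exists_right_inv
    have h1 := congrArg (fun t : OO l => ‖(t : PadicAlgCl l)‖) hy
    simp only [MulMemClass.coe_mul, norm_mul, OneMemClass.coe_one, norm_one] at h1
    nlinarith [OO_le x, OO_le y, norm_nonneg (x : PadicAlgCl l), norm_nonneg (y : PadicAlgCl l)]
  · have h0 : (x : PadicAlgCl l) ≠ 0 := fun e => by simp [e] at h
    exact IsUnit.of_mul_eq_one ⟨(x : PadicAlgCl l)⁻¹, mem_OO.2 (by simp [h])⟩
      (Subtype.ext (mul_inv_cancel₀ h0))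

theorem rd_eq_zero {x : OO l} : rd l x = 0 ↔ ‖(x : PadicAlgCl l)‖ < 1 := by
  rw [rd, IsLocalRing.residue_eq_zero_iff, IsLocalRing.mem_maximalIdeal, mem_nonunits_iff,
    isUnit_OO]
  exact ⟨fun h => lt_of_le_of_ne (OO_le x) h, fun h => h.ne⟩

theorem isUnit_of_rd {x : OO l} (h : rd l x ≠ 0) : IsUnit x :=
  isUnit_OO.2 (le_antisymm (OO_le x) (not_lt.1 fun c => h (rd_eq_zero.2 c)))

theorem rd_surj : Function.Surjective (rd l) := IsLocalRing.residue_surjective

theorem norm_toOm (x : ℤ_[l]) : ‖M4.CM.toOm l x‖ = ‖x‖ := PadicAlgCl.norm_extends l (x : ℚ_[l])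

variable (l) in
/-- The inclusion of the `l`-adic integers. -/
def zO : ℤ_[l] →+* OO l :=
  (M4.CM.toOm l).codRestrict (OO l) fun x => mem_OO.2 (by rw [norm_toOm]; exact x.norm_le_one)

instance : CharP (kk l) l := by
  refine (CharP.charP_iff_prime_eq_zero Fact.out).2 ?_
  rw [← map_natCast (rd l), rd_eq_zero, ← map_natCast (zO l)]
  exact (norm_toOm (l : ℤ_[l])).trans_lt (PadicInt.norm_natCast_lt_one_iff.2 dvd_rfl)

variable (l) in
/-- The prime field of the residue field. -/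
def zk : ZMod l →+* kk l := ZMod.castHom (dvd_refl l) (kk l)

theorem zk_comp : (zk l).comp PadicInt.toZMod = (rd l).comp (zO l) := by
  ext x
  have h := PadicInt.toZMod_spec x
  rw [PadicInt.maximalIdeal_eq_span_p, Ideal.mem_span_singleton] at h
  obtain ⟨y, hy⟩ := h
  have h2 := congrArg ((rd l).comp (zO l)) hy
  rw [map_sub, map_mul, map_natCast, CharP.cast_eq_zero, zero_mul, sub_eq_zero] at h2
  rw [h2, RingHom.comp_apply, ZMod.cast_eq_val, map_natCast, zk, ZMod.castHom_apply,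
    ZMod.cast_eq_val]

theorem zk_toZMod (x : ℤ_[l]) : zk l (PadicInt.toZMod x) = rd l (zO l x) :=
  DFunLike.congr_fun zk_comp x

/-- The integers of the place `φ`. -/
def up (φ : ℂ ≃+* PadicAlgCl l) : OO l →+* ℂ := φ.symm.toRingHom.comp (OO l).subtype

theorem up_inj (φ : ℂ ≃+* PadicAlgCl l) : Function.Injective (up φ) :=
  φ.symm.injective.comp Subtype.val_injective

theorem phi_up (φ : ℂ ≃+* PadicAlgCl l) (x : OO l) : φ (up φ x) = x := φ.apply_symm_apply _

theorem exists_up {φ : ℂ ≃+* PadicAlgCl l} {α : ℂ} (h : ‖φ α‖ ≤ 1) : ∃ x, up φ x = α :=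
  ⟨⟨φ α, mem_OO.2 h⟩, φ.symm_apply_apply α⟩

theorem up_trans (θ : ℂ ≃+* ℂ) (φ : ℂ ≃+* PadicAlgCl l) (x : OO l) :
    θ (up (θ.trans φ) x) = up φ x := θ.apply_symm_apply _

theorem Gd.zero {φ : ℂ ≃+* PadicAlgCl l} {x : OO l} (h : Gd l (up φ x)) (h0 : rd l x = 0) :
    x = 0 :=
  up_inj φ (((h φ).2 (by rw [phi_up]; exact rd_eq_zero.1 h0)).trans (map_zero _).symm)

theorem Gd.aut {α : ℂ} (h : Gd l α) (θ : ℂ ≃+* ℂ) : Gd l (θ α) := fun φ =>
  ⟨(h (θ.trans φ)).1, fun c => by rw [(h (θ.trans φ)).2 c, map_zero]⟩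

theorem exists_root (t d : kk l) : ∃ x y : kk l, x + y = t ∧ x * y = d := by
  obtain ⟨t, rfl⟩ := rd_surj t
  obtain ⟨d, rfl⟩ := rd_surj d
  obtain ⟨r, hr⟩ := IsAlgClosed.exists_root (k := PadicAlgCl l)
    (Polynomial.X ^ 2 - Polynomial.C t.1 * Polynomial.X + Polynomial.C d.1) (by
      have : (Polynomial.X ^ 2 - Polynomial.C t.1 * Polynomial.X + Polynomial.C d.1 :
        Polynomial (PadicAlgCl l)).degree = 2 := by compute_degree!
      rw [this]
      decide)
  have h1 : r * r = t.1 * r + -d.1 := by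
    simp only [Polynomial.IsRoot.def, Polynomial.eval_add, Polynomial.eval_sub, Polynomial.eval_pow,
      Polynomial.eval_X, Polynomial.eval_mul, Polynomial.eval_C] at hr
    linear_combination hr
  have h2 : ‖r‖ ≤ 1 := by
    by_contra hc
    have h3 := IsUltrametricDist.norm_add_le_max (t.1 * r) (-d.1)
    rw [← h1, norm_mul, norm_mul, norm_neg, le_max_iff] at h3
    have := OO_le t
    have := OO_le d
    rcases h3 with h3 | h3 <;> nlinarith
  refine ⟨rd l ⟨r, mem_OO.2 h2⟩, rd l (t - ⟨r, mem_OO.2 h2⟩), by simp, ?_⟩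
  rw [← map_mul]
  refine congrArg _ (Subtype.ext ?_)
  change r * (t.1 - r) = d.1
  linear_combination -h1

variable {m n o : Type} {φ : ℂ ≃+* PadicAlgCl l}

/-- The complex matrix `A` is integral at the place `φ` and reduces to `B`. -/
def Rd (φ : ℂ ≃+* PadicAlgCl l) (A : Matrix m n ℂ) (B : Matrix m n (kk l)) : Prop :=
  ∃ G : Matrix m n (OO l), G.map (up φ) = A ∧ G.map (rd l) = B

namespace Rd

variable {A A' : Matrix m n ℂ} {B B' : Matrix m n (kk l)}

theorem of (G : Matrix m n (OO l)) : Rd φ (G.map (up φ)) (G.map (rd l)) := ⟨G, rfl, rfl⟩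

theorem unique (h : Rd φ A B) (h' : Rd φ A B') : B = B' := by
  obtain ⟨G, rfl, rfl⟩ := h
  obtain ⟨G', h1, rfl⟩ := h'
  rw [Matrix.map_injective (up_inj φ) h1]

theorem of_le (h : ∀ a b, ‖φ (A a b)‖ ≤ 1) : ∃ B, Rd φ A B := by
  choose G hG using fun a b => exists_up (h a b)
  exact ⟨_, Matrix.of G, by ext a b; exact hG a b, rfl⟩

theorem of_gd (h : ∀ a b, Gd l (A a b)) (φ : ℂ ≃+* PadicAlgCl l) : ∃ B, Rd φ A B :=
  of_le fun a b => (h a b φ).1

theorem eq_zero (h : Rd φ A 0) (hg : ∀ a b, Gd l (A a b)) : A = 0 := by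
  obtain ⟨G, rfl, h⟩ := h
  ext a b
  rw [map_apply, (hg a b).zero (congrFun (congrFun h a) b), map_zero, Matrix.zero_apply]

theorem add (h : Rd φ A B) (h' : Rd φ A' B') : Rd φ (A + A') (B + B') := by
  obtain ⟨G, rfl, rfl⟩ := h
  obtain ⟨G', rfl, rfl⟩ := h'
  exact ⟨G + G', Matrix.map_add _ (map_add _) _ _, Matrix.map_add _ (map_add _) _ _⟩

theorem sub (h : Rd φ A B) (h' : Rd φ A' B') : Rd φ (A - A') (B - B') := by
  obtain ⟨G, rfl, rfl⟩ := h
  obtain ⟨G', rfl, rfl⟩ := h'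
  exact ⟨G - G', Matrix.map_sub _ (map_sub _) _ _, Matrix.map_sub _ (map_sub _) _ _⟩

theorem zero : Rd φ (0 : Matrix m n ℂ) 0 :=
  ⟨0, Matrix.map_zero _ (map_zero _), Matrix.map_zero _ (map_zero _)⟩

theorem neg (h : Rd φ A B) : Rd φ (-A) (-B) := by simpa using zero.sub h

theorem smul (x : OO l) (h : Rd φ A B) : Rd φ (up φ x • A) (rd l x • B) := by
  obtain ⟨G, rfl, rfl⟩ := h
  exact ⟨x • G, by ext; simp, by ext; simp⟩

theorem tr (h : Rd φ A B) : Rd φ Aᵀ Bᵀ := by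
  obtain ⟨G, rfl, rfl⟩ := h
  exact ⟨Gᵀ, rfl, rfl⟩

theorem int (g : Matrix m n ℤ) :
    Rd φ (g.map (Int.cast : ℤ → ℂ)) (g.map (Int.cast : ℤ → kk l)) :=
  ⟨g.map (Int.cast : ℤ → OO l), by ext; simp, by ext; simp⟩

theorem sum {J : Type} (s : Finset J) {f : J → Matrix m n ℂ} {g : J → Matrix m n (kk l)}
    (h : ∀ j ∈ s, Rd φ (f j) (g j)) : Rd φ (∑ j ∈ s, f j) (∑ j ∈ s, g j) := by
  classical
  induction s using Finset.induction_on with
  | empty => simpa using zero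
  | insert j s hj ih =>
    rw [Finset.sum_insert hj, Finset.sum_insert hj]
    exact (h j (Finset.mem_insert_self j s)).add (ih fun k hk => h k (Finset.mem_insert_of_mem hk))

theorem mul [Fintype n] {A' : Matrix n o ℂ} {B' : Matrix n o (kk l)} (h : Rd φ A B)
    (h' : Rd φ A' B') : Rd φ (A * A') (B * B') := by
  obtain ⟨G, rfl, rfl⟩ := h
  obtain ⟨G', rfl, rfl⟩ := h'
  exact ⟨G * G', Matrix.map_mul, Matrix.map_mul⟩

theorem one [DecidableEq n] : Rd φ (1 : Matrix n n ℂ) 1 :=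
  ⟨1, Matrix.map_one _ (map_zero _) (map_one _), Matrix.map_one _ (map_zero _) (map_one _)⟩

theorem aut {θ : ℂ ≃+* ℂ} (h : Rd (θ.trans φ) A B) : Rd φ (A.map θ) B := by
  obtain ⟨G, rfl, rfl⟩ := h
  exact ⟨G, by ext a b; exact (up_trans θ φ _).symm, rfl⟩

theorem trace [Fintype n] {A : Matrix n n ℂ} {B : Matrix n n (kk l)} (h : Rd φ A B) :
    ∃ x, up φ x = A.trace ∧ rd l x = B.trace := by
  obtain ⟨G, rfl, rfl⟩ := h
  exact ⟨G.trace, AddMonoidHom.map_trace (up φ) G, AddMonoidHom.map_trace (rd l) G⟩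

/-- The inverse is integral if the reduction is invertible. -/
theorem inv [Fintype n] [DecidableEq n] {A : Matrix n n ℂ} {B : Matrix n n (kk l)} (h : Rd φ A B)
    (hB : IsUnit B) : IsUnit A ∧ Rd φ A⁻¹ B⁻¹ := by
  obtain ⟨G, rfl, rfl⟩ := h
  have h1 : IsUnit G.det := isUnit_of_rd (by
    rw [RingHom.map_det]
    exact ((isUnit_iff_isUnit_det _).1 hB).ne_zero)
  refine ⟨((isUnit_iff_isUnit_det _).2 h1).map (up φ).mapMatrix, G⁻¹, ?_, ?_⟩
  · exact (inv_eq_left_inv (by rw [← Matrix.map_mul, nonsing_inv_mul _ h1, Matrix.map_one _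
      (map_zero _) (map_one _)])).symm
  · exact (inv_eq_left_inv (by rw [← Matrix.map_mul, nonsing_inv_mul _ h1, Matrix.map_one _
      (map_zero _) (map_one _)])).symm

end Rd

end place

variable [Dim] {e : ℕ} {a b : MZ} {L : Type} [Field L] {l₁ : ℕ}

/-- The frame over the integers of the algebraic closure. -/
def Fo (F : Frs e a b L l₁) (l : GP L l₁) : Fm e a b (OO l.1) := (F l).map (zO l.1)

/-- The frame over the residue field. -/
def Fk (F : Frs e a b L l₁) (l : GP L l₁) : Fm e a b (kk l.1) := (Fo F l).map (rd l.1)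

/-- The complex frame of a place. -/
def Fc (F : Frs e a b L l₁) (l : GP L l₁) (φ : ℂ ≃+* PadicAlgCl l.1) : Fm e a b ℂ :=
  (Fo F l).map (up φ)

theorem Fk_eq (F : Frs e a b L l₁) (l : GP L l₁) : Fk F l = (F.red l).map (zk l.1) :=
  congrArg (F l).map (zk_comp (l := l.1)).symm

theorem rd_J {l : ℕ} [Fact l.Prime] (φ : ℂ ≃+* PadicAlgCl l) : Rd φ (J ι ℂ) (J ι (kk l)) := by
  rw [← zM_J ℂ, ← zM_J (kk l)]
  exact Rd.int (φ := φ) _

end MG.RS
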