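import Pool.Agent.Lib.MP_33b3f9_ag.MG.IDefA
import Pool.Agent.Lib.MP_33b3f9_ag.MG.RS.Ht

/-!
Families of algebraic numbers of polynomial height, and almost all primes.
-/

set_option autoImplicit false

noncomputable section

namespace MG.RS

open Polynomial Finset Filter Pool.Agent.M4.Det

variable {L : Type} [Field L] {l₁ : ℕ} {I : Type}

/-- No positive integer up to `B` is divisible by all primes of `LY`. -/
def Big (LY : Finset (GP L l₁)) (B : ℕ) : Prop :=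
  ∀ n : ℕ, 0 < n → n ≤ B → ∃ l ∈ LY, ¬ l.1 ∣ n

/-- A family of scales and of sets of primes. -/
structure Sc (L : Type) [Field L] (l₁ : ℕ) (I : Type) where
  /-- the scale -/
  M : I → ℕ
  /-- the primes -/
  LY : I → Finset (GP L l₁)
  two : ∀ i, 2 ≤ M i

namespace Sc

variable (S : Sc L l₁ I)

theorem pow_le (i : I) {C C' : ℕ} (h : C ≤ C') : S.M i ^ C ≤ S.M i ^ C' :=
  Nat.pow_le_pow_right (by have := S.two i; omega) h

theorem one_le (i : I) : (1 : ℝ) ≤ S.M i := by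
  have := S.two i
  exact_mod_cast (by omega : 1 ≤ S.M i)

theorem rpow_le (i : I) {C C' : ℕ} (h : C ≤ C') : (S.M i : ℝ) ^ C ≤ (S.M i : ℝ) ^ C' :=
  pow_le_pow_right₀ (S.one_le i) h

theorem two_mul_le (i : I) (C : ℕ) : 2 * (S.M i : ℝ) ^ C ≤ (S.M i : ℝ) ^ (C + 1) := by
  rw [pow_succ']
  exact mul_le_mul_of_nonneg_right (by exact_mod_cast S.two i) (by positivity)

theorem big {i : I} {C C' : ℕ} (h : C ≤ C') (hb : Big (S.LY i) (S.M i ^ C')) :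
    Big (S.LY i) (S.M i ^ C) := fun n h1 h2 => hb n h1 (h2.trans (S.pow_le i h))

/-- The indices with many primes. -/
def Bg : Filter I where
  sets := {A | ∃ C : ℕ, ∀ i, Big (S.LY i) (S.M i ^ C) → i ∈ A}
  univ_sets := ⟨0, fun _ _ => trivial⟩
  sets_of_superset := fun ⟨C, h⟩ hA => ⟨C, fun i hi => hA (h i hi)⟩
  inter_sets := fun ⟨C, h⟩ ⟨C', h'⟩ => ⟨C + C', fun i hi =>
    ⟨h i (S.big (by omega) hi), h' i (S.big (by omega) hi)⟩⟩

/-- Almost all primes. -/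
def AE : Filter (I × GP L l₁) where
  sets := {A | ∃ C : ℕ, ∀ᶠ i in S.Bg, ∃ n : ℕ, 0 < n ∧ n ≤ S.M i ^ C ∧
    ∀ l ∈ S.LY i, ¬ l.1 ∣ n → (i, l) ∈ A}
  univ_sets := ⟨0, .of_forall fun _ => ⟨1, one_pos, by simp, fun _ _ _ => trivial⟩⟩
  sets_of_superset := fun ⟨C, h⟩ hA => ⟨C, h.mono fun _ ⟨n, h1, h2, h3⟩ =>
    ⟨n, h1, h2, fun l a b => hA (h3 l a b)⟩⟩
  inter_sets := fun ⟨C, h⟩ ⟨C', h'⟩ => ⟨C + C', (h.and h').mono
    fun _ ⟨⟨n, h1, h2, h3⟩, n', h1', h2', h3'⟩ => ⟨n * n', by positivity,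
      by rw [pow_add]; exact Nat.mul_le_mul h2 h2', fun l a b =>
        ⟨h3 l a fun c => b (c.mul_right _), h3' l a fun c => b (c.mul_left _)⟩⟩⟩

variable {S}

theorem bg_iff {p : I → Prop} :
    (∀ᶠ i in S.Bg, p i) ↔ ∃ C : ℕ, ∀ i, Big (S.LY i) (S.M i ^ C) → p i := Iff.rfl

theorem ae_iff {p : I × GP L l₁ → Prop} : (∀ᶠ x in S.AE, p x) ↔ ∃ C : ℕ, ∀ᶠ i in S.Bg,
    ∃ n : ℕ, 0 < n ∧ n ≤ S.M i ^ C ∧ ∀ l ∈ S.LY i, ¬ l.1 ∣ n → p (i, l) := Iff.rfl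

theorem ae_mem : ∀ᶠ x in S.AE, x.2 ∈ S.LY x.1 :=
  ⟨0, .of_forall fun _ => ⟨1, one_pos, by simp, fun _ h _ => h⟩⟩

theorem ae_of_bg {p : I → Prop} (h : ∀ᶠ i in S.Bg, p i) : ∀ᶠ x in S.AE, p x.1 :=
  ⟨0, h.mono fun _ hi => ⟨1, one_pos, by simp, fun _ _ _ => hi⟩⟩

theorem bg_of_ae {p : I × GP L l₁ → Prop} (h : ∀ᶠ x in S.AE, p x) :
    ∀ᶠ i in S.Bg, ∃ l ∈ S.LY i, p (i, l) := by
  obtain ⟨C, h⟩ := h
  filter_upwards [h, (bg_iff (S := S)).2 ⟨C, fun _ h => h⟩] with i ⟨n, h1, h2, h3⟩ hb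
  obtain ⟨l, a, b⟩ := hb n h1 h2
  exact ⟨l, a, h3 l a b⟩

theorem bg_of_ae' {p : I → Prop} (h : ∀ᶠ x in S.AE, p x.1) : ∀ᶠ i in S.Bg, p i :=
  (bg_of_ae h).mono fun _ ⟨_, _, h⟩ => h

/-- Change of the index set. -/
def comap {I' : Type} (S : Sc L l₁ I) (π : I' → I) : Sc L l₁ I' :=
  ⟨fun j => S.M (π j), fun j => S.LY (π j), fun j => S.two (π j)⟩

theorem bg_comap {I' : Type} (π : I' → I) {p : I → Prop} (h : ∀ᶠ i in S.Bg, p i) :
    ∀ᶠ j in (S.comap π).Bg, p (π j) := by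
  obtain ⟨C, h⟩ := h
  exact ⟨C, fun j hj => h (π j) hj⟩

theorem ae_comap {I' : Type} (π : I' → I) {p : I × GP L l₁ → Prop} (h : ∀ᶠ x in S.AE, p x) :
    ∀ᶠ y in (S.comap π).AE, p (π y.1, y.2) := by
  obtain ⟨C, h⟩ := h
  exact ⟨C, bg_comap π h⟩

theorem bg_sigma {J : I → Type} {p : (Σ i, J i) → Prop}
    (h : ∀ᶠ j in (S.comap (Sigma.fst : (Σ i, J i) → I)).Bg, p j) :
    ∀ᶠ i in S.Bg, ∀ t : J i, p ⟨i, t⟩ := by
  obtain ⟨C, h⟩ := h
  exact ⟨C, fun i hi t => h ⟨i, t⟩ hi⟩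

theorem bg_prod {J : Type} {p : I × J → Prop}
    (h : ∀ᶠ j in (S.comap (Prod.fst : I × J → I)).Bg, p j) : ∀ᶠ i in S.Bg, ∀ t : J, p (i, t) := by
  obtain ⟨C, h⟩ := h
  exact ⟨C, fun i hi t => h ⟨i, t⟩ hi⟩

variable (S)

/-- The families of bounded degree and polynomial height. -/
def PB : Subring (I → ℂ) where
  carrier := {f | ∃ D C : ℕ, ∀ᶠ i in S.Bg, Ht D ((S.M i : ℝ) ^ C) (f i)}
  mul_mem' := fun ⟨D, C, h⟩ ⟨D', C', h'⟩ => ⟨D * D', C + C', (h.and h').mono fun i hi => by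
    rw [pow_add]; exact hi.1.mul hi.2⟩
  add_mem' := fun ⟨D, C, h⟩ ⟨D', C', h'⟩ => ⟨D * D', C + C' + 1, (h.and h').mono fun i hi =>
    (hi.1.add hi.2).mono le_rfl (by rw [← pow_add]; exact S.two_mul_le i _)⟩
  one_mem' := ⟨1, 0, .of_forall fun _ => by simpa using Ht.int (H := 1) 1 le_rfl (by simp)⟩
  zero_mem' := ⟨1, 0, .of_forall fun _ => by simpa using Ht.int (H := 1) 0 le_rfl (by simp)⟩
  neg_mem' := fun ⟨D, C, h⟩ => ⟨D, C, h.mono fun i hi => by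
    simpa using (Ht.int (H := 1) (-1) le_rfl (by simp)).mul hi⟩

/-- The families of polynomial size. -/
def SZ : Subring (I → ℂ) where
  carrier := {f | ∃ C : ℕ, ∀ᶠ i in S.Bg, ‖f i‖ ≤ (S.M i : ℝ) ^ C}
  mul_mem' := fun ⟨C, h⟩ ⟨C', h'⟩ => ⟨C + C', (h.and h').mono fun i hi => by
    rw [pow_add, Pi.mul_apply, norm_mul]
    exact mul_le_mul hi.1 hi.2 (norm_nonneg _) (by positivity)⟩
  add_mem' := fun ⟨C, h⟩ ⟨C', h'⟩ => ⟨C + C' + 1, (h.and h').mono fun i hi => by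
    refine (norm_add_le _ _).trans (le_trans ?_ (S.two_mul_le i _))
    linarith [hi.1, hi.2, S.rpow_le i (le_self_add : C ≤ C + C'),
      S.rpow_le i (le_add_self : C' ≤ C + C')]⟩
  one_mem' := ⟨0, .of_forall fun _ => by simp⟩
  zero_mem' := ⟨0, .of_forall fun _ => by simp⟩
  neg_mem' := fun ⟨C, h⟩ => ⟨C, h.mono fun i hi => by simpa using hi⟩

variable {S} {f : I → ℂ}

theorem sz_of_pb (h : f ∈ S.PB) : f ∈ S.SZ := by
  obtain ⟨D, C, h⟩ := h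
  exact ⟨C, h.mono fun i hi => hi.sz (RingEquiv.refl ℂ)⟩

theorem sz_const (c : ℂ) : (fun _ => c) ∈ S.SZ := by
  obtain ⟨C, hC⟩ := pow_unbounded_of_one_lt ‖c‖ (one_lt_two (α := ℝ))
  exact ⟨C, .of_forall fun i => hC.le.trans
    (pow_le_pow_left₀ zero_le_two (by exact_mod_cast S.two i) C)⟩

theorem pb_congr {g : I → ℂ} (h : f ∈ S.PB) (e : ∀ᶠ i in S.Bg, f i = g i) : g ∈ S.PB := by
  obtain ⟨D, C, h⟩ := h
  exact ⟨D, C, (h.and e).mono fun i hi => hi.2 ▸ hi.1⟩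

theorem pb_int (n : I → ℤ) {C : ℕ} (h : ∀ᶠ i in S.Bg, (n i).natAbs ≤ S.M i ^ C) :
    (fun i => (n i : ℂ)) ∈ S.PB :=
  ⟨1, C, h.mono fun i hi => Ht.int _ (one_le_pow₀ (S.one_le i)) (by
    rw [← Int.cast_abs, ← Nat.cast_natAbs]; exact_mod_cast hi)⟩

theorem pb_nat (n : I → ℕ) {C : ℕ} (h : ∀ᶠ i in S.Bg, n i ≤ S.M i ^ C) :
    (fun i => (n i : ℂ)) ∈ S.PB := by
  simpa using pb_int (fun i => (n i : ℤ)) (C := C) (by simpa using h)

theorem pb_inv (h : f ∈ S.PB) : (fun i => (f i)⁻¹) ∈ S.PB := by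
  obtain ⟨D, C, h⟩ := h
  exact ⟨D, C * (2 * D + 1), h.mono fun i hi => by rw [pow_mul]; exact hi.inv⟩

theorem pb_aut (h : f ∈ S.PB) (θ : I → ℂ ≃+* ℂ) : (fun i => θ i (f i)) ∈ S.PB := by
  obtain ⟨D, C, h⟩ := h
  exact ⟨D, C, h.mono fun i hi => hi.aut _⟩

theorem pb_comap {I' : Type} (π : I' → I) (h : f ∈ S.PB) :
    (fun j => f (π j)) ∈ (S.comap π).PB := by
  obtain ⟨D, C, h⟩ := h
  exact ⟨D, C, bg_comap π h⟩

/-- Common bounds for finitely many families. -/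
theorem pb_unif {J : Type} [Finite J] {g : J → I → ℂ} (h : ∀ j, g j ∈ S.PB) :
    ∃ D C : ℕ, ∀ᶠ i in S.Bg, ∀ j, Ht D ((S.M i : ℝ) ^ C) (g j i) := by
  have := Fintype.ofFinite J
  choose D C h using h
  refine ⟨univ.sup D, univ.sup C, eventually_all.2 fun j => (h j).mono fun i hi => ?_⟩
  exact hi.mono (le_sup (mem_univ j)) (S.rpow_le i (le_sup (mem_univ j)))

theorem sz_unif {J : Type} [Finite J] {g : J → I → ℂ} (h : ∀ j, g j ∈ S.SZ) :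
    ∃ C : ℕ, ∀ᶠ i in S.Bg, ∀ j, ‖g j i‖ ≤ (S.M i : ℝ) ^ C := by
  have := Fintype.ofFinite J
  choose C h using h
  exact ⟨univ.sup C, eventually_all.2 fun j => (h j).mono fun i hi =>
    hi.trans (S.rpow_le i (le_sup (mem_univ j)))⟩

theorem pb_choice {J : Type} [Finite J] {g : J → I → ℂ} (h : ∀ j, g j ∈ S.PB) (j : I → J) :
    (fun i => g (j i) i) ∈ S.PB := by
  obtain ⟨D, C, h⟩ := pb_unif h
  exact ⟨D, C, h.mono fun i hi => hi _⟩

theorem pb_ite {g : I → ℂ} (hf : f ∈ S.PB) (hg : g ∈ S.PB) (p : I → Prop) [DecidablePred p] :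
    (fun i => if p i then f i else g i) ∈ S.PB := by
  have := pb_choice (g := fun b : Bool => if b then f else g)
    (fun b => by cases b <;> simpa) fun i => decide (p i)
  refine pb_congr this (.of_forall fun i => ?_)
  by_cases h : p i <;> simp [h]

/-- A common denominator. -/
theorem pb_den {J : Type} [Finite J] {g : J → I → ℂ} (h : ∀ j, g j ∈ S.PB) :
    ∃ C : ℕ, ∀ᶠ i in S.Bg, ∃ m : ℕ, 0 < m ∧ m ≤ S.M i ^ C ∧
      ∀ j, IsIntegral ℤ ((m : ℂ) * g j i) := by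
  have := Fintype.ofFinite J
  obtain ⟨D, C, h⟩ := pb_unif h
  refine ⟨C * Fintype.card J, h.mono fun i hi => ?_⟩
  obtain ⟨m, h1, h2, h3⟩ := exists_den univ (fun j => g j i) fun j _ => (hi j).den
  rw [← pow_mul] at h2
  exact ⟨m, h1, by exact_mod_cast h2, fun j => h3 j (mem_univ j)⟩

theorem pb_root (P : S.PB[X]) (hP : P.Monic)
    (h : ∀ᶠ i in S.Bg,
      (P.map ((Pi.evalRingHom (fun _ => ℂ) i).comp S.PB.subtype)).eval (f i) = 0) :
    f ∈ S.PB := by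
  obtain ⟨D, C, hc⟩ := pb_unif (J := Fin (P.natDegree + 1)) fun k => (P.coeff k).2
  refine ⟨D ^ (P.natDegree + 1) * P.natDegree, C * (P.natDegree + 1) + 1,
    (h.and hc).mono fun i hi => ?_⟩
  refine (Ht.root (H := (S.M i : ℝ) ^ C) (hP.map _) natDegree_map_le (fun k hk => ?_) hi.1).mono
    le_rfl (by rw [← pow_mul]; exact S.two_mul_le i _)
  rw [coeff_map]
  exact hi.2 ⟨k, by omega⟩

/-- Sums with a bounded number of terms. -/
theorem pb_sum {J : I → Type} [∀ i, Fintype (J i)] {N : ℕ}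
    (hN : ∀ᶠ i in S.Bg, Fintype.card (J i) ≤ N) {g : ∀ i, J i → ℂ}
    (h : (fun x : Σ i, J i => g x.1 x.2) ∈ (S.comap Sigma.fst).PB) :
    (fun i => ∑ j, g i j) ∈ S.PB := by
  obtain ⟨D, C, h⟩ := h
  have h0 : ∀ k : Fin N, (fun i => if hk : (k : ℕ) < Fintype.card (J i) then
      g i ((Fintype.equivFin (J i)).symm ⟨k, hk⟩) else 0) ∈ S.PB := fun k =>
    ⟨D + 1, C, (bg_sigma h).mono fun i hi => by
      dsimp only
      split_ifs
      · exact (hi _).mono (by omega) le_rfl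
      · simpa using (Ht.int 0 (one_le_pow₀ (S.one_le i)) (by simp)).mono (by omega) le_rfl⟩
  refine pb_congr (S.PB.sum_mem (t := univ) fun k _ => h0 k) (hN.mono fun i hi => ?_)
  rw [Finset.sum_apply, ← (Fintype.equivFin (J i)).symm.sum_comp,
    Fin.sum_univ_eq_sum_range (fun k => if hk : k < Fintype.card (J i) then
      g i ((Fintype.equivFin (J i)).symm ⟨k, hk⟩) else 0),
    ← sum_subset (range_subset_range.2 hi) fun k _ hk => dif_neg (by simpa using hk),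
    ← Fin.sum_univ_eq_sum_range (fun k => if hk : k < Fintype.card (J i) then
      g i ((Fintype.equivFin (J i)).symm ⟨k, hk⟩) else 0)]
  exact sum_congr rfl fun k _ => dif_pos k.2

end Sc

/-- `α` is integral at all places over `l`, and a unit unless it is zero. -/
def Gd (l : ℕ) [Fact l.Prime] (α : ℂ) : Prop :=
  ∀ φ : ℂ ≃+* PadicAlgCl l, ‖φ α‖ ≤ 1 ∧ (‖φ α‖ < 1 → α = 0)

theorem norm_int {l : ℕ} [Fact l.Prime] {n : ℤ} (h : ¬ (l : ℤ) ∣ n) :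
    ‖(n : PadicAlgCl l)‖ = 1 := by
  rw [← map_intCast (algebraMap ℚ_[l] (PadicAlgCl l)), PadicAlgCl.norm_extends]
  exact le_antisymm (Padic.norm_int_le_one n)
    (not_lt.1 fun c => h (Padic.norm_intCast_lt_one_iff.1 c))

theorem norm_le_one {l : ℕ} [Fact l.Prime] (φ : ℂ ≃+* PadicAlgCl l) {α : ℂ}
    (h : IsIntegral ℤ α) : ‖φ α‖ ≤ 1 := integral_le (abv_na φ) h

theorem Ht.gd {D : ℕ} {H : ℝ} {α : ℂ} (h : Ht D H α) : ∃ n : ℕ, 0 < n ∧
    (n : ℝ) ≤ H ^ (2 * D + 1) ∧ ∀ (l : ℕ) [Fact l.Prime], ¬ l ∣ n → Gd l α := by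
  by_cases h0 : α = 0
  · exact ⟨1, one_pos, by simpa using one_le_pow₀ h.one_le, fun l _ _ φ => by simp [h0]⟩
  obtain ⟨m, n, γ, a1, a2, a3, a4, a5, a6, a7, -⟩ := h.cof h0
  refine ⟨m * n.natAbs, by positivity, ?_, fun l _ hl φ => ?_⟩
  · rw [Nat.cast_mul, Nat.cast_natAbs, Int.cast_abs, pow_succ']
    exact mul_le_mul a2 a5 (abs_nonneg _) (by linarith [h.one_le])
  · have b1 : ‖(m : PadicAlgCl l)‖ = 1 := by
      simpa using norm_int (l := l) (n := m) fun c => hl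
        ((Int.natCast_dvd_natCast.1 c).mul_right _)
    have b2 : ‖(n : PadicAlgCl l)‖ = 1 := norm_int fun c => hl ((Int.natCast_dvd.1 c).mul_left _)
    have b3 := norm_le_one φ a3
    have b4 := congrArg (fun y => ‖φ y‖) a7
    simp only [map_mul, map_natCast, map_intCast, norm_mul, b1, b2, one_mul] at b3 b4
    refine ⟨b3, fun c => ?_⟩
    nlinarith [norm_le_one φ a6, norm_nonneg (φ α), norm_nonneg (φ γ)]

theorem Sc.pb_gd {S : Sc L l₁ I} {f : I → ℂ} (h : f ∈ S.PB) :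
    ∀ᶠ x in S.AE, Gd x.2.1 (f x.1) := by
  obtain ⟨D, C, h⟩ := h
  refine ⟨C * (2 * D + 1), h.mono fun i hi => ?_⟩
  obtain ⟨n, h1, h2, h3⟩ := hi.gd
  rw [← pow_mul] at h2
  exact ⟨n, h1, by exact_mod_cast h2, fun l _ hl => h3 l.1 hl⟩

end MG.RS
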