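import Pool.Agent.Lib.MP_33b3f9_ag.MG.RS.PjC

/-!
Spectral projectors of a block at one place.
-/

set_option autoImplicit false

noncomputable section

namespace MG.RS

open Matrix Polynomial Function Pool.Agent.M4.Mx

theorem exists_roots {J : Type} [Fintype J] {P : ℂ[X]} (hP : P.Monic)
    (h : P.natDegree = Fintype.card J) : ∃ ρ : J → ℂ, P = ∏ j, (X - C (ρ j)) := by
  classical
  have h1 : Fintype.card J = Fintype.card P.roots := by
    rw [Multiset.card_coe, IsAlgClosed.card_roots_eq_natDegree, h]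
  refine ⟨fun j => (Fintype.equivOfCardEq h1 j : ℂ), ?_⟩
  rw [(Fintype.equivOfCardEq h1).prod_comp fun x : P.roots => X - C (x : ℂ)]
  conv_lhs => rw [(IsAlgClosed.splits P).eq_prod_roots_of_monic hP, ← P.roots.map_univ_coe,
    Multiset.map_map]
  rfl

theorem prod_map {R R' J : Type} [CommRing R] [CommRing R'] (φ : R →+* R') (A : Finset J)
    (r : J → R) : (∏ j ∈ A, (X - C (r j))).map φ = ∏ j ∈ A, (X - C (φ (r j))) := by
  simp only [Polynomial.map_prod, Polynomial.map_sub, map_X, map_C]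

theorem exists_up_root {l : ℕ} [Fact l.Prime] (φ : ℂ ≃+* PadicAlgCl l) {P : (OO l)[X]}
    (hP : P.Monic) {α : ℂ} (h : (P.map (up φ)).eval α = 0) : ∃ x, up φ x = α := by
  have h1 : IsIntegral (OO l) (φ α) := ⟨P, hP, by
    have h2 := congrArg φ h
    rw [eval_map, map_zero] at h2
    refine Eq.trans ?_ ((hom_eval₂ P (up φ) φ.toRingHom α).symm.trans h2)
    congr 1
    exact RingHom.ext fun x => (phi_up φ x).symm⟩
  obtain ⟨x, hx⟩ := IsIntegrallyClosed.isIntegral_iff.1 h1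
  exact ⟨x, φ.injective ((phi_up φ x).trans hx)⟩

theorem bd_single {R m o : Type} [CommRing R] [Fintype m] [DecidableEq m] [Fintype o]
    [DecidableEq o] (s : o) (c : Fin 2) (G : Matrix m m R) :
    ∃ E : Matrix ((m × Fin 2) × o) m R, Eᵀ * E = 1 ∧ (blockDiagonal fun t => blockDiagonal
      ((Pi.single s (Pi.single c G) : o → Fin 2 → Matrix m m R) t)) = E * G * Eᵀ := by
  refine ⟨submatrix 1 id fun i => ((i, c), s), ?_, ?_⟩
  · ext p q
    simp [Matrix.mul_apply, one_apply]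
  · ext ⟨⟨p, d⟩, t⟩ ⟨⟨q, d'⟩, t'⟩
    by_cases h3 : t = s <;> by_cases h4 : t' = s <;> by_cases h5 : d = c <;>
      by_cases h6 : d' = c <;>
      simp [Matrix.mul_apply, one_apply, blockDiagonal_apply, h3, h4, h5, h6,
        eq_comm (a := s), eq_comm (a := c)]

theorem charpoly_rect {R m o : Type} [CommRing R] [Fintype m] [DecidableEq m] [Fintype o]
    [DecidableEq o] (P : Matrix o m R) (Q : Matrix m o R) (h : Q * P = 1) (G : Matrix m m R) :
    X ^ Fintype.card m * (P * G * Q).charpoly = X ^ Fintype.card o * G.charpoly := by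
  rw [Matrix.mul_assoc, charpoly_mul_comm', Matrix.mul_assoc, h, Matrix.mul_one]

variable [Dim] {e : ℕ} {a b : MZ} {m n : ℕ}

section ring

variable {R : Type} [CommRing R] (z : MorD e a b R) (s : Fin e) (c : Fin 2)

theorem em2_mul_bk (y : M8 R) (x : Fin e → Fin 2 → M8 R) :
    z.em2 x * bk z s c y = bk z s c (x s c * y) := by
  rw [bk, bk, ← map_mul]
  refine congrArg z.em2 ?_
  funext t d
  by_cases ht : t = s
  · subst ht
    by_cases hd : d = c
    · subst hd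
      simp
    · simp [hd]
  · simp [ht]

theorem bk_mul_bk (x y : M8 R) : bk z s c x * bk z s c y = bk z s c (x * y) := by
  conv_lhs => rw [bk, em2_mul_bk, Pi.single_eq_same, Pi.single_eq_same]

theorem bk_zero : bk z s c 0 = 0 := by rw [bk, Pi.single_zero, Pi.single_zero, map_zero]

theorem bk_sub (x y : M8 R) : bk z s c (x - y) = bk z s c x - bk z s c y := by
  rw [bk, bk, bk, Pi.single_sub, Pi.single_sub, map_sub]

theorem pr2_bk (x : M8 R) : z.pr2 (bk z s c x) s c = x := by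
  rw [bk, Mor.pr2_em2, Pi.single_eq_same, Pi.single_eq_same]

theorem aeval_bk (G Y : M8 R) (P : R[X]) :
    aeval (bk z s c G) P * bk z s c Y = bk z s c (aeval G P * Y) := by
  conv_lhs => rw [bk, aeval_algHom_apply, em2_mul_bk]
  congr 2
  have h := aeval_algHom_apply ((Pi.evalAlgHom R (fun _ : Fin 2 => M8 R) c).comp
    (Pi.evalAlgHom R (fun _ : Fin e => Fin 2 → M8 R) s)) (Pi.single s (Pi.single c G)) P
  simpa using h.symm

theorem Pj.bk {G Z : M8 R} {P Q : R[X]} (h : Pj G 1 P Q Z) :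
    Pj (bk z s c G) (bk z s c 1) P Q (bk z s c Z) :=
  ⟨by rw [aeval_bk, h.1, bk_zero], by rw [← bk_sub, aeval_bk, h.2, bk_zero]⟩

theorem charpoly_bk : ∃ M N : ℕ, ∀ (z : MorD e a b R) (s : Fin e) (c : Fin 2) (G : M8 R),
    X ^ M * (bk z s c G).charpoly = X ^ N * G.charpoly := by
  refine ⟨Fintype.card ω, Fintype.card ν, fun z s c G => ?_⟩
  obtain ⟨E, h1, h2⟩ := bd_single s c G
  have h3 : bk z s c G = z.S * E * G * (Eᵀ * z.S') := by
    rw [bk, Mor.em2_apply, Mor.bm_apply, h2]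
    simp only [Matrix.mul_assoc]
  exact h3 ▸ charpoly_rect _ _ (by
    rw [Matrix.mul_assoc Eᵀ, ← Matrix.mul_assoc z.S', z.inv', Matrix.one_mul, h1]) G

theorem sym_bk (hP : PEL e a b m n) {x : R} (hx : x * (b.det : ℤ) = 1) (y : M8 R) :
    bk z s c y + x • (zM R b * bk z s c y * zM R b.adjugate) = z.em (Pi.single s y) := by
  rw [b_mul_bk z hP, Matrix.mul_assoc, ← zM_mul, mul_adjugate, zM_smul, zM_one, Matrix.mul_smul,
    Matrix.mul_one, smul_smul, hx, one_smul, em_single]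
  fin_cases c <;> simp [add_comm]

theorem isUnit_pr2 {g : Matrix ν ν R} (hu : IsUnit g) (h : Commute (zM R a) g) :
    IsUnit (z.pr2 g s c) := by
  obtain ⟨u, rfl⟩ := hu
  refine IsUnit.of_mul_eq_one (z.pr2 (u⁻¹ : (Matrix ν ν R)ˣ) s c) (bk_inj z s c ?_)
  rw [← bk_mul_em2, z.em2_pr2 h.units_inv_right, ← bk_mul z h, Matrix.mul_assoc, u.mul_inv,
    Matrix.mul_one]

end ring

theorem beta_ne {k : Type} [Field k] (w : MorD e a b k) (s : Fin e) (c : Fin 2) :
    w.β s c c.rev ≠ 0 := fun hc => by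
  have h4 : ∀ y ∈ Algebra.adjoin k {w.α, w.β}, y s c c.rev = 0 := fun y hy => by
    induction hy using Algebra.adjoin_induction with
    | mem x hx =>
      rcases hx with rfl | rfl
      · rw [w.hα]
        fin_cases c <;> simp
      · exact hc
    | algebraMap r => fin_cases c <;> simp [algebraMap_matrix_apply]
    | add x y _ _ h1 h2 => rw [Pi.add_apply, Matrix.add_apply, h1, h2, add_zero]
    | mul x y _ _ h1 h2 =>
      rw [Pi.mul_apply, Matrix.mul_apply, Fin.sum_univ_two]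
      fin_cases c
      · exact (congrArg₂ (fun u v => x s 0 0 * u + v * y s 1 1) h2 h1).trans (by simp)
      · exact (congrArg₂ (fun u v => v * y s 0 0 + x s 1 1 * u) h2 h1).trans (by simp)
  simpa using h4 (fun _ => single c c.rev 1) (w.gen ▸ Algebra.mem_top)

theorem n_ne_zero (hP : PEL e a b m n) {k : Type} [Field k] (w : MorD e a b k) :
    ((b.det : ℤ) : k) ≠ 0 := by
  have h1 : zM k b * w.sl (fun s => !![0, (w.β s 1 0)⁻¹; (w.β s 0 1)⁻¹, 0]) = 1 := by
    rw [w.b_eq, ← Mor.sl_apply, ← map_mul, ← map_one w.sl]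
    refine congrArg w.sl (funext fun s => ?_)
    have h2 : w.β s 0 1 ≠ 0 := beta_ne w s 0
    have h3 : w.β s 1 0 ≠ 0 := beta_ne w s 1
    ext i j
    fin_cases i <;> fin_cases j <;> simp [Matrix.mul_apply, beta_diag w hP, h2, h3]
  have h2 := congrArg det h1
  rw [det_mul, det_one] at h2
  exact ((Int.castRingHom k).map_det b).trans_ne (left_ne_zero_of_mul_eq_one h2)

section place

variable {l : ℕ} [Fact l.Prime] {φ : ℂ ≃+* PadicAlgCl l} (W : Fm e a b (OO l))
  {z : MorD e a b ℂ} {s s' : Fin e} {c c' : Fin 2}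

theorem rd_bk (s : Fin e) (c : Fin 2) {G : M8 ℂ} {B : M8 (kk l)} (h : Rd φ G B) :
    Rd φ (bk (W.map (up φ)).z s c G) (bk (W.map (rd l)).z s c B) := by
  obtain ⟨G, rfl, rfl⟩ := h
  exact ⟨bk W.z s c G, bk_map _ _ _ _ _, bk_map _ _ _ _ _⟩

theorem rd_sym (hP : PEL e a b m n) {Z : Matrix ν ν ℂ} {y : M8 (kk l)}
    (h : Rd φ Z (bk (W.map (rd l)).z s c y)) :
    Rd φ (Z + ((b.det : ℤ) : ℂ)⁻¹ • (zM ℂ b * Z * zM ℂ b.adjugate))
      ((W.map (rd l)).z.em (Pi.single s y)) := by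
  obtain ⟨x, hx⟩ := (isUnit_of_rd (x := ((b.det : ℤ) : OO l)) (by
    rw [map_intCast]; exact n_ne_zero hP (W.map (rd l)).z)).exists_left_inv
  have h1 : up φ x = ((b.det : ℤ) : ℂ)⁻¹ :=
    eq_inv_of_mul_eq_one_left (by rw [← map_intCast (up φ), ← map_mul, hx, map_one])
  rw [← sym_bk _ s c hP (x := rd l x) (by rw [← map_intCast (rd l), ← map_mul, hx, map_one]), ← h1]
  exact h.add ((((Rd.int b).mul h).mul (Rd.int _)).smul x)

/-- The block and its eigenvalues are integral. -/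
theorem rd_roots (hζ : (W.map (up φ)).z.ζ s' c' = z.ζ s c) {G : M8 ℂ} {B : M8 (kk l)}
    (hg : Rd φ (bk z s c G) (bk (W.map (rd l)).z s' c' B)) {ρ : κ → ℂ}
    (hρ : G.charpoly = ∏ k, (X - C (ρ k))) : ∃ (G₀ : M8 (OO l)) (r : κ → OO l),
      (bk W.z s' c' G₀).map (up φ) = bk z s c G ∧ G₀.map (rd l) = B ∧ (∀ k, up φ (r k) = ρ k) ∧
      G₀.charpoly = ∏ k, (X - C (r k)) := by
  obtain ⟨g, g1, g2⟩ := hg
  have h1 : (bk W.z s' c' (W.z.pr2 g s' c')).map (up φ) = bk z s c G := by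
    rw [bk_map, Mor.map_pr2, g1]
    refine (bk_mul (W.map (up φ)).z (z.comm_a2 _) s' c').symm.trans ?_
    rw [bk_eq_of z _ hζ]
    exact (bk_mul_bk z s c 1 G).trans (by rw [Matrix.one_mul])
  have h2 : (W.z.pr2 g s' c').charpoly.map (up φ) = ∏ k, (X - C (ρ k)) := by
    obtain ⟨M, N, h0⟩ := charpoly_bk (e := e) (a := a) (b := b) (R := ℂ)
    have h3 := h0 (W.z.map (up φ)) s' c' ((W.z.pr2 g s' c').map (up φ))
    rw [← bk_map, h1, h0] at h3
    exact (charpoly_map _ _).symm.trans (((isRegular_X_pow N).left h3).symm.trans hρ)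
  have h4 : ∀ k, ∃ x, up φ x = ρ k := fun k => exists_up_root φ (charpoly_monic _) (by
    rw [h2, eval_prod]
    exact Finset.prod_eq_zero (Finset.mem_univ k) (by simp))
  choose r hr using h4
  refine ⟨_, r, h1, ?_, hr, Polynomial.map_injective _ (up_inj φ) ?_⟩
  · rw [Mor.map_pr2, g2]
    exact pr2_bk (W.map (rd l)).z s' c' B
  · rw [h2, prod_map]
    simp only [hr]

omit [Dim] in
theorem rd_label {G₀ : M8 (OO l)} {r : κ → OO l} (hr : G₀.charpoly = ∏ k, (X - C (r k)))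
    {f : Fr ω (kk l)} {h : Fin 3 → M2 (kk l)} (hG : G₀.map (rd l) = f.T h)
    {lam : Fin 3 → Fin 2 → kk l} (hl : Eig h lam) :
    ∃ π : Equiv.Perm κ, ∀ k, rd l (r (π k)) = ∏ i, lam i (k i) :=
  roots_perm (r := fun k => rd l (r k)) (by
    rw [← hl.charpoly f, ← hG, charpoly_map, hr, prod_map])

/-- The projector of a face reduces to one slot. -/
theorem rd_pj (hζ : (W.map (up φ)).z.ζ s' c' = z.ζ s c) {G₀ : M8 (OO l)} {r : κ → OO l}
    (hr : G₀.charpoly = ∏ k, (X - C (r k))) {h : Fin 3 → M2 (kk l)}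
    (hG : G₀.map (rd l) = ((W.map (rd l)).f s').T h) {lam : Fin 3 → Fin 2 → kk l}
    (hl : Eig h lam) {π : Equiv.Perm κ} (hπ : ∀ k, rd l (r (π k)) = ∏ i, lam i (k i))
    {A : Finset κ} {i : Fin 3} {d : Fin 2} (hA : ∀ k, π k ∈ A ↔ k i = d)
    (hu : ∀ j ∈ A, ∀ k ∈ Aᶜ, rd l (r j) ≠ rd l (r k)) {Z : Matrix ν ν ℂ}
    (hZ : Pj ((bk W.z s' c' G₀).map (up φ)) (bk z s c 1) (∏ k ∈ A, (X - C (up φ (r k))))
      (∏ k ∈ Aᶜ, (X - C (up φ (r k)))) Z) : lam i d ≠ lam i d.rev ∧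
      Rd φ Z (bk (W.map (rd l)).z s' c'
        (((W.map (rd l)).f s').u i (ep (h i) (lam i d) (lam i d.rev)))) := by
  have h1 := coprime_prod r A Aᶜ fun j hj k hk => isUnit_of_rd (by
    rw [map_sub]; exact sub_ne_zero.2 (hu j hj k hk))
  obtain ⟨V, hV⟩ := exists_pj (g := bk W.z s' c' G₀) (ε := bk W.z s' c' 1) h1 (by
    rw [Finset.prod_mul_prod_compl, ← hr, aeval_bk, aeval_self_charpoly, Matrix.zero_mul, bk_zero])
  have h2 := hV.map (up φ)
  have h3 := hV.map (rd l)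
  have h4 := h1.map (mapRingHom (up φ))
  have h5 := h1.map (mapRingHom (rd l))
  simp only [coe_mapRingHom, prod_map] at h2 h3 h4 h5
  rw [bk_map W.z (up φ) s' c' 1, Matrix.map_one _ (map_zero _) (map_one _)] at h2
  rw [bk_map, bk_map, Matrix.map_one _ (map_zero _) (map_one _), hG] at h3
  obtain ⟨h6, h7⟩ := pj_face ((W.map (rd l)).f s') hl i d h5
    (fun k hk => hπ k ▸ Finset.dvd_prod_of_mem _ ((hA k).2 hk))
    fun k hk => hπ k ▸ Finset.dvd_prod_of_mem _ (Finset.mem_compl.2 fun c => hk ((hA k).1 c))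
  refine ⟨h6, _, Pj.unique h4 h2 (bk_eq_of z (W.map (up φ)).z hζ ▸ hZ), ?_⟩
  exact Pj.unique h5.pow (h3.dvd (dvd_pow_self _ (by omega)) (dvd_pow_self _ (by omega)))
    (h7.bk (W.map (rd l)).z s' c')

end place

end MG.RS
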