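import Pool.Agent.Lib.MP_33b3f9_ag.MG.RS.WDef

/-!
Cubes of eigenvalues, faces and spectral projectors.
-/

set_option autoImplicit false

noncomputable section

namespace MG.RS

open Matrix Polynomial Function Pool.Agent.M4.Mx

/-- The cube relations. -/
def Cb {M : Type} [CommMonoid M] (N : κ → M) : Prop :=
  ∀ (j k : κ) (t : Fin 3), N (update j t (k t)) * N (update k t (j t)) = N j * N k

theorem prod_update {M : Type} [CommMonoid M] (lam : Fin 3 → Fin 2 → M) (j : κ) (t : Fin 3)
    (c : Fin 2) :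
    ∏ i, lam i (update j t c i) = lam t c * ∏ i ∈ Finset.univ.erase t, lam i (j i) := by
  rw [← Finset.mul_prod_erase _ _ (Finset.mem_univ t), update_self]
  congr 1
  exact Finset.prod_congr rfl fun i hi => by rw [update_of_ne (Finset.ne_of_mem_erase hi)]

theorem cb_prod {M : Type} [CommMonoid M] (lam : Fin 3 → Fin 2 → M) :
    Cb fun k => ∏ i, lam i (k i) := fun j k t => by
  have h := fun j : κ => prod_update lam j t (j t)
  simp only [update_eq_self] at h
  simp only [prod_update]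
  rw [h j, h k, mul_mul_mul_comm, mul_comm (lam t (k t)), mul_mul_mul_comm]

theorem card_face (i : Fin 3) (c : Fin 2) : (Finset.univ.filter fun k : κ => k i = c).card = 4 := by
  revert i c
  decide

theorem eq_rev {c d : Fin 2} (h : d ≠ c) : d = c.rev := by
  revert c d
  decide

/-- Four vertices with the largest value form a face. -/
theorem face_of_max {N : κ → ℝ} (h0 : ∀ k, 0 ≤ N k) (h : Cb N) {A : Finset κ} (hA : A.card = 4)
    {v : ℝ} (hv : 0 < v) (h1 : ∀ k ∈ A, N k = v) (h2 : ∀ k, k ∉ A → N k < v) :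
    ∃ i c, ∀ k, k ∈ A ↔ k i = c := by
  have h3 : ∀ k, N k ≤ v := fun k => by
    by_cases hk : k ∈ A
    · exact (h1 k hk).le
    · exact (h2 k hk).le
  have cl : ∀ j ∈ A, ∀ k ∈ A, ∀ t, update j t (k t) ∈ A := fun j hj k hk t => by
    by_contra hc
    have h4 := h j k t
    rw [h1 j hj, h1 k hk] at h4
    nlinarith [h2 _ hc, h3 (update k t (j t)), h0 (update k t (j t)), h0 (update j t (k t))]
  by_contra hn
  have h4 : ∀ i c, ∃ k ∈ A, k i = c := fun i c => by
    by_contra hc
    have hs : A = Finset.univ.filter fun k : κ => k i = c.rev :=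
      Finset.eq_of_subset_of_card_le (fun k hk => Finset.mem_filter.2
        ⟨Finset.mem_univ _, eq_rev fun e => hc ⟨k, hk, e⟩⟩) (by rw [card_face, hA])
    exact hn ⟨i, c.rev, fun k => by rw [hs]; simp⟩
  choose g hg hg' using h4
  have h5 : A = Finset.univ := Finset.eq_univ_of_forall fun k => by
    have h6 := cl _ (cl _ (hg 0 (k 0)) _ (hg 1 (k 1)) 1) _ (hg 2 (k 2)) 2
    refine (congrArg (· ∈ A) ?_).mp h6
    funext t
    fin_cases t <;> simp [hg']
  rw [h5] at hA
  exact absurd hA (by decide)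

section pj

variable {R R' n : Type} [CommRing R] [CommRing R'] [Fintype n] [DecidableEq n]
  {g ε Z Z' : Matrix n n R} {P Q : R[X]}

/-- `Z` is the part of `ε` that is killed by `P g`. -/
def Pj (g ε : Matrix n n R) (P Q : R[X]) (Z : Matrix n n R) : Prop :=
  aeval g P * Z = 0 ∧ aeval g Q * (Z - ε) = 0

theorem aeval_map (φ : R →+* R') (g : Matrix n n R) (P : R[X]) :
    (aeval g P).map φ = aeval (g.map φ) (P.map φ) := by
  refine P.induction_on' (fun p q hp hq => ?_) fun k c => ?_
  · rw [map_add, Matrix.map_add _ (map_add φ), hp, hq, Polynomial.map_add, map_add]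
  · rw [Polynomial.map_monomial, aeval_monomial, aeval_monomial, Matrix.map_mul,
      ← RingHom.mapMatrix_apply φ (g ^ k), map_pow, Algebra.algebraMap_eq_smul_one,
      Algebra.algebraMap_eq_smul_one]
    congr 1
    ext i j
    simp [one_apply, apply_ite φ]

theorem Pj.map (h : Pj g ε P Q Z) (φ : R →+* R') :
    Pj (g.map φ) (ε.map φ) (P.map φ) (Q.map φ) (Z.map φ) := by
  refine ⟨?_, ?_⟩
  · rw [← aeval_map, ← Matrix.map_mul, h.1, Matrix.map_zero _ (map_zero φ)]
  · rw [← aeval_map, ← Matrix.map_sub _ (map_sub φ), ← Matrix.map_mul, h.2,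
      Matrix.map_zero _ (map_zero φ)]

theorem Pj.dvd (h : Pj g ε P Q Z) {P' Q' : R[X]} (hP : P ∣ P') (hQ : Q ∣ Q') : Pj g ε P' Q' Z := by
  obtain ⟨u, rfl⟩ := hP
  obtain ⟨v, rfl⟩ := hQ
  exact ⟨by rw [mul_comm P, map_mul, Matrix.mul_assoc, h.1, Matrix.mul_zero],
    by rw [mul_comm Q, map_mul, Matrix.mul_assoc, h.2, Matrix.mul_zero]⟩

theorem eq_zero_of_coprime {o : Type} (hc : IsCoprime P Q) {W : Matrix n o R}
    (h1 : aeval g P * W = 0) (h2 : aeval g Q * W = 0) : W = 0 := by
  obtain ⟨u, v, h⟩ := hc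
  rw [← Matrix.one_mul W, ← map_one (aeval (R := R) g), ← h, map_add, map_mul, map_mul, Matrix.add_mul,
    Matrix.mul_assoc, Matrix.mul_assoc, h1, h2, Matrix.mul_zero, Matrix.mul_zero, add_zero]

theorem Pj.unique (hc : IsCoprime P Q) (h : Pj g ε P Q Z) (h' : Pj g ε P Q Z') : Z = Z' :=
  sub_eq_zero.1 (eq_zero_of_coprime (g := g) hc (by rw [Matrix.mul_sub, h.1, h'.1, sub_zero])
    (by rw [← sub_sub_sub_cancel_right Z Z' ε, Matrix.mul_sub, h.2, h'.2, sub_zero]))

theorem exists_pj (hc : IsCoprime P Q) (h : aeval g (P * Q) * ε = 0) :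
    ∃ V : R[X], Pj g ε P Q (aeval g V * ε) := by
  obtain ⟨u, v, e⟩ := hc
  refine ⟨v * Q, ?_, ?_⟩
  · rw [← Matrix.mul_assoc, ← map_mul, show P * (v * Q) = v * (P * Q) by ring, map_mul,
      Matrix.mul_assoc, h, Matrix.mul_zero]
  · rw [Matrix.mul_sub, ← Matrix.mul_assoc, ← map_mul, ← Matrix.sub_mul, ← map_sub,
      show Q * (v * Q) - Q = -u * (P * Q) by linear_combination Q * e, map_mul,
      Matrix.mul_assoc, h, Matrix.mul_zero]

theorem aeval_mul_congr {g' : Matrix n n R} (h : g * Z = g' * Z) (hc : Commute g' Z) (P : R[X]) :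
    aeval g P * Z = aeval g' P * Z := by
  have h1 : ∀ k : ℕ, g ^ k * Z = g' ^ k * Z := fun k => by
    induction k with
    | zero => rfl
    | succ k ih =>
      rw [pow_succ, Matrix.mul_assoc, h, hc.eq, ← Matrix.mul_assoc, ih, Matrix.mul_assoc, ← hc.eq,
        ← Matrix.mul_assoc, ← pow_succ]
  refine P.induction_on' (fun p q hp hq => ?_) fun k c => ?_
  · rw [map_add, map_add, Matrix.add_mul, Matrix.add_mul, hp, hq]
  · rw [aeval_monomial, aeval_monomial, Matrix.mul_assoc, Matrix.mul_assoc, h1]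

theorem coprime_prod {J : Type} (r : J → R) (A B : Finset J)
    (h : ∀ j ∈ A, ∀ k ∈ B, IsUnit (r j - r k)) :
    IsCoprime (∏ j ∈ A, (X - C (r j))) (∏ k ∈ B, (X - C (r k))) :=
  IsCoprime.prod_left fun j hj => IsCoprime.prod_right fun k hk =>
    isCoprime_X_sub_C_of_isUnit_sub (h j hj k hk)

end pj

section field

variable {k : Type} [Field k] (f : Fr ω k) {h : Fin 3 → M2 k} {lam : Fin 3 → Fin 2 → k}

/-- `lam i` are the eigenvalues of `h i`. -/
def Eig (h : Fin 3 → M2 k) (lam : Fin 3 → Fin 2 → k) : Prop :=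
  ∀ i, lam i 0 + lam i 1 = (h i).trace ∧ lam i 0 * lam i 1 = (h i).det

theorem Eig.charpoly (hl : Eig h lam) :
    (f.T h).charpoly = ∏ ε : κ, (X - C (∏ i, lam i (ε i))) :=
  M4.CM.charpoly_T f h lam (fun i => (hl i).1) fun i => (hl i).2

/-- The projector of `x` for the eigenvalue `p`, the other one being `q`. -/
def ep (x : M2 k) (p q : k) : M2 k := (p - q)⁻¹ • (x - q • 1)

theorem ch2 {x : M2 k} {p q : k} (h1 : p + q = x.trace) (h2 : p * q = x.det) :
    x * (x - q • 1) = p • (x - q • 1) := by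
  rw [trace_fin_two] at h1
  rw [det_fin_two] at h2
  ext i j
  fin_cases i <;> fin_cases j <;> simp [Matrix.mul_apply, Fin.sum_univ_two]
  · linear_combination h2 - x 0 0 * h1
  · linear_combination (-x 0 1) * h1
  · linear_combination (-x 1 0) * h1
  · linear_combination h2 - x 1 1 * h1

theorem mul_ep {x : M2 k} {p q : k} (h1 : p + q = x.trace) (h2 : p * q = x.det) :
    x * ep x p q = p • ep x p q := by
  rw [ep, Matrix.mul_smul, ch2 h1 h2, smul_comm]

theorem one_sub_ep (x : M2 k) {p q : k} (h : p ≠ q) : 1 - ep x p q = ep x q p := by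
  have h1 := sub_ne_zero.2 h
  have h2 := sub_ne_zero.2 h.symm
  ext i j
  simp only [ep, Matrix.sub_apply, Matrix.smul_apply, smul_eq_mul]
  field_simp
  ring

theorem ep_sq {x : M2 k} {p q : k} (h1 : p + q = x.trace) (h2 : p * q = x.det) (h : p ≠ q) :
    ep x p q * ep x p q = ep x p q := by
  nth_rewrite 1 [ep]
  rw [Matrix.smul_mul, Matrix.sub_mul, mul_ep h1 h2, Matrix.smul_mul, Matrix.one_mul, ← sub_smul,
    smul_smul, inv_mul_cancel₀ (sub_ne_zero.2 h), one_smul]

theorem ep_trace {x : M2 k} {p q : k} (h1 : p + q = x.trace) (h : p ≠ q) :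
    (ep x p q).trace = 1 := by
  have h2 := sub_ne_zero.2 h
  rw [ep, trace_smul, trace_sub, trace_smul, trace_one, ← h1, Fintype.card_fin]
  simp only [smul_eq_mul, Nat.cast_ofNat]
  field_simp
  ring

theorem Eig.rev (hl : Eig h lam) (i : Fin 3) (c : Fin 2) :
    lam i c + lam i c.rev = (h i).trace ∧ lam i c * lam i c.rev = (h i).det := by
  fin_cases c
  · exact hl i
  · exact ⟨(add_comm _ _).trans (hl i).1, (mul_comm _ _).trans (hl i).2⟩

theorem kill_face (hl : Eig h lam) {i : Fin 3} {c : Fin 2} {y : M2 k}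
    (hy : h i * y = lam i c • y) {P : k[X]}
    (hP : ∀ ε : κ, ε i = c → X - C (∏ t, lam t (ε t)) ∣ P) :
    aeval (f.T h) (P ^ 8) * f.u i y = 0 := by
  have h1 : Eig (update h i (lam i c • 1)) (update lam i fun _ => lam i c) := fun t => by
    by_cases ht : t = i
    · subst ht
      simp [mul_two, sq]
    · simpa [update_of_ne ht] using hl t
  have h2 : ∀ x x' : M2 k, update h i x * update (1 : Fin 3 → M2 k) i x' = update h i (x * x') :=
    fun x x' => by rw [← update_mul, mul_one]
  have h3 : ∀ x x' : M2 k, update (1 : Fin 3 → M2 k) i x' * update h i x = update h i (x' * x) :=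
    fun x x' => by rw [← update_mul, one_mul]
  have h4 : (f.T (update h i (lam i c • 1))).charpoly ∣ P ^ 8 := by
    rw [h1.charpoly f, show P ^ 8 = ∏ _ε : κ, P by simp]
    refine Finset.prod_dvd_prod_of_dvd _ _ fun ε _ => ?_
    have h5 := hP (update ε i c) (update_self _ _ _)
    rw [prod_update] at h5
    rw [← Finset.mul_prod_erase _ _ (Finset.mem_univ i), update_self, Finset.prod_congr rfl
      fun t ht => by rw [update_of_ne (Finset.ne_of_mem_erase ht)]]
    exact h5
  obtain ⟨V, hV⟩ := h4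
  rw [aeval_mul_congr (g' := f.T (update h i (lam i c • 1))), hV, mul_comm _ V, map_mul,
    aeval_self_charpoly, Matrix.mul_zero, Matrix.zero_mul]
  · conv_lhs => rw [← update_eq_self i h]
    rw [Fr.u_apply, f.T_mul, f.T_mul, h2, h2, hy, Matrix.smul_mul, Matrix.one_mul]
  · rw [Commute, SemiconjBy, Fr.u_apply, f.T_mul, f.T_mul, h2, h3, Matrix.smul_mul,
      Matrix.mul_smul, Matrix.one_mul, Matrix.mul_one]

/-- The spectral projector of a face lies in one slot. -/
theorem pj_face (hl : Eig h lam) (i : Fin 3) (c : Fin 2) {P Q : k[X]} (hc : IsCoprime P Q)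
    (hP : ∀ ε : κ, ε i = c → X - C (∏ t, lam t (ε t)) ∣ P)
    (hQ : ∀ ε : κ, ε i ≠ c → X - C (∏ t, lam t (ε t)) ∣ Q) : lam i c ≠ lam i c.rev ∧
      Pj (f.T h) 1 (P ^ 8) (Q ^ 8) (f.u i (ep (h i) (lam i c) (lam i c.rev))) := by
  have h0 : c.rev ≠ c := by fin_cases c <;> simp
  have h1 : lam i c ≠ lam i c.rev := fun e => by
    have h2 := hP (update 0 i c) (update_self _ _ _)
    have h3 := hQ (update 0 i c.rev) (by rwa [update_self])
    rw [prod_update] at h2 h3
    exact not_isUnit_X_sub_C _ (hc.isUnit_of_dvd' h2 (e ▸ h3))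
  have h2 := hl.rev i c
  refine ⟨h1, kill_face f hl (mul_ep h2.1 h2.2) hP, ?_⟩
  rw [← neg_sub, Matrix.mul_neg, neg_eq_zero, ← map_one (f.u i), ← map_sub, one_sub_ep _ h1]
  exact kill_face f hl (mul_ep ((add_comm _ _).trans h2.1) ((mul_comm _ _).trans h2.2))
    fun ε e => hQ ε (e ▸ h0)

/-- Two factorisations into linear factors differ by a permutation. -/
theorem roots_perm {J : Type} [Fintype J] {r r' : J → k}
    (h : ∏ j, (X - C (r j)) = ∏ j, (X - C (r' j))) : ∃ π : Equiv.Perm J, ∀ j, r (π j) = r' j := by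
  classical
  have h1 : ∀ r : J → k, (∏ j, (X - C (r j))).roots = Finset.univ.val.map r := fun r => by
    rw [← roots_multiset_prod_X_sub_C (Finset.univ.val.map r), Multiset.map_map]
    rfl
  have h2 : ∀ x, Fintype.card {j // r' j = x} = Fintype.card {j // r j = x} := fun x => by
    have h3 := congrArg (Multiset.count x) ((h1 r').symm.trans (h ▸ h1 r))
    simp only [Multiset.count_map] at h3
    simp only [Fintype.card_subtype, eq_comm (b := x)]
    exact h3
  exact ⟨Equiv.ofFiberEquiv fun x => Fintype.equivOfCardEq (h2 x),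
    Equiv.ofFiberEquiv_map _⟩

end field

theorem exists_eig {l : ℕ} [Fact l.Prime] (h : Fin 3 → M2 (kk l)) : ∃ lam, Eig h lam := by
  choose x y hxy using fun i => exists_root (h i).trace (h i).det
  exact ⟨fun i => ![x i, y i], hxy⟩

end MG.RS
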