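import Pool.Agent.Lib.MP_33b3f9_ag.MG.RS.PjA

/-!
The family of projectors attached to a family of pure tensors.
-/

set_option autoImplicit false

noncomputable section

namespace MG.RS

open Matrix Polynomial Filter Function Pool.Agent.M4.Mx

variable {L : Type} [Field L] {l₁ : ℕ} {I : Type} {S : Sc L l₁ I}

theorem mem_pj {J o : Type} [Fintype J] [DecidableEq J] [Fintype o] [DecidableEq o]
    {g ε Z : I → Matrix o o ℂ} (hg : Mem S.PB g) (hε : Mem S.PB ε) {ρ : I → J → ℂ}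
    (hρ : ∀ j, (fun i => ρ i j) ∈ S.PB) (A : I → Finset J)
    (h : ∀ᶠ i in S.Bg, (∀ j ∈ A i, ∀ k ∈ (A i)ᶜ, ρ i j ≠ ρ i k) ∧ Pj (g i) (ε i)
      (∏ j ∈ A i, (X - C (ρ i j))) (∏ j ∈ (A i)ᶜ, (X - C (ρ i j))) (Z i)) : Mem S.PB Z := by
  have h1 : ∀ B : I → Finset J, Mem S.PB fun i => aeval (g i) (∏ j ∈ B i, (X - C (ρ i j))) :=
    fun B => Mem.choice (g := fun (B : Finset J) i => aeval (g i) (∏ j ∈ B, (X - C (ρ i j))))
      (fun B => Mem.aeval_prod B fun j _ => hg.aeval_lin (hρ j)) B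
  refine Mem.solve (h1 A) (h1 fun i => (A i)ᶜ) (Mem.zero.congr (h.mono fun i hi => hi.2.1.symm))
    (((h1 fun i => (A i)ᶜ).mul hε).congr (h.mono fun i hi => ?_)) (h.mono fun i hi v a1 a2 => ?_)
  · exact (sub_eq_zero.1 ((Matrix.mul_sub _ _ _).symm.trans hi.2.2)).symm
  · have h2 := eq_zero_of_coprime (g := g i) (W := replicateCol Unit v)
      (coprime_prod (ρ i) _ _ fun j hj k hk => (sub_ne_zero.2 (hi.1 j hj k hk)).isUnit)
      (by rw [← replicateCol_mulVec, a1, replicateCol_zero])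
      (by rw [← replicateCol_mulVec, a2, replicateCol_zero])
    exact funext fun p => congrFun (congrFun h2 p) ()

variable [Dim] {e : ℕ} {a b : MZ} {m n : ℕ}

theorem root_pr2 (z : MorD e a b ℂ) (s : Fin e) (c : Fin 2) {g : Matrix ν ν ℂ}
    (h : Commute (zM ℂ a) g) {t : ℂ} (ht : (z.pr2 g s c).charpoly.eval t = 0) :
    g.charpoly.eval t = 0 := by
  by_contra h0
  rw [eval_charpoly, scalar_apply, ← smul_one_eq_diagonal] at h0 ht
  have h1 := isUnit_pr2 z s c ((isUnit_iff_isUnit_det _).2 (Ne.isUnit h0))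
    (((Commute.one_right _).smul_right t).sub_right h)
  rw [map_sub, map_smul, ← map_one z.em2, Mor.pr2_em2] at h1
  exact ((isUnit_iff_isUnit_det _).1 h1).ne_zero ht

theorem pb_bk (S : Sc L l₁ I) (z : I → MorD e a b ℂ) (s : I → Fin e) (c : I → Fin 2) :
    Mem S.PB fun i => bk (z i) (s i) (c i) 1 := by
  refine mem_pj (Mem.int a) Mem.one (ρ := fun i (p : Fin e × Fin 2) => (z i).ζ p.1 p.2)
    (fun p => (Mem.int a).root (.of_forall fun i => root_pr2 (z i) p.1 p.2 rfl ?_))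
    (fun i => {(s i, c i)}) (.of_forall fun i => ⟨fun j hj k hk => ?_, ?_, ?_⟩)
  · conv_lhs => rw [eval_charpoly, (z i).a_eq2, Mor.pr2_em2, scalar_apply, ← smul_one_eq_diagonal,
      sub_self]
    exact det_zero
  · refine sub_ne_zero.1 ((z i).sep _ _ _ _ fun h => ?_).ne_zero
    exact Finset.mem_compl.1 hk ((show j = k from h) ▸ hj)
  · rw [Finset.prod_singleton, map_sub, aeval_X, aeval_C, Matrix.sub_mul, (a_mul_bk _ _ _ _).1,
      Algebra.algebraMap_eq_smul_one, Matrix.smul_mul, Matrix.one_mul, sub_self]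
  · rw [← neg_sub, Matrix.mul_neg, neg_eq_zero]
    nth_rewrite 1 [← sum_bk (z i)]
    rw [← Finset.sum_compl_add_sum {(s i, c i)}, Finset.sum_singleton, add_sub_cancel_right,
      Matrix.mul_sum]
    refine Finset.sum_eq_zero fun p hp => ?_
    rw [← Finset.prod_erase_mul _ _ hp, map_mul, Matrix.mul_assoc, map_sub, aeval_X, aeval_C,
      Matrix.sub_mul, (a_mul_bk _ _ _ _).1, Algebra.algebraMap_eq_smul_one, Matrix.smul_mul,
      Matrix.one_mul, sub_self, Matrix.mul_zero]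

theorem pb_em (_hP : PEL e a b m n) (S : Sc L l₁ I) (z : I → MorD e a b ℂ) (s : I → Fin e) :
    Mem S.PB fun i => (z i).em (Pi.single (s i) 1) := by
  simp only [em_single]
  exact (pb_bk S z s fun _ => 0).add (pb_bk S z s fun _ => 1)

section place

variable {l : ℕ} [Fact l.Prime] {φ : ℂ ≃+* PadicAlgCl l} (W : Fm e a b (OO l))

/-- For every exact labelling the set `A` is a face. -/
def Fa (ρ : κ → ℂ) (A : Finset κ) : Prop :=
  ∀ π : Equiv.Perm κ, (Cb fun k => ρ (π k)) → ∃ i d, ∀ k, π k ∈ A ↔ k i = d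

theorem prj_zero {s : Fin e} {G : M8 ℂ} {h : Fin 3 → M2 (kk l)}
    (hG : Rd φ G (((W.map (rd l)).f s).T h)) {i : Fin 3} (h1 : ∀ t, t ≠ i → (h t).det ≠ 0)
    (h2 : (h i).det = 0) (h3 : (h i).trace ≠ 0) {ρ : κ → ℂ}
    (hρ : G.charpoly = ∏ k, (X - C (ρ k))) {A : Finset κ} (hA : ∀ k, k ∈ A ↔ ‖φ (ρ k)‖ = 1)
    {Z : Matrix ν ν ℂ} (hZ : Pj (bk (W.map (up φ)).z s 0 G) (bk (W.map (up φ)).z s 0 1)
      (∏ k ∈ A, (X - C (ρ k))) (∏ k ∈ Aᶜ, (X - C (ρ k))) Z) : Fa ρ A ∧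
      Rd φ Z (bk (W.map (rd l)).z s 0 (((W.map (rd l)).f s).u i ((h i).trace⁻¹ • h i))) := by
  obtain ⟨G₀, r, a1, a2, a3, a4⟩ := rd_roots W rfl (rd_bk W s 0 hG) hρ
  obtain ⟨lam, hl⟩ := exists_eig h
  have hl' : Eig h (update lam i ![(h i).trace, 0]) := fun t => by
    by_cases ht : t = i
    · subst ht
      simp [h2]
    · simpa [update_of_ne ht] using hl t
  obtain ⟨π, hπ⟩ := rd_label a4 a2 hl'
  have b1 : ∀ k, k ∈ A ↔ rd l (r k) ≠ 0 := fun k => by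
    rw [hA, ← a3, phi_up, Ne, rd_eq_zero, not_lt]
    exact ⟨fun c => c.ge, le_antisymm (OO_le _)⟩
  have b2 : ∀ k, π k ∈ A ↔ k i = 0 := fun k => by
    rw [b1, hπ, ← Finset.mul_prod_erase _ _ (Finset.mem_univ i), update_self, mul_ne_zero_iff,
      and_iff_left (Finset.prod_ne_zero_iff.2 fun t ht => ?_)]
    · generalize k i = d
      fin_cases d <;> simp [h3]
    · rw [update_of_ne (Finset.ne_of_mem_erase ht)]
      exact left_ne_zero_of_mul ((hl.rev t (k t)).2 ▸ h1 t (Finset.ne_of_mem_erase ht))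
  refine ⟨fun σ hσ => ?_, ?_⟩
  · have b3 : (Finset.univ.filter fun k => σ k ∈ A).card = 4 := by
      rw [← card_face i 0]
      exact Finset.card_equiv (σ.trans π.symm) fun k => by simp [← b2]
    obtain ⟨j, d, b4⟩ := face_of_max (N := fun k => ‖φ (ρ (σ k))‖) (fun _ => norm_nonneg _)
      (fun j k t => by simpa using congrArg (fun y => ‖φ y‖) (hσ j k t)) b3 one_pos
      (fun k hk => (hA _).1 (Finset.mem_filter.1 hk).2) fun k hk => lt_of_le_of_ne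
        (by rw [← a3, phi_up]; exact OO_le _) fun c => hk (by simpa using (hA _).2 c)
    exact ⟨j, d, fun k => by simpa using b4 k⟩
  · rw [← a1, ← funext a3] at hZ
    have b3 := (rd_pj W rfl a4 a2 hl' hπ b2 (fun j hj k hk c => Finset.mem_compl.1 hk
      ((b1 k).2 (c ▸ (b1 j).1 hj))) hZ).2
    simpa [ep] using b3

theorem prj_one {z : MorD e a b ℂ} {s : Fin e} {γ : Matrix ν ν ℂ} (hγ : Commute (zM ℂ a) γ)
    {h : Fin e → Fin 2 → Fin 3 → M2 (kk l)} (hG : Rd φ γ ((W.map (rd l)).T2 h)) {ρ : κ → ℂ}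
    (hρ : (z.pr2 γ s 0).charpoly = ∏ k, (X - C (ρ k))) {A : Finset κ} (hA : Fa ρ A)
    (h1 : ∀ j ∈ A, ∀ k ∈ Aᶜ, ρ j ≠ ρ k) (h2 : ∀ j k, Gd l (ρ j - ρ k))
    (h3 : ∀ j k j' k', Gd l (ρ j * ρ k - ρ j' * ρ k')) {Z : Matrix ν ν ℂ}
    (hZ : Pj (bk z s 0 (z.pr2 γ s 0)) (bk z s 0 1)
      (∏ k ∈ A, (X - C (ρ k))) (∏ k ∈ Aᶜ, (X - C (ρ k))) Z) :
    ∃ (s' : Fin e) (c' : Fin 2) (i : Fin 3) (x : M2 (kk l)), x * x = x ∧
      (W.map (up φ)).z.ζ s' c' = z.ζ s 0 ∧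
      Rd φ Z (bk (W.map (rd l)).z s' c' (((W.map (rd l)).f s').u i x)) := by
  obtain ⟨s', c', hζ⟩ := exists_zeta (W.map (up φ)).z z s 0
  have a0 := (rd_bk W s' c' (Rd.one (φ := φ))).mul hG
  rw [bk_eq_of z _ hζ.symm, bk_mul z hγ, Fm.T2, bk_mul_em2, Matrix.one_mul] at a0
  obtain ⟨G₀, r, a1, a2, a3, a4⟩ := rd_roots W hζ.symm a0 hρ
  obtain ⟨lam, hl⟩ := exists_eig (h s' c')
  obtain ⟨π, hπ⟩ := rd_label a4 a2 hl
  obtain ⟨i, d, b1⟩ := hA π fun j k t => by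
    have b2 := h3 (π (update j t (k t))) (π (update k t (j t))) (π j) (π k)
    simp only [← a3, ← map_mul, ← map_sub] at b2 ⊢
    refine congrArg _ (sub_eq_zero.1 (b2.zero ?_))
    simp only [map_sub, map_mul, hπ]
    exact sub_eq_zero.2 (cb_prod lam j k t)
  rw [← a1, ← funext a3] at hZ
  obtain ⟨b2, b3⟩ := rd_pj W hζ.symm a4 a2 hl hπ b1 (fun j hj k hk c => h1 j hj k hk (by
    have b2 := h2 j k
    rw [← a3, ← a3, ← map_sub] at b2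
    rw [← a3, ← a3, sub_eq_zero.1 (b2.zero (by rw [map_sub, c, sub_self]))])) hZ
  exact ⟨s', c', i, _, ep_sq (hl.rev i d).1 (hl.rev i d).2 b2, hζ.symm, b3⟩

end place

theorem exists_data (z : MorD e a b ℂ) (s : Fin e) (G : M8 ℂ) (v : ℂ → ℝ) :
    ∃ (ρ : κ → ℂ) (A : Finset κ) (Z : Matrix ν ν ℂ), G.charpoly = ∏ k, (X - C (ρ k)) ∧
      (∀ k, k ∈ A ↔ v (ρ k) = 1) ∧ (∀ j ∈ A, ∀ k ∈ Aᶜ, ρ j ≠ ρ k) ∧
      Pj (bk z s 0 G) (bk z s 0 1) (∏ k ∈ A, (X - C (ρ k))) (∏ k ∈ Aᶜ, (X - C (ρ k))) Z := by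
  classical
  obtain ⟨ρ, hρ⟩ := exists_roots (J := κ) G.charpoly_monic
    ((charpoly_natDegree_eq_dim G).trans M4.CM.cmCubeA_card.symm)
  obtain ⟨A, hA⟩ : ∃ A : Finset κ, ∀ k, k ∈ A ↔ v (ρ k) = 1 :=
    ⟨Finset.univ.filter fun k => v (ρ k) = 1, by simp⟩
  have h1 : ∀ j ∈ A, ∀ k ∈ Aᶜ, ρ j ≠ ρ k := fun j hj k hk c =>
    Finset.mem_compl.1 hk ((hA k).2 (c ▸ (hA j).1 hj))
  obtain ⟨V, hV⟩ := exists_pj (g := bk z s 0 G) (ε := bk z s 0 1)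
    (coprime_prod ρ A Aᶜ fun j hj k hk => (sub_ne_zero.2 (h1 j hj k hk)).isUnit) (by
    rw [Finset.prod_mul_prod_compl, ← hρ, aeval_bk, aeval_self_charpoly, Matrix.zero_mul, bk_zero])
  exact ⟨ρ, A, _, hρ, hA, h1, hV⟩

theorem prj (hP : PEL e a b m n) (F : Frs e a b L l₁) (S : Sc L l₁ I) (l : I → GP L l₁)
    (φ : ∀ i, ℂ ≃+* PadicAlgCl (l i).1) (q : I → Fin e × Fin 3) (γ : I → Matrix ν ν ℂ)
    (h : ∀ i, Fin 3 → M2 (kk (l i).1)) (h1 : Mem S.PB γ) (h2 : ∀ᶠ x in S.AE, Cu F x.2 (γ x.1))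
    (h3 : ∀ᶠ i in S.Bg, Commute (zM ℂ a) (γ i) ∧ Bl F (l i) (φ i) (q i).1 (γ i) (h i) ∧
      ∀ t, t ≠ (q i).2 → (h i t).det ≠ 0)
    (h4 : ∀ i, (h i (q i).2).det = 0 ∧ (h i (q i).2).trace ≠ 0) :
    ∃ X : I → Matrix ν ν ℂ, Mem S.PB X ∧
      (∀ᶠ i in S.Bg, Rd (φ i) (X i)
        (U (Fk F (l i)) (q i).1 (q i).2 ((h i (q i).2).trace⁻¹ • h i (q i).2))) ∧
      ∀ᶠ x : I × GP L l₁ in S.AE,
        Idm F x.2 ((Fc F (l x.1) (φ x.1)).z.em (Pi.single (q x.1).1 1)) (X x.1) := by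
  choose ρ A Z d1 d2 d3 d4 using fun i => exists_data (Fc F (l i) (φ i)).z (q i).1
    ((Fc F (l i) (φ i)).z.pr2 (γ i) (q i).1 0) fun t => ‖φ i t‖
  have hε := pb_bk S (fun i => (Fc F (l i) (φ i)).z) (fun i => (q i).1) fun _ => 0
  have hρ : ∀ k, (fun i => ρ i k) ∈ S.PB := fun k => h1.root (h3.mono fun i hi =>
    root_pr2 (Fc F (l i) (φ i)).z (q i).1 0 hi.1 (by
      rw [d1 i, eval_prod]
      exact Finset.prod_eq_zero (Finset.mem_univ k) (by simp)))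
  have hZ : Mem S.PB Z := mem_pj ((hε.mul h1).congr (h3.mono fun i hi => bk_mul _ hi.1 _ _)) hε hρ
    A (.of_forall fun i => ⟨d3 i, d4 i⟩)
  have h5 := h3.mono fun i hi =>
    prj_zero (Fo F (l i)) hi.2.1 hi.2.2 (h4 i).1 (h4 i).2 (d1 i) (d2 i) (d4 i)
  refine ⟨fun i => Z i + ((b.det : ℤ) : ℂ)⁻¹ • (zM ℂ b * Z i * zM ℂ b.adjugate),
    hZ.add ((((Mem.int b).mul hZ).mul (Mem.int _)).smul (c := fun _ => ((b.det : ℤ) : ℂ)⁻¹)
      (Sc.pb_inv (intCast_mem S.PB b.det))),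
    h5.mono fun i hi => rd_sym (Fo F (l i)) hP hi.2, ?_⟩
  have g1 : ∀ᶠ x : I × GP L l₁ in S.AE, ∀ j k, Gd x.2.1 (ρ x.1 j - ρ x.1 k) :=
    eventually_all.2 fun j => eventually_all.2 fun k =>
      Sc.pb_gd (f := fun i => ρ i j - ρ i k) (S.PB.sub_mem (hρ j) (hρ k))
  have g2 : ∀ᶠ x : I × GP L l₁ in S.AE, ∀ j k j' k',
      Gd x.2.1 (ρ x.1 j * ρ x.1 k - ρ x.1 j' * ρ x.1 k') :=
    eventually_all.2 fun j => eventually_all.2 fun k => eventually_all.2 fun j' =>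
      eventually_all.2 fun k' => Sc.pb_gd (f := fun i => ρ i j * ρ i k - ρ i j' * ρ i k')
        (S.PB.sub_mem (S.PB.mul_mem (hρ j) (hρ k)) (S.PB.mul_mem (hρ j') (hρ k')))
  filter_upwards [h2, g1, g2, Sc.ae_of_bg h3, Sc.ae_of_bg h5] with x b1 b2 b3 b4 b5 ψ
  obtain ⟨k, hk⟩ := b1 ψ
  obtain ⟨s', c', i, y, c1, c2, c3⟩ :=
    prj_one (Fo F x.2) b4.1 hk (d1 x.1) b5.1 (d3 x.1) b2 b3 (d4 x.1)
  refine ⟨s', i, y, c1, rd_sym (Fo F x.2) hP c3, ?_⟩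
  rw [← em_eq_of _ _ hP c2, U_one, em_single, em_single]
  exact (rd_bk (Fo F x.2) s' 0 Rd.one).add (rd_bk (Fo F x.2) s' 1 Rd.one)

end MG.RS
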