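import Pool.Agent.Lib.MP_33b3f9_ag.MG.RS.Loc

/-!
Slots of a frame, systems of matrix units and their conjugates.
-/

set_option autoImplicit false

noncomputable section

namespace MG.RS

open Matrix Pool.Agent.M4.Mx

section fr

variable {R R' : Type} [CommRing R] [CommRing R'] (f : Fr ω R)

theorem u_map (φ : R →+* R') (i : Fin 3) (x : M2 R) :
    (f.u i x).map φ = (f.map φ).u i (x.map φ) := by
  rw [Fr.u_apply, Fr.u_apply, Fr.map_T]
  congr 1
  funext t
  by_cases ht : t = i
  · subst ht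
    simp
  · simp [Function.update_of_ne ht]

/-- A left inverse of the action in one slot. -/
def uv (i : Fin 3) : M8 R →ₗ[R] M2 R where
  toFun g := of fun p q => (f.Q * g * f.P) (Function.update 0 i p) (Function.update 0 i q)
  map_add' g h := by
    ext p q
    simp only [Matrix.mul_add, Matrix.add_mul, of_apply, Matrix.add_apply]
  map_smul' c g := by
    ext p q
    simp only [Matrix.mul_smul, Matrix.smul_mul, of_apply, Matrix.smul_apply, RingHom.id_apply]

theorem uv_u (i : Fin 3) (x : M2 R) : uv f i (f.u i x) = x := by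
  ext p q
  change (f.Q * f.T _ * f.P) _ _ = _
  rw [f.QTP, tp_update, Function.update_self, Function.update_self, Finset.prod_eq_one, mul_one]
  intro t ht
  rw [Function.update_of_ne (Finset.ne_of_mem_erase ht),
    Function.update_of_ne (Finset.ne_of_mem_erase ht)]
  exact one_apply_eq _

theorem uv_map (φ : R →+* R') (i : Fin 3) (g : M8 R) :
    (uv f i g).map φ = uv (f.map φ) i (g.map φ) := by
  ext p q
  change φ ((f.Q * g * f.P) _ _) = (f.Q.map φ * g.map φ * f.P.map φ) _ _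
  rw [← Matrix.map_mul, ← Matrix.map_mul, map_apply]

theorem u_trace (i : Fin 3) (x : M2 R) : (f.u i x).trace = 4 * x.trace := by
  rw [Fr.u_apply, Fr.T, trace_mul_comm, ← Matrix.mul_assoc, f.qp, Matrix.one_mul]
  have h : ∀ h : Fin 3 → M2 R, (Pool.Agent.M4.tp h).trace = ∏ i, (h i).trace := fun h => by
    simp only [Matrix.trace, Matrix.diag, tp_apply]
    rw [Finset.prod_univ_sum, Fintype.piFinset_univ]
  rw [h]
  fin_cases i <;> simp [Fin.prod_univ_three] <;> ring

end fr

variable [Dim] {e : ℕ} {a b : MZ} {L : Type} [Field L] {l₁ : ℕ}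

section slot

variable {R R' : Type} [CommRing R] [CommRing R']

theorem em_single_mul (z : Mor e a b R) (s : Fin e) (x y : M8 R) :
    z.em (Pi.single s x) * z.em (Pi.single s y) = z.em (Pi.single s (x * y)) := by
  rw [← map_mul, ← Pi.single_mul]

theorem em_single_ne (z : Mor e a b R) {s s' : Fin e} (h : s ≠ s') (x y : M8 R) :
    z.em (Pi.single s x) * z.em (Pi.single s' y) = 0 := by
  rw [← map_mul, ← map_zero z.em]
  congr 1
  funext t
  by_cases ht : t = s
  · subst ht
    simp [h]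
  · simp [ht]

theorem em_single_map (z : Mor e a b R) (φ : R →+* R') (s : Fin e) (x : M8 R) :
    (z.em (Pi.single s x)).map φ = (z.map φ).em (Pi.single s (x.map φ)) := by
  rw [Mor.map_em]
  congr 1
  funext t
  by_cases ht : t = s
  · subst ht
    simp
  · simp [ht]

theorem em_single_inj (z : Mor e a b R) (s : Fin e) {x y : M8 R}
    (h : z.em (Pi.single s x) = z.em (Pi.single s y)) : x = y := by
  simpa using congrFun (z.em_inj h) s

variable (F : Fm e a b R) (s : Fin e) (i : Fin 3)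

/-- The slot `i` of the block `s`. -/
def U : M2 R →ₗ[R] Matrix ν ν R :=
  F.z.em.toLinearMap ∘ₗ LinearMap.single R (fun _ => M8 R) s ∘ₗ ((F.f s).u i).toLinearMap

theorem U_apply (x : M2 R) : U F s i x = F.z.em (Pi.single s ((F.f s).u i x)) := rfl

theorem U_mul (x y : M2 R) : U F s i x * U F s i y = U F s i (x * y) := by
  rw [U_apply, U_apply, U_apply, em_single_mul, map_mul]

theorem U_one : U F s i 1 = F.z.em (Pi.single s 1) := by rw [U_apply, map_one]

theorem U_map (φ : R →+* R') (x : M2 R) : (U F s i x).map φ = U (F.map φ) s i (x.map φ) := by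
  rw [U_apply, U_apply, em_single_map, u_map]
  rfl

theorem uv_U (x : M2 R) : uv (F.f s) i (F.z.pr (U F s i x) s) = x := by
  rw [U_apply, Mor.pr_em, Pi.single_eq_same, uv_u]

theorem U_inj : Function.Injective (U F s i) := fun x y h => by
  rw [← uv_U F s i x, h, uv_U]

theorem U_comm {s s' : Fin e} {i i' : Fin 3} (h : (s, i) ≠ (s', i')) (x y : M2 R) :
    Commute (U F s i x) (U F s' i' y) := by
  rw [U_apply, U_apply]
  by_cases hs : s = s'
  · subst hs
    exact (em_single_mul _ _ _ _).trans ((congrArg (fun t => F.z.em (Pi.single s t))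
      ((F.f s).u_comm (fun e => h (by rw [e])) x y)).trans (em_single_mul _ _ _ _).symm)
  · exact (em_single_ne _ hs _ _).trans (em_single_ne _ (Ne.symm hs) _ _).symm

theorem U_adj (x : M2 R) : (U F s i x)ᵀ * J ι R = J ι R * U F s i (adjugate x) := by
  have h := (F.z.form_iff (Pi.single s ((F.f s).u i x)) 1
    (Pi.single s ((F.f s).u i (adjugate x)))).2 fun t => by
      by_cases ht : t = s
      · subst ht
        simp [F.adj]
      · simp [ht]
  rwa [map_one, Matrix.mul_one] at h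

theorem U_trace (x : M2 R) : (U F s i x).trace = 8 * x.trace := by
  rw [U_apply, Mor.trace_em, Finset.sum_eq_single s (fun t _ ht => by simp [ht]) (by simp),
    Pi.single_eq_same, u_trace]
  ring

/-- The linear map with the values `E p q` at the matrix units. -/
def lin (E : Fin 2 → Fin 2 → Matrix ν ν R) : M2 R →ₗ[R] Matrix ν ν R where
  toFun x := ∑ p, ∑ q, x p q • E p q
  map_add' x y := by simp only [Matrix.add_apply, add_smul, Finset.sum_add_distrib]
  map_smul' c x := by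
    simp only [Matrix.smul_apply, smul_eq_mul, mul_smul, Finset.smul_sum, RingHom.id_apply]

theorem lin_apply (E : Fin 2 → Fin 2 → Matrix ν ν R) (x : M2 R) :
    lin E x = ∑ p, ∑ q, x p q • E p q := rfl

theorem lin_single (E : Fin 2 → Fin 2 → Matrix ν ν R) (p q : Fin 2) :
    lin E (single p q 1) = E p q := by
  fin_cases p <;> fin_cases q <;> simp [lin_apply]

theorem lin_map (E : Fin 2 → Fin 2 → Matrix ν ν R) (φ : R →+* R') (x : M2 R) :
    (lin E x).map φ = lin (fun p q => (E p q).map φ) (x.map φ) := by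
  ext i j
  simp [lin_apply, Matrix.sum_apply]

end slot

/-- The conjugate of `E`. -/
def cj (θ : ℂ ≃+* ℂ) (E : Fin 2 → Fin 2 → Matrix ν ν ℂ) : Fin 2 → Fin 2 → Matrix ν ν ℂ :=
  fun p q => (E p q).map θ

theorem lin_cj (θ : ℂ ≃+* ℂ) (E : Fin 2 → Fin 2 → Matrix ν ν ℂ) (x : M2 ℂ) :
    (lin E x).map θ = lin (cj θ E) (x.map θ) := lin_map E θ.toRingHom x

/-- A system of matrix units in one block whose conjugates span the same algebra or commute. -/
structure MU (z : MorD e a b ℂ) (E : Fin 2 → Fin 2 → Matrix ν ν ℂ) : Prop where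
  ca : ∀ p q, Commute (zM ℂ a) (E p q)
  cb : ∀ p q, Commute (zM ℂ b) (E p q)
  mul : ∀ x y, lin E x * lin E y = lin E (x * y)
  blk : ∃ s, lin E 1 = z.em (Pi.single s 1)
  adj : ∀ x, (lin E x)ᵀ * J ι ℂ = J ι ℂ * lin E (adjugate x)
  dich : ∀ θ, (∀ x, ∃ y, lin (cj θ E) x = lin E y) ∨ ∀ x y, Commute (lin (cj θ E) x) (lin E y)

/-- `E` reduces onto one slot at every place over `l`. -/
def Red (F : Frs e a b L l₁) (l : GP L l₁) (E : Fin 2 → Fin 2 → Matrix ν ν ℂ) : Prop :=
  ∀ φ : ℂ ≃+* PadicAlgCl l.1, ∃ (s : Fin e) (i : Fin 3) (u : M2 (kk l.1) ≃ₐ[kk l.1] M2 (kk l.1)),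
    ∀ p q, Rd φ (E p q) (U (Fk F l) s i (u (single p q 1)))

/-- Representatives of the conjugates of the algebra of `E`. -/
structure TT (z : MorD e a b ℂ) (E : Fin 2 → Fin 2 → Matrix ν ν ℂ) {d : ℕ}
    (θ : Fin e → Fin d → ℂ ≃+* ℂ) : Prop where
  blk : ∀ s t, lin (cj (θ s t) E) 1 = z.em (Pi.single s 1)
  comm : ∀ s t t', t ≠ t' → ∀ x y, Commute (lin (cj (θ s t) E) x) (lin (cj (θ s t') E) y)
  cov : ∀ τ, ∃ s t, ∀ x, ∃ y, lin (cj τ E) x = lin (cj (θ s t) E) y

/-- `τ` maps the conjugate `(s, t)` to the conjugate `(s', t')`. -/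
def To (E : Fin 2 → Fin 2 → Matrix ν ν ℂ) {d : ℕ} (θ : Fin e → Fin d → ℂ ≃+* ℂ) (τ : ℂ ≃+* ℂ)
    (T T' : Fin e × Fin d) : Prop :=
  ∀ y, ∃ y', (lin (cj (θ T.1 T.2) E) y).map τ = lin (cj (θ T'.1 T'.2) E) y'

/-- The rational points of the product of the conjugates. -/
def Inv (E : Fin 2 → Fin 2 → Matrix ν ν ℂ) {d : ℕ} (θ : Fin e → Fin d → ℂ ≃+* ℂ)
    (x : Fin e → Fin d → M2 ℂ) : Prop :=
  ∀ τ T T', To E θ τ T T' →
    (lin (cj (θ T.1 T.2) E) (x T.1 T.2)).map τ = lin (cj (θ T'.1 T'.2) E) (x T'.1 T'.2)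

/-- `ψ` is the family of the conjugates, in the frame `z`. -/
def IsPsi (z : MorD e a b ℂ) (E : Fin 2 → Fin 2 → Matrix ν ν ℂ) {d : ℕ}
    (θ : Fin e → Fin d → ℂ ≃+* ℂ) (ψ : Fin e → Fin d → M2 ℂ →ₐ[ℂ] M8 ℂ) : Prop :=
  ∀ s t x, lin (cj (θ s t) E) x = z.em (Pi.single s (ψ s t x))

/-- The norm map. -/
def nrm (z : MorD e a b ℂ) {d : ℕ} (ψ : Fin e → Fin d → M2 ℂ →ₐ[ℂ] M8 ℂ)
    (x : Fin e → Fin d → M2 ℂ) : Matrix ν ν ℂ :=
  z.em fun s => (List.ofFn fun t => ψ s t (x s t)).prod

end MG.RS
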