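import Pool.Agent.Lib.MP_33b3f9_ag.MG.RS.Mu

/-!
Matrices of size two and rank one.
-/

set_option autoImplicit false

noncomputable section

namespace MG.RS

open Matrix Pool.Agent.M4.Mx

variable {k : Type} [Field k]

theorem exists_alg {x n : M2 k} (h1 : x * x = x) (h2 : x * n = n) (h3 : n * x = 0) (h4 : n ≠ 0) :
    ∃ u : M2 k ≃ₐ[k] M2 k, u (single 0 0 1) = x ∧ u (single 0 1 1) = n := by
  obtain ⟨v, hv⟩ : ∃ v, n *ᵥ v ≠ 0 := by
    by_contra hc
    push Not at hc
    exact h4 (Matrix.ext_of_mulVec_single fun i => by rw [hc, zero_mulVec])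
  have a1 : x *ᵥ (v - x *ᵥ v) = 0 := by rw [mulVec_sub, mulVec_mulVec, h1, sub_self]
  have a2 : n *ᵥ (v - x *ᵥ v) = n *ᵥ v := by
    rw [mulVec_sub, mulVec_mulVec, h3, zero_mulVec, sub_zero]
  have a3 : x *ᵥ n *ᵥ v = n *ᵥ v := by rw [mulVec_mulVec, h2]
  have a4 : n *ᵥ n *ᵥ v = 0 := by rw [← a3, mulVec_mulVec, h3, zero_mulVec]
  generalize v - x *ᵥ v = q, n *ᵥ v = p at a1 a2 a3 a4 hv
  let g : M2 k := of fun i j => ![p, q] j i
  have b0 : ∀ c : Fin 2 → k, g *ᵥ c = c 0 • p + c 1 • q := fun c => by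
    ext i
    simp [g, mulVec, dotProduct, mul_comm]
  have b1 : IsUnit g := mulVec_injective_iff_isUnit.1 ((injective_iff_map_eq_zero
    g.mulVecLin).2 fun c hc => by
      rw [mulVecLin_apply, b0] at hc
      have c1 := congrArg (x *ᵥ ·) hc
      have c2 := congrArg (n *ᵥ ·) hc
      simp only [mulVec_add, mulVec_smul, a1, a2, a3, a4, smul_zero, add_zero, zero_add,
        mulVec_zero, smul_eq_zero, hv, or_false] at c1 c2
      ext i
      fin_cases i
      · exact c1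
      · exact c2)
  obtain ⟨g', hg⟩ := b1
  have b2 : ∀ y y' : M2 k, (∀ c, y *ᵥ g *ᵥ c = g *ᵥ y' *ᵥ c) →
      MulSemiringAction.toAlgEquiv k (M2 k) (ConjAct.toConjAct g') y' = y := fun y y' h => by
    have : y * g = g * y' := Matrix.ext_of_mulVec_single fun i => by
      rw [← mulVec_mulVec, ← mulVec_mulVec, h]
    rw [MulSemiringAction.toAlgEquiv_apply, ConjAct.units_smul_def, ConjAct.ofConjAct_toConjAct,
      Units.mul_inv_eq_iff_eq_mul, hg, this]
  refine ⟨_, b2 _ _ fun c => ?_, b2 _ _ fun c => ?_⟩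
  · simp [b0, mulVec_add, mulVec_smul, a1, a3, single_mulVec]
  · simp [b0, mulVec_add, mulVec_smul, a2, a4, single_mulVec]

theorem alg_rel (u : M2 k ≃ₐ[k] M2 k) :
    u (single 1 1 1) = 1 - u (single 0 0 1) ∧
    u (single 0 1 1) * u (single 1 0 1) = u (single 0 0 1) ∧
    u (single 1 1 1) * u (single 1 0 1) = u (single 1 0 1) ∧
    u (single 1 0 1) * u (single 0 1 1) = u (single 1 1 1) ∧
    u (single 1 0 1) * u (single 1 0 1) = 0 ∧ u (single 0 1 1) * u (single 0 1 1) = 0 := by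
  simp only [← map_mul, single_mul_single_same, mul_one, true_and]
  refine ⟨?_, by simp, by simp⟩
  rw [← map_one u, ← map_sub]
  congr 1
  ext i j
  fin_cases i <;> fin_cases j <;> simp

theorem alg_adj (u : M2 k ≃ₐ[k] M2 k) (x : M2 k) : u (adjugate x) = adjugate (u x) := by
  have h : ∀ y : M2 k, adjugate y = y.trace • 1 - y := fun y => by
    ext i j
    fin_cases i <;> fin_cases j <;> simp [adjugate_fin_two, trace_fin_two]
  rw [h, h, map_sub, map_smul, map_one, Matrix.trace_map u]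

/-- The matrix of rank one with image `v` and kernel `w`. -/
def rk (v w : Fin 2 → k) : M2 k := vecMulVec v ![w 1, -w 0]

theorem exists_rk {h : M2 k} {w : Fin 2 → k} (hw : w ≠ 0) (h0 : h *ᵥ w = 0) :
    ∃ v, h = rk v w := by
  have h1 : ∀ i, h i 0 * w 0 + h i 1 * w 1 = 0 := fun i => by
    simpa [mulVec, dotProduct] using congrFun h0 i
  by_cases h2 : w 0 = 0
  · have h3 : w 1 ≠ 0 := fun c => hw (funext fun i => by fin_cases i <;> assumption)
    refine ⟨fun i => h i 0 / w 1, ?_⟩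
    ext i j
    have := h1 i
    fin_cases j <;> simp_all [rk, vecMulVec_apply]
  · refine ⟨fun i => -h i 1 / w 0, ?_⟩
    ext i j
    have := h1 i
    fin_cases j <;> simp [rk, vecMulVec_apply] <;> field_simp
    linear_combination this

theorem rk_mul (v w v' w' : Fin 2 → k) : rk v w * rk v' w' = rk (wd v' w • v) w' := by
  ext i j
  fin_cases i <;> fin_cases j <;> simp [rk, wd, vecMulVec_apply, Matrix.mul_apply] <;> ring

theorem rk_adj (v w : Fin 2 → k) : adjugate (rk v w) = rk (-w) v := by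
  ext i j
  fin_cases i <;> fin_cases j <;> simp [rk, vecMulVec_apply, adjugate_fin_two] <;> ring

theorem rk_smul (c : k) (v w : Fin 2 → k) : c • rk v w = rk (c • v) w := by
  rw [rk, rk, smul_vecMulVec]

theorem wd_smul (c : k) (v w : Fin 2 → k) : wd (c • v) w = c * wd v w := by
  simp only [wd, Pi.smul_apply, smul_eq_mul]
  ring

theorem wd_neg (v w : Fin 2 → k) : wd (-v) w = -wd v w := by
  simp only [wd, Pi.neg_apply]
  ring

theorem wd_symm {v w : Fin 2 → k} (h : wd v w = 0) : wd w v = 0 := by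
  simp only [wd] at h ⊢
  linear_combination -h

theorem wd_trans {v x y : Fin 2 → k} (hv : v ≠ 0) (h : wd v x = 0) (h' : wd v y = 0) :
    wd x y = 0 := by
  by_contra hc
  refine hv (funext fun i => mul_left_cancel₀ hc ?_)
  simp only [wd] at h h' ⊢
  fin_cases i
  · simp only [Fin.zero_eta, Pi.zero_apply, mul_zero]
    linear_combination x 0 * h' - y 0 * h
  · simp only [Fin.mk_one, Pi.zero_apply, mul_zero]
    linear_combination x 1 * h' - y 1 * h

/-- Two matrices of rank one whose projectors do not commute. -/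
structure Tw (y y' : M2 k) : Prop where
  d : y.det = 0
  d' : y'.det = 0
  t : y.trace ≠ 0
  t' : y'.trace ≠ 0
  n : y * y' * (y.trace • 1 - y) ≠ 0

theorem tw_rk {p r p' r' : Fin 2 → k} (h1 : wd p r ≠ 0) (h2 : wd p' r' ≠ 0) (h3 : wd p' r ≠ 0)
    (h4 : wd r r' ≠ 0) : Tw (rk p r) (rk p' r') := by
  have a1 : ∀ v w : Fin 2 → k, (rk v w).det = 0 := fun v w => by
    simp [rk, det_fin_two]
    ring
  have a2 : ∀ v w : Fin 2 → k, (rk v w).trace = wd v w := fun v w => by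
    simp [rk, trace_fin_two, wd, sub_eq_add_neg]
  refine ⟨a1 _ _, a1 _ _, by rwa [a2], by rwa [a2], fun h => h1 ?_⟩
  have a3 : (rk p r).trace • (1 : M2 k) - rk p r = rk (-r) p := by
    rw [← rk_adj]
    ext i j
    fin_cases i <;> fin_cases j <;> simp [adjugate_fin_two, trace_fin_two]
  rw [a3, rk_mul, rk_mul, smul_smul, ← rk_smul, smul_eq_zero_iff_right
    (mul_ne_zero (by rwa [wd_neg, neg_ne_zero]) h3)] at h
  have a4 := congrFun (congrFun h 0) 1
  have a5 := congrFun (congrFun h 1) 0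
  simp only [rk, vecMulVec_apply, cons_val_one, cons_val_zero, Matrix.zero_apply, mul_neg,
    neg_eq_zero, mul_self_eq_zero] at a4 a5
  simp [wd, a4, a5]

theorem words (h : Fin 3 → M2 k) (w : Fin 3 → Fin 2 → k) (h0 : ∀ a, h a ≠ 0)
    (h1 : ∀ a, h a *ᵥ w a = 0) (hw : ∀ a b, a ≠ b → wd (w a) (w b) ≠ 0) :
    ∃ (o : Option (Fin 3)) (b b' : Fin 3), ∀ c : Fin 3 → k, (∀ j, c j ≠ 0) →
      Tw (o.elim 1 (fun j => c j • adjugate (h j)) * h b)
        (o.elim 1 (fun j => c j • adjugate (h j)) * h b') := by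
  have i1 : ∀ j : Fin 3, j ≠ j + 1 ∧ j ≠ j + 2 ∧ j + 1 ≠ j + 2 := by decide
  have hw0 : ∀ a, w a ≠ 0 := fun a c => hw a _ (i1 a).1 (by simp [wd, c])
  choose v hv using fun a => exists_rk (hw0 a) (h1 a)
  have hv0 : ∀ a, v a ≠ 0 := fun a c => h0 a (by rw [hv, c, rk, zero_vecMulVec])
  by_cases hc : ∃ j, wd (v (j + 1)) (v j) ≠ 0 ∧ wd (v (j + 2)) (v j) ≠ 0
  · obtain ⟨j, a1, a2⟩ := hc
    refine ⟨some j, j + 1, j + 2, fun c hc => ?_⟩
    simp only [Option.elim, hv, rk_adj, rk_smul, rk_mul]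
    refine tw_rk ?_ ?_ ?_ (hw _ _ (i1 j).2.2) <;>
      simp [wd_smul, wd_neg, a1, a2, hc, hw _ _ (i1 j).1, hw _ _ (i1 j).2.1]
  · have a0 : ∀ j, wd (v (j + 1)) (v j) = 0 ∨ wd (v (j + 2)) (v j) = 0 := fun j => by
      by_contra c
      exact hc ⟨j, (not_or.1 c).1, (not_or.1 c).2⟩
    have a1 : wd (v 0) (v 1) = 0 ∧ wd (v 0) (v 2) = 0 := by
      rcases a0 0 with b0 | b0
      · rcases a0 2 with b2 | b2
        · exact ⟨wd_symm b0, b2⟩
        · exact ⟨wd_symm b0, wd_trans (hv0 1) b0 b2⟩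
      · rcases a0 1 with b1 | b1
        · exact ⟨wd_trans (hv0 2) b0 b1, wd_symm b0⟩
        · exact ⟨b1, wd_symm b0⟩
    have a2 : ∀ a c, wd (v a) (w c) = 0 → wd (v 0) (w c) = 0 := fun a c e => by
      refine wd_trans (hv0 a) ?_ e
      fin_cases a
      · exact sub_eq_zero.2 (mul_comm _ _)
      · exact wd_symm a1.1
      · exact wd_symm a1.2
    obtain ⟨j, a3, a4⟩ : ∃ j, wd (v 0) (w (j + 1)) ≠ 0 ∧ wd (v 0) (w (j + 2)) ≠ 0 := by
      have a5 : ∀ a b, a ≠ b → wd (v 0) (w a) = 0 → wd (v 0) (w b) ≠ 0 := fun a b e c c' =>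
        hw a b e (wd_trans (hv0 0) c c')
      by_cases c1 : wd (v 0) (w 1) = 0
      · exact ⟨1, a5 1 _ (by decide) c1, a5 1 _ (by decide) c1⟩
      · by_cases c2 : wd (v 0) (w 2) = 0
        · exact ⟨2, a5 2 _ (by decide) c2, a5 2 _ (by decide) c2⟩
        · exact ⟨0, c1, c2⟩
    refine ⟨none, j + 1, j + 2, fun c _ => ?_⟩
    simp only [Option.elim, one_mul, hv]
    exact tw_rk (fun e => a3 (a2 _ _ e)) (fun e => a4 (a2 _ _ e)) (fun e => a3 (a2 _ _ e))
      (hw _ _ (i1 j).2.2)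

end MG.RS
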