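import Pool.Agent.Lib.MP_33b3f9_ag.MG.RS.Cube
import Pool.Agent.Lib.MP_33b3f9_ag.MG.RS.Two

/-!
Pure tensors at a prime, and the principle of exactness.
-/

set_option autoImplicit false

noncomputable section

namespace MG.RS

open Matrix Filter Pool.Agent.M4.Mx

variable {L : Type} [Field L] {l₁ : ℕ} {I : Type} {S : Sc L l₁ I}

theorem exact_of {m n : Type} [Finite m] [Finite n] {A : I → Matrix m n ℂ} (hA : Mem S.PB A)
    (h : ∀ᶠ x in S.AE, ∃ φ : ℂ ≃+* PadicAlgCl x.2.1, Rd φ (A x.1) 0) :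
    ∀ᶠ i in S.Bg, A i = 0 :=
  Sc.bg_of_ae' (p := fun i => A i = 0) ((h.and hA.gd).mono fun _ ⟨⟨_, h1⟩, h2⟩ => h1.eq_zero h2)

theorem exact_eq {m n : Type} [Finite m] [Finite n] {A B : I → Matrix m n ℂ} (hA : Mem S.PB A)
    (hB : Mem S.PB B) (h : ∀ᶠ x in S.AE, ∃ φ : ℂ ≃+* PadicAlgCl x.2.1,
      ∃ c, Rd φ (A x.1) c ∧ Rd φ (B x.1) c) :
    ∀ᶠ i in S.Bg, A i = B i := by
  refine (exact_of (A := fun i => A i - B i) (hA.sub hB) ?_).mono fun _ => sub_eq_zero.1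
  filter_upwards [h] with x ⟨φ, c, h1, h2⟩
  have := h1.sub h2
  rw [sub_self] at this
  exact ⟨φ, this⟩

variable [Dim] {e : ℕ} {a b : MZ}

/-- `A` reduces to a pure tensor at every place over `l`. -/
def Cu (F : Frs e a b L l₁) (l : GP L l₁) (A : Matrix ν ν ℂ) : Prop :=
  ∀ φ : ℂ ≃+* PadicAlgCl l.1, ∃ h, Rd φ A ((Fk F l).T2 h)

/-- The block `s` of `A` with the first sign reduces to the pure tensor of `h`. -/
def Bl (F : Frs e a b L l₁) (l : GP L l₁) (φ : ℂ ≃+* PadicAlgCl l.1) (s : Fin e)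
    (A : Matrix ν ν ℂ) (h : Fin 3 → M2 (kk l.1)) : Prop :=
  Rd φ ((Fc F l φ).z.pr2 A s 0) (((Fk F l).f s).T h)

/-- `X` reduces to an idempotent of a slot with unit `ε` at every place over `l`. -/
def Idm (F : Frs e a b L l₁) (l : GP L l₁) (ε X : Matrix ν ν ℂ) : Prop :=
  ∀ φ : ℂ ≃+* PadicAlgCl l.1, ∃ (s : Fin e) (i : Fin 3) (x : M2 (kk l.1)), x * x = x ∧
    Rd φ X (U (Fk F l) s i x) ∧ Rd φ ε (U (Fk F l) s i 1)

end MG.RS
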